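import Pool.Agent.Lib.SkG.Cnt
import Pool.Agent.Lib.SkS.Burn

/-!
# Module BC (general p; adapt SkS/BC), and the parity statement

`even_of_irr`: `bc` with `D = ⊥` (the adjoin of `{0}` is the line of scalars) gives `(finrank V)^2 ≤ p^n`, so `(finrank V)^2 = p^n`; `finrank V ∣ p^n`, so `finrank V = p^m`
(`(Nat.dvd_prime_pow hp).1`) and `2 m = n`.
-/

namespace Pool.Agent.SkG

open Module Pool.Agent.SkS

variable {k L V : Type} [Field k] {p : ℕ} [Fact p.Prime] [LieRing L] [LieAlgebra k L]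
  [AddCommGroup V] [Module k V] [FiniteDimensional k V] [FiniteDimensional k L]

theorem bc [IsAlgClosed k] {f : L → L} {χ : Dual k L} (ρ : L →ₗ[k] End k V) (hρ : Rep p f χ ρ)
    (h : Irr ρ) (D : Submodule k L) :
    finrank k V ^ 2 ≤
      finrank k (Algebra.adjoin k (ρ '' (D : Set L))) * p ^ (finrank k L - finrank k D) := by
  have h1 := cnt ρ hρ D
  rw [burnside ρ h, subalgebra_top_finrank_eq_submodule_top_finrank, finrank_top] at h1
  have h2 : finrank k (End k V) = finrank k V ^ 2 := by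
    rw [sq]
    exact Module.finrank_linearMap k k V V
  rwa [h2] at h1

theorem bc_scalar [IsAlgClosed k] {f : L → L} {χ : Dual k L} (ρ : L →ₗ[k] End k V)
    (hρ : Rep p f χ ρ) (h : Irr ρ) (D : Submodule k L)
    (hD : ∀ x ∈ D, ∃ c : k, ρ x = algebraMap k (End k V) c) :
    finrank k V ^ 2 ≤ p ^ (finrank k L - finrank k D) := by
  have h1 := bc ρ hρ h D
  have := h.1
  have h2 : Algebra.adjoin k (ρ '' (D : Set L)) = ⊥ := by
    rw [eq_bot_iff, Algebra.adjoin_le_iff]
    rintro _ ⟨x, hx, rfl⟩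
    obtain ⟨c, hc⟩ := hD x hx
    rw [SetLike.mem_coe, Algebra.mem_bot]
    exact ⟨c, hc.symm⟩
  rw [h2] at h1
  have h3 : finrank k (⊥ : Subalgebra k (End k V)) = 1 := Subalgebra.finrank_bot
  rwa [h3, one_mul] at h1

theorem rep_rs {f : L → L} {χ : Dual k L} (ρ : L →ₗ[k] End k V) (hρ : Rep p f χ ρ)
    (A : LieSubalgebra k L) (hA : ∀ x ∈ A, f x ∈ A) (W : Submodule k V)
    (h : ∀ x ∈ A, ∀ w ∈ W, ρ x w ∈ W) :
    Rep p (fs f A hA) (χ.comp A.toSubmodule.subtype) (rs ρ A W h) := by
  constructor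
  · intro x y
    ext w
    have e := congrArg (fun g : End k V => g (w : V)) (hρ.lie (x : L) (y : L))
    simpa using e
  · intro x
    have hpow : ∀ (j : ℕ) (w : W),
        (((rs ρ A W h x ^ j) w : W) : V) = (ρ (x : L) ^ j) (w : V) := by
      intro j
      induction j with
      | zero => intro w; simp
      | succ j ih =>
        intro w
        rw [pow_succ, pow_succ, Module.End.mul_apply, Module.End.mul_apply, ih]
        rfl
    ext w
    rw [hpow]
    have e : (ρ (x : L) ^ p) (w : V) = ρ (f (x : L)) (w : V) + χ (x : L) ^ p • (w : V) := by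
      have e' := congrArg (fun g : End k V => g (w : V)) (hρ.pow (x : L))
      simpa [Algebra.algebraMap_eq_smul_one] using e'
    have e2 : (((algebraMap k (End k W)) ((χ.comp A.toSubmodule.subtype) x ^ p) w : W) : V) =
        χ (x : L) ^ p • (w : V) := by
      rw [Module.algebraMap_end_apply]
      rfl
    rw [LinearMap.add_apply, Submodule.coe_add, e2]
    exact e

theorem gen_irr {f : L → L} {χ : Dual k L} (ρ : L →ₗ[k] End k V) (hρ : Rep p f χ ρ) (h : Irr ρ)
    (D : Submodule k L) (W : Submodule k V) (hW0 : W ≠ ⊥)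
    (hW : ∀ x ∈ D, ∀ w ∈ W, ρ x w ∈ W) :
    finrank k V ≤ p ^ (finrank k L - finrank k D) * finrank k W := by
  refine gen ρ hρ D W hW fun X hX hWX => ?_
  rcases h.2 X hX with h1 | h1
  · exact absurd (le_bot_iff.1 (h1 ▸ hWX)) hW0
  · exact h1

theorem even_of_irr [IsAlgClosed k] {f : L → L} {χ : Dual k L} (ρ : L →ₗ[k] End k V)
    (hρ : Rep p f χ ρ) (h : Irr ρ) (hd : p ^ finrank k L ≤ finrank k V ^ 2) :
    Even (finrank k L) := by
  have hp : p.Prime := Fact.out
  have h1 := bc_scalar ρ hρ h ⊥ (by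
    intro x hx
    rw [Submodule.mem_bot] at hx
    exact ⟨0, by rw [hx, map_zero, map_zero]⟩)
  rw [finrank_bot, Nat.sub_zero] at h1
  have h2 : finrank k V ^ 2 = p ^ finrank k L := le_antisymm h1 hd
  have h3 : finrank k V ∣ p ^ finrank k L := by
    rw [← h2, sq]
    exact Dvd.intro _ rfl
  obtain ⟨m, -, hm⟩ := (Nat.dvd_prime_pow hp).1 h3
  rw [hm, ← pow_mul] at h2
  have h4 := Nat.pow_right_injective hp.two_le h2
  exact ⟨m, by omega⟩

end Pool.Agent.SkG
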