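import Pool.Agent.Lib.SkG.Defs
import Pool.Agent.Lib.MP_fc2f40_al.PBW

/-!
# Module Basic (general p; adapt SkS/Basic): formal properties from the frozen hypotheses

`ι` is injective (`PBW.ι_injective`).  `addc`: if `⁅x,y⁆ = 0` then `ι x`, `ι y` commute, `(ι x + ι y)^p = ι x^p + ι y^p` (`Commute.add_pow_prime_eq`-type lemma or
`add_pow_char_of_commute`; `U(L)` has characteristic `p`: it is a nontrivial `k`-algebra, `charP_of_injective_algebraMap`).
`ad`: `[ι x^p, ι y] = (ad ι x)^p (ι y)`: left and right multiplications by `ι x` commute in `End U`, so `(L - R)^p = L^p - R^p` (`sub_pow_char_of_commute` in `End`).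
-/

set_option linter.unusedSectionVars false

namespace Pool.Agent.SkG

open Module Pool.Agent.SkS

variable {k L : Type} [Field k] {p : ℕ} [Fact p.Prime] [CharP k p] [LieRing L] [LieAlgebra k L]

attribute [local instance 100] LieRing.ofAssociativeRing

private lemma ι_lie (x y : L) :
    (UniversalEnvelopingAlgebra.ι k ⁅x, y⁆ : UniversalEnvelopingAlgebra k L) =
    UniversalEnvelopingAlgebra.ι k x * UniversalEnvelopingAlgebra.ι k y -
      UniversalEnvelopingAlgebra.ι k y * UniversalEnvelopingAlgebra.ι k x := by
  rw [LieHom.map_lie, LieRing.of_associative_ring_bracket]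

private lemma nontrivial_U : Nontrivial (UniversalEnvelopingAlgebra k L) :=
  RingHom.domain_nontrivial
    (UniversalEnvelopingAlgebra.lift k (0 : L →ₗ⁅k⁆ k) :
      UniversalEnvelopingAlgebra k L →ₐ[k] k).toRingHom

theorem rst_of_frz {f : L → L} (h : Frz p k f) : Rst p k f := by
  have inj := Pool.Agent.Lib.MP_fc2f40_al.PBW.ι_injective k L
  have hnt := nontrivial_U (k := k) (L := L)
  have hch : CharP (UniversalEnvelopingAlgebra k L) p :=
    charP_of_injective_algebraMap (algebraMap k (UniversalEnvelopingAlgebra k L)).injective p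
  have hch2 : CharP (Module.End k (UniversalEnvelopingAlgebra k L)) p :=
    charP_of_injective_algebraMap
      (algebraMap k (Module.End k (UniversalEnvelopingAlgebra k L))).injective p
  refine ⟨?_, ?_, ?_⟩
  · intro x y hxy
    apply inj
    have h1 := h.add x y
    rw [map_add]
    rw [map_add] at h1
    have h2 : Commute (UniversalEnvelopingAlgebra.ι k x : UniversalEnvelopingAlgebra k L)
        (UniversalEnvelopingAlgebra.ι k y) := by
      have h3 := ι_lie (k := k) x y
      rw [hxy, map_zero] at h3
      exact (sub_eq_zero.1 h3.symm)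
    rw [add_pow_char_of_commute p h2] at h1
    set X := (UniversalEnvelopingAlgebra.ι k x : UniversalEnvelopingAlgebra k L)
    set Y := (UniversalEnvelopingAlgebra.ι k y : UniversalEnvelopingAlgebra k L)
    set FX := (UniversalEnvelopingAlgebra.ι k (f x) : UniversalEnvelopingAlgebra k L)
    set FY := (UniversalEnvelopingAlgebra.ι k (f y) : UniversalEnvelopingAlgebra k L)
    set FXY := (UniversalEnvelopingAlgebra.ι k (f (x + y)) : UniversalEnvelopingAlgebra k L)
    have h4 : FXY = (X ^ p + Y ^ p) - (X ^ p - FX + (Y ^ p - FY)) := by rw [← h1]; abel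
    rw [h4]
    abel
  · intro a x
    apply inj
    have h1 := h.smul a x
    rw [map_smul] at h1
    rw [map_smul]
    have h2 : (a • (UniversalEnvelopingAlgebra.ι k x : UniversalEnvelopingAlgebra k L)) ^ p =
        a ^ p • (UniversalEnvelopingAlgebra.ι k x : UniversalEnvelopingAlgebra k L) ^ p :=
      smul_pow _ _ _
    rw [h2, smul_sub] at h1
    exact sub_right_injective h1
  · intro x y
    apply inj
    have h1 := h.comm x y
    set X := (UniversalEnvelopingAlgebra.ι k x : UniversalEnvelopingAlgebra k L) with hX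
    set FX := (UniversalEnvelopingAlgebra.ι k (f x) : UniversalEnvelopingAlgebra k L) with hFX
    have hsemi : Function.Semiconj (fun w : L =>
        (UniversalEnvelopingAlgebra.ι k w : UniversalEnvelopingAlgebra k L)) (fun w => ⁅x, w⁆)
        (LinearMap.mulLeft k X - LinearMap.mulRight k X :
          Module.End k (UniversalEnvelopingAlgebra k L)) := by
      intro w
      show (UniversalEnvelopingAlgebra.ι k ⁅x, w⁆ : UniversalEnvelopingAlgebra k L) = _
      rw [ι_lie, LinearMap.sub_apply, LinearMap.mulLeft_apply, LinearMap.mulRight_apply]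
    have h2 := hsemi.iterate_right p y
    have h3 : ((LinearMap.mulLeft k X - LinearMap.mulRight k X :
        Module.End k (UniversalEnvelopingAlgebra k L)) : UniversalEnvelopingAlgebra k L → _)^[p] =
        ((LinearMap.mulLeft k X - LinearMap.mulRight k X :
          Module.End k (UniversalEnvelopingAlgebra k L)) ^ p : Module.End k _) := by
      rw [Module.End.coe_pow]
    have h4 : ((LinearMap.mulLeft k X - LinearMap.mulRight k X :
          Module.End k (UniversalEnvelopingAlgebra k L)) ^ p : Module.End k _) =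
        LinearMap.mulLeft k (X ^ p) - LinearMap.mulRight k (X ^ p) := by
      rw [sub_pow_char_of_commute p (LinearMap.commute_mulLeft_right (R := k) X X),
        LinearMap.pow_mulLeft, LinearMap.pow_mulRight]
    rw [h3, h4, LinearMap.sub_apply, LinearMap.mulLeft_apply, LinearMap.mulRight_apply] at h2
    rw [h2, ι_lie]
    set Y := (UniversalEnvelopingAlgebra.ι k y : UniversalEnvelopingAlgebra k L)
    have h5 : (X ^ p - FX) * Y = Y * (X ^ p - FX) := h1
    have e1 : FX * Y = X ^ p * Y - (X ^ p - FX) * Y := by noncomm_ring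
    have e2 : Y * FX = Y * X ^ p - Y * (X ^ p - FX) := by noncomm_ring
    rw [← hFX, e1, e2, h5]
    abel

theorem rep_uι (f : L → L) (χ : Dual k L) : Rep p f χ (uι p f χ) := by
  refine ⟨?_, ?_⟩
  · intro x y
    change RingQuot.mkAlgHom k (Urel p f χ) _ = RingQuot.mkAlgHom k (Urel p f χ) _ *
      RingQuot.mkAlgHom k (Urel p f χ) _ - RingQuot.mkAlgHom k (Urel p f χ) _ *
      RingQuot.mkAlgHom k (Urel p f χ) _
    rw [ι_lie, map_sub, map_mul, map_mul]
  · intro x
    change RingQuot.mkAlgHom k (Urel p f χ) _ ^ p =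
      RingQuot.mkAlgHom k (Urel p f χ) _ + _
    have h1 : RingQuot.mkAlgHom k (Urel p f χ)
        (UniversalEnvelopingAlgebra.ι k x ^ p - UniversalEnvelopingAlgebra.ι k (f x)) =
        RingQuot.mkAlgHom k (Urel p f χ)
          (algebraMap k (UniversalEnvelopingAlgebra k L) (χ x ^ p)) :=
      RingQuot.mkAlgHom_rel k ⟨x, rfl, rfl⟩
    rw [map_sub, map_pow, AlgHom.commutes, sub_eq_iff_eq_add'] at h1
    rw [h1]

theorem adjoin_uι (f : L → L) (χ : Dual k L) :
    Algebra.adjoin k (Set.range (uι p f χ)) = ⊤ := by
  rw [eq_top_iff]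
  rintro u -
  obtain ⟨v, rfl⟩ := RingQuot.mkAlgHom_surjective k (Urel p f χ) u
  induction v using Pool.Agent.Lib.MP_fc2f40_al.PBW.U_induction with
  | algebraMap r =>
    rw [AlgHom.commutes]
    exact Subalgebra.algebraMap_mem _ r
  | ι x => exact Algebra.subset_adjoin ⟨x, rfl⟩
  | mul a b ha hb => rw [map_mul]; exact Subalgebra.mul_mem _ ha hb
  | add a b ha hb => rw [map_add]; exact Subalgebra.add_mem _ ha hb

end Pool.Agent.SkG
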