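import Pool.Agent.Lib.SkG.Defs
import Pool.Agent.Lib.MP_fc2f40_al.PBW

/-!
# Module Pbw (general p; adapt SkS/Pbw): `dim u(L, χ) ≥ p^n`

Same proof with `Ξ_i = ι(b_i)^p - ι(f b_i) - χ(b_i)^p` (leading form `X_i^p`), `Θ (X^a) = rhoU (ζ (X^{a/p})) (X^{a % p})`.
-/

set_option linter.unusedSectionVars false

namespace Pool.Agent.SkG

open Module MvPolynomial Finsupp

open Pool.Agent.Lib.MP_fc2f40_al.PBW (mon W mon_mem_W W_mono X_mul_mon X_mul_mem_W A AL A_sub_mem
  AL_basis rhoU rhoU_ι Phi Psi Phi_Psi Psi_apply Phi_mon mon_zero rhoU_Phi_mon coeff_of_mem_W exists_W)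

noncomputable section

variable {k L : Type} [Field k] {p : ℕ} [LieRing L] [LieAlgebra k L]

/-- the central elements -/
private def Xi (p : ℕ) (f : L → L) (χ : Dual k L) (x : L) : UniversalEnvelopingAlgebra k L :=
  UniversalEnvelopingAlgebra.ι k x ^ p - UniversalEnvelopingAlgebra.ι k (f x) -
    algebraMap k (UniversalEnvelopingAlgebra k L) (χ x ^ p)

private lemma Xi_comm {f : L → L} (h : Frz p k f) (χ : Dual k L) (x : L)
    (u : UniversalEnvelopingAlgebra k L) : Xi p f χ x * u = u * Xi p f χ x := by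
  have key : ∀ u, Commute (UniversalEnvelopingAlgebra.ι k x ^ p - UniversalEnvelopingAlgebra.ι k (f x)) u := by
    intro u
    induction u using Pool.Agent.Lib.MP_fc2f40_al.PBW.U_induction with
    | algebraMap r => exact (Algebra.commutes r _).symm
    | ι y => exact h.comm x y
    | mul a b ha hb => exact ha.mul_right hb
    | add a b ha hb => exact ha.add_right hb
  have h2 : Commute (algebraMap k (UniversalEnvelopingAlgebra k L) (χ x ^ p)) u :=
    Algebra.commutes _ u
  exact ((key u).sub_left h2)

private lemma Xi_add [Fact p.Prime] [CharP k p] {f : L → L} (h : Frz p k f) (χ : Dual k L)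
    (x y : L) : Xi p f χ (x + y) = Xi p f χ x + Xi p f χ y := by
  unfold Xi
  have e : χ (x + y) ^ p = χ x ^ p + χ y ^ p := by
    rw [map_add, add_pow_char]
  rw [h.add x y, e, map_add]
  abel

private lemma Xi_smul {f : L → L} (h : Frz p k f) (χ : Dual k L) (a : k) (x : L) :
    Xi p f χ (a • x) = a ^ p • Xi p f χ x := by
  unfold Xi
  have e : χ (a • x) ^ p = a ^ p * χ x ^ p := by
    rw [map_smul, smul_eq_mul, mul_pow]
  rw [h.smul a x, e, map_mul, ← Algebra.smul_def]
  simp only [smul_sub]

variable {n : ℕ} (b : Basis (Fin n) k L)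

/-- the map to the center -/
private def zeta {f : L → L} (h : Frz p k f) (χ : Dual k L) :
    MvPolynomial (Fin n) k →ₐ[k] Subalgebra.center k (UniversalEnvelopingAlgebra k L) :=
  MvPolynomial.aeval (fun i => ⟨Xi p f χ (b i), Subalgebra.mem_center_iff.mpr
    (fun u => (Xi_comm h χ (b i) u).symm)⟩)

private def hf (p : ℕ) (m : Fin n →₀ ℕ) : Fin n →₀ ℕ :=
  m.mapRange (fun x => x / p) (Nat.zero_div p)

private def md (p : ℕ) (m : Fin n →₀ ℕ) : Fin n →₀ ℕ :=
  m.mapRange (fun x => x % p) (Nat.zero_mod p)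

private lemma hf_md (m : Fin n →₀ ℕ) : p • hf p m + md p m = m := by
  ext i
  simp only [hf, md, Finsupp.add_apply, Finsupp.smul_apply, Finsupp.mapRange_apply, smul_eq_mul]
  exact Nat.div_add_mod _ _

/-- the adapted basis -/
private def Th {f : L → L} (h : Frz p k f) (χ : Dual k L) :
    MvPolynomial (Fin n) k →ₗ[k] UniversalEnvelopingAlgebra k L :=
  (basisMonomials (Fin n) k).constr k (fun m =>
    ((zeta b h χ (mon (hf p m)) : Subalgebra.center k (UniversalEnvelopingAlgebra k L)) :
      UniversalEnvelopingAlgebra k L) * Phi b (mon (md p m)))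

private lemma Th_mon {f : L → L} (h : Frz p k f) (χ : Dual k L) (m : Fin n →₀ ℕ) :
    Th b h χ (mon m) =
    ((zeta b h χ (mon (hf p m)) : Subalgebra.center k (UniversalEnvelopingAlgebra k L)) :
      UniversalEnvelopingAlgebra k L) * Phi b (mon (md p m)) := by
  have h1 := (basisMonomials (Fin n) k).constr_basis k (fun m : Fin n →₀ ℕ =>
    ((zeta b h χ (mon (hf p m)) : Subalgebra.center k (UniversalEnvelopingAlgebra k L)) :
      UniversalEnvelopingAlgebra k L) * Phi b (mon (md p m))) m
  rw [coe_basisMonomials] at h1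
  exact h1

private lemma lin_ext {V : Type} [AddCommGroup V] [Module k V]
    (F G : MvPolynomial (Fin n) k →ₗ[k] V) (h : ∀ m, F (mon m) = G (mon m)) : F = G := by
  apply (basisMonomials (Fin n) k).ext
  intro m
  rw [coe_basisMonomials]
  exact h m

private lemma zeta_single {f : L → L} (h : Frz p k f) (χ : Dual k L) (i : Fin n) (c : Fin n →₀ ℕ) :
    ((zeta b h χ (mon (single i 1 + c)) : Subalgebra.center k (UniversalEnvelopingAlgebra k L)) :
      UniversalEnvelopingAlgebra k L) = Xi p f χ (b i) *
    ((zeta b h χ (mon c) : Subalgebra.center k (UniversalEnvelopingAlgebra k L)) :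
      UniversalEnvelopingAlgebra k L) := by
  rw [← X_mul_mon, map_mul]
  have : zeta b h χ (X i) = ⟨Xi p f χ (b i), Subalgebra.mem_center_iff.mpr
    (fun u => (Xi_comm h χ (b i) u).symm)⟩ := by
    unfold zeta
    rw [aeval_X]
  rw [this]
  rfl

private lemma zeta_zero {f : L → L} (h : Frz p k f) (χ : Dual k L) :
    ((zeta b h χ (mon 0) : Subalgebra.center k (UniversalEnvelopingAlgebra k L)) :
      UniversalEnvelopingAlgebra k L) = 1 := by
  rw [mon_zero, map_one]
  rfl

private lemma Th_X_pow [hp0 : Fact p.Prime] {f : L → L} (h : Frz p k f) (χ : Dual k L)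
    (i : Fin n) (q : MvPolynomial (Fin n) k) :
    Th b h χ (mon (single i p) * q) = Xi p f χ (b i) * Th b h χ q := by
  have hpp : 0 < p := hp0.out.pos
  have : (Th b h χ).comp (LinearMap.mulLeft k (mon (single i p) : MvPolynomial (Fin n) k)) =
      (LinearMap.mulLeft k (Xi p f χ (b i))).comp (Th b h χ) := by
    apply lin_ext
    intro m
    simp only [LinearMap.comp_apply, LinearMap.mulLeft_apply]
    have e1 : (mon (single i p) * mon m : MvPolynomial (Fin n) k) = mon (single i p + m) := by
      simp [monomial_mul]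
    have e2 : hf p (single i p + m) = single i 1 + hf p m := by
      ext j
      simp only [hf, Finsupp.add_apply, Finsupp.mapRange_apply, Finsupp.single_apply]
      split_ifs
      · rw [Nat.add_comm p, Nat.add_div_right _ hpp, Nat.add_comm]
      · simp
    have e3 : md p (single i p + m) = md p m := by
      ext j
      simp only [md, Finsupp.add_apply, Finsupp.mapRange_apply, Finsupp.single_apply]
      split_ifs
      · rw [Nat.add_mod_left]
      · simp
    rw [e1, Th_mon, e2, e3, zeta_single, Th_mon, mul_assoc]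
  have h2 := congrArg (fun G => G q) this
  simpa using h2

private lemma AL_mem (x : L) (d : ℕ) (p : MvPolynomial (Fin n) k) (hp : p ∈ W k (Fin n) (d + 1)) :
    AL b x p ∈ W k (Fin n) (d + 1 + 1) := by
  have h1 : ∀ i, A b i p ∈ W k (Fin n) (d + 1 + 1) := by
    intro i
    have e1 := A_sub_mem b d i p hp
    have e2 := X_mul_mem_W i hp
    have e3 := Submodule.add_mem _ (W_mono (Nat.le_succ _) e1) e2
    rwa [sub_add_cancel] at e3
  rw [AL, Basis.constr_apply, Finsupp.sum, LinearMap.sum_apply]
  refine Submodule.sum_mem _ (fun j _ => ?_)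
  rw [LinearMap.smul_apply]
  exact Submodule.smul_mem _ _ (h1 j)

private lemma mon_mul_mem_W (c : Fin n →₀ ℕ) (d : ℕ) (q : MvPolynomial (Fin n) k)
    (hq : q ∈ W k (Fin n) d) : mon c * q ∈ W k (Fin n) (d + c.degree) := by
  have : W k (Fin n) d ≤ (W k (Fin n) (d + c.degree)).comap
      (LinearMap.mulLeft k (mon c : MvPolynomial (Fin n) k)) := by
    rw [W, Submodule.span_le]
    rintro _ ⟨m, hm, rfl⟩
    simp only [SetLike.mem_coe, Submodule.mem_comap, LinearMap.mulLeft_apply]
    have hm' : m.degree < d := hm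
    have e : (mon c * monomial m 1 : MvPolynomial (Fin n) k) = mon (c + m) := by
      simp [monomial_mul]
    rw [e]
    apply mon_mem_W
    rw [map_add]
    omega
  exact this hq

private lemma A_pow (i : Fin n) (r d : ℕ) (q : MvPolynomial (Fin n) k)
    (hq : q ∈ W k (Fin n) (d + 1)) :
    (A b i ^ r) q - mon (single i r) * q ∈ W k (Fin n) (d + r) := by
  induction r with
  | zero =>
    rw [pow_zero, Module.End.one_apply, single_zero, mon_zero, one_mul, sub_self]
    exact Submodule.zero_mem _
  | succ r ih =>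
    have h2 : mon (single i r) * q ∈ W k (Fin n) (d + r + 1) := by
      have := mon_mul_mem_W (single i r) (d + 1) q hq
      rw [degree_single] at this
      exact W_mono (by omega) this
    have h3 : (A b i ^ r) q ∈ W k (Fin n) (d + r + 1) := by
      have := Submodule.add_mem _ (W_mono (Nat.le_succ _) ih) h2
      rwa [sub_add_cancel] at this
    have h4 := A_sub_mem b (d + r) i _ h3
    have h5 := X_mul_mem_W i ih
    have h6 := Submodule.add_mem _ h4 h5
    have e : (mon (single i (r + 1)) : MvPolynomial (Fin n) k) = X i * mon (single i r) := by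
      rw [X_mul_mon, ← single_add, Nat.add_comm]
    have e2 : (A b i ^ (r + 1)) q - mon (single i (r + 1)) * q =
        A b i ((A b i ^ r) q) - X i * (A b i ^ r) q +
          X i * ((A b i ^ r) q - mon (single i r) * q) := by
      rw [pow_succ', Module.End.mul_apply, e]
      ring
    rw [e2]
    exact W_mono (by omega) h6

private lemma rhoU_Xi [hp0 : Fact p.Prime] (f : L → L) (χ : Dual k L) (i : Fin n) (d : ℕ)
    (q : MvPolynomial (Fin n) k) (hq : q ∈ W k (Fin n) (d + 1)) :
    rhoU b (Xi p f χ (b i)) q - mon (single i p) * q ∈ W k (Fin n) (d + p) := by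
  have hp2 : 2 ≤ p := hp0.out.two_le
  have e : rhoU b (Xi p f χ (b i)) q = (A b i ^ p) q - AL b (f (b i)) q - (χ (b i) ^ p) • q := by
    have e0 : rhoU b (UniversalEnvelopingAlgebra.ι k (b i)) = A b i :=
      LinearMap.ext fun w => by rw [rhoU_ι, AL_basis]
    unfold Xi
    rw [map_sub, map_sub, LinearMap.sub_apply, LinearMap.sub_apply, map_pow, e0, rhoU_ι,
      AlgHom.commutes, Module.algebraMap_end_apply]
  rw [e]
  have h1 := A_pow b i p d q hq
  have h6 := W_mono (show d + 1 + 1 ≤ d + p by omega) (AL_mem b (f (b i)) d q hq)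
  have h7 := Submodule.smul_mem _ (χ (b i) ^ p) (W_mono (show d + 1 ≤ d + p by omega) hq)
  have h8 : (A b i ^ p) q - AL b (f (b i)) q - (χ (b i) ^ p) • q - mon (single i p) * q =
      ((A b i ^ p) q - mon (single i p) * q) - AL b (f (b i)) q - (χ (b i) ^ p) • q := by ring
  rw [h8]
  exact Submodule.sub_mem _ (Submodule.sub_mem _ h1 h6) h7

private lemma exists_single (c : Fin n →₀ ℕ) (hc : c ≠ 0) : ∃ i c', c = single i 1 + c' := by
  obtain ⟨i, hi⟩ : ∃ i, c i ≠ 0 := by
    by_contra hcon
    push Not at hcon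
    exact hc (Finsupp.ext hcon)
  refine ⟨i, c - single i 1, ?_⟩
  rw [add_tsub_cancel_of_le]
  rw [Finsupp.single_le_iff]
  omega

private lemma rhoU_zeta [hp0 : Fact p.Prime] {f : L → L} (h : Frz p k f) (χ : Dual k L)
    (N : ℕ) : ∀ (c : Fin n →₀ ℕ), c.degree = N → ∀ (d : ℕ)
    (q : MvPolynomial (Fin n) k), q ∈ W k (Fin n) (d + 1) →
    rhoU b ((zeta b h χ (mon c) : Subalgebra.center k (UniversalEnvelopingAlgebra k L)) :
      UniversalEnvelopingAlgebra k L) q - mon (p • c) * q ∈ W k (Fin n) (d + p * N) := by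
  induction N with
  | zero =>
    intro c hc d q hq
    have hc0 : c = 0 := (Finsupp.degree_eq_zero_iff c).mp hc
    subst hc0
    rw [zeta_zero, map_one, Module.End.one_apply, smul_zero, mon_zero, one_mul, sub_self]
    exact Submodule.zero_mem _
  | succ N ih =>
    intro c hc d q0 hq0
    obtain ⟨i, c', rfl⟩ := exists_single c (by
      rintro rfl
      simp at hc)
    have hc' : c'.degree = N := by
      rw [map_add, degree_single] at hc
      omega
    have h1 := ih c' hc' d q0 hq0
    rw [zeta_single, map_mul, Module.End.mul_apply]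
    set q := rhoU b ((zeta b h χ (mon c') : Subalgebra.center k (UniversalEnvelopingAlgebra k L)) :
      UniversalEnvelopingAlgebra k L) q0 with hq
    have hdc : (p • c').degree = p * N := by
      rw [map_nsmul, hc', smul_eq_mul]
    have h2 : mon (p • c') * q0 ∈ W k (Fin n) (d + p * N + 1) := by
      have := mon_mul_mem_W (p • c') (d + 1) q0 hq0
      rw [hdc] at this
      exact W_mono (by omega) this
    have h3 : q ∈ W k (Fin n) (d + p * N + 1) := by
      have := Submodule.add_mem _ (W_mono (Nat.le_succ _) h1) h2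
      rwa [sub_add_cancel] at this
    have h4 := rhoU_Xi (p := p) b f χ i (d + p * N) q h3
    have h5 := mon_mul_mem_W (single i p) _ _ h1
    rw [degree_single] at h5
    have h6 := Submodule.add_mem _ h4 h5
    have e : (mon (p • (single i 1 + c')) : MvPolynomial (Fin n) k) =
        mon (single i p) * mon (p • c') := by
      rw [smul_add, Finsupp.smul_single, smul_eq_mul, mul_one]
      simp [monomial_mul]
    have e2 : rhoU b (Xi p f χ (b i)) q - mon (p • (single i 1 + c')) * q0 =
        rhoU b (Xi p f χ (b i)) q - mon (single i p) * q +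
          mon (single i p) * (q - mon (p • c') * q0) := by
      rw [e]; ring
    rw [e2]
    exact W_mono (by rw [mul_add]; omega) h6

private lemma Psi_Th_mon [hp0 : Fact p.Prime] {f : L → L} (h : Frz p k f) (χ : Dual k L)
    (m : Fin n →₀ ℕ) : Psi b (Th b h χ (mon m)) - mon m ∈ W k (Fin n) m.degree := by
  rw [Th_mon, Psi_apply, map_mul, Module.End.mul_apply]
  have h1 := rhoU_Phi_mon b (md p m) 0 1 (by rw [← mon_zero]; exact mon_mem_W (by simp))
  rw [mul_one, add_zero] at h1
  set q := rhoU b (Phi b (mon (md p m))) 1 with hq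
  have h2 : q ∈ W k (Fin n) ((md p m).degree + 1) := by
    have := Submodule.add_mem _ (W_mono (Nat.le_succ _) h1)
      (mon_mem_W (R := k) (Nat.lt_succ_self (md p m).degree))
    rwa [sub_add_cancel] at this
  have h3 := rhoU_zeta b h χ _ (hf p m) rfl _ q h2
  have hdc : (p • hf p m).degree = p * (hf p m).degree := by
    rw [map_nsmul, smul_eq_mul]
  have h4 := mon_mul_mem_W (p • hf p m) _ _ h1
  rw [hdc] at h4
  have h5 := Submodule.add_mem _ h3 h4
  have e : (mon m : MvPolynomial (Fin n) k) = mon (p • hf p m) * mon (md p m) := by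
    conv_lhs => rw [← hf_md (p := p) m]
    simp [monomial_mul]
  have hdeg : m.degree = p * (hf p m).degree + (md p m).degree := by
    conv_lhs => rw [← hf_md (p := p) m]
    rw [map_add, hdc]
  rw [hdeg, e]
  refine W_mono (by omega) (?_ : _ ∈ W k (Fin n) ((md p m).degree + p * (hf p m).degree))
  have e2 : ∀ u v w z : MvPolynomial (Fin n) k, u - v * z = (u - v * w) + v * (w - z) := by
    intros; ring
  rw [e2 _ _ q]
  exact h5

private lemma Psi_Th [hp0 : Fact p.Prime] {f : L → L} (h : Frz p k f) (χ : Dual k L) (d : ℕ)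
    (q : MvPolynomial (Fin n) k) (hq : q ∈ W k (Fin n) (d + 1)) :
    Psi b (Th b h χ q) - q ∈ W k (Fin n) d := by
  have : W k (Fin n) (d + 1) ≤ (W k (Fin n) d).comap
      ((Psi b).comp (Th b h χ) - LinearMap.id) := by
    conv_lhs => rw [W]
    rw [Submodule.span_le]
    rintro _ ⟨m, hm, rfl⟩
    have hm' : m.degree < d + 1 := hm
    exact W_mono (by omega) (Psi_Th_mon b h χ m)
  exact this hq

private lemma W_zero (p : MvPolynomial (Fin n) k) (hp : p ∈ W k (Fin n) 0) : p = 0 := by
  have h0 : W k (Fin n) 0 = ⊥ := by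
    rw [W]
    simp
  rw [h0] at hp
  exact hp

private lemma Th_inj [hp0 : Fact p.Prime] {f : L → L} (h : Frz p k f) (χ : Dual k L) :
    Function.Injective (Th b h χ) := by
  rw [injective_iff_map_eq_zero]
  intro q hq
  have key : ∀ d, q ∈ W k (Fin n) d → q = 0 := by
    intro d
    induction d with
    | zero => exact W_zero q
    | succ d ih =>
      intro hd
      apply ih
      have := Psi_Th b h χ d q hd
      rw [hq, map_zero, zero_sub] at this
      have h2 := Submodule.neg_mem _ this
      rwa [neg_neg] at h2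
  obtain ⟨d, hd⟩ := exists_W q
  exact key _ hd

private lemma Th_surj [hp0 : Fact p.Prime] {f : L → L} (h : Frz p k f) (χ : Dual k L) :
    Function.Surjective (Th b h χ) := by
  have key : ∀ d, ∀ q ∈ W k (Fin n) d, ∃ q', Psi b (Th b h χ q') = q := by
    intro d
    induction d with
    | zero =>
      intro q hq
      refine ⟨0, ?_⟩
      rw [W_zero q hq, map_zero, map_zero]
    | succ d ih =>
      intro q hq
      obtain ⟨q', hq'⟩ := ih _ (Psi_Th b h χ d q hq)
      refine ⟨q - q', ?_⟩
      rw [map_sub, map_sub, hq']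
      abel
  intro u
  obtain ⟨d, hd⟩ := exists_W (Psi b u)
  obtain ⟨q, hq⟩ := key _ _ hd
  refine ⟨q, ?_⟩
  have := congrArg (Phi b) hq
  rwa [Phi_Psi, Phi_Psi] at this

/-- the ideal -/
private def JJ (p : ℕ) (f : L → L) (χ : Dual k L) :
    Submodule (UniversalEnvelopingAlgebra k L) (UniversalEnvelopingAlgebra k L) :=
  Submodule.span _ (Set.range (fun i => Xi p f χ (b i)))

private lemma mem_JJ [Fact p.Prime] [CharP k p] {f : L → L} (h : Frz p k f) (χ : Dual k L) (x : L) :
    Xi p f χ x ∈ JJ b p f χ := by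
  have h0 : Xi p f χ (0 : L) = 0 := by
    have := Xi_smul h χ 0 (0 : L)
    rw [zero_smul, zero_pow (Fact.out : p.Prime).ne_zero, zero_smul] at this
    exact this
  rw [← b.sum_repr x]
  induction (Finset.univ : Finset (Fin n)) using Finset.induction with
  | empty => rw [Finset.sum_empty, h0]; exact Submodule.zero_mem _
  | insert i s hi ih =>
    rw [Finset.sum_insert hi, Xi_add h, Xi_smul h]
    refine Submodule.add_mem _ ?_ ih
    rw [Algebra.smul_def]
    exact Submodule.smul_mem _ (algebraMap k (UniversalEnvelopingAlgebra k L) _)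
      (Submodule.subset_span ⟨i, rfl⟩)

private lemma JJ_repr [hp0 : Fact p.Prime] {f : L → L} (h : Frz p k f) (χ : Dual k L)
    (u : UniversalEnvelopingAlgebra k L) (hu : u ∈ JJ b p f χ) :
    ∃ q : Fin n → MvPolynomial (Fin n) k, u = Th b h χ (∑ i, mon (single i p) * q i) := by
  rw [JJ, Submodule.mem_span_range_iff_exists_fun] at hu
  obtain ⟨c, hc⟩ := hu
  choose q hq using fun i => Th_surj b h χ (c i)
  refine ⟨q, ?_⟩
  rw [map_sum, ← hc]
  refine Finset.sum_congr rfl (fun i _ => ?_)
  rw [Th_X_pow, hq, smul_eq_mul, Xi_comm h]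

/-- exponent vectors -/
private def ex (ε : Fin n → Fin p) : Fin n →₀ ℕ := Finsupp.equivFunOnFinite.symm (fun i => (ε i : ℕ))

private lemma ex_inj : Function.Injective (ex (n := n) (p := p)) := by
  intro ε ε' h
  have h1 := Finsupp.equivFunOnFinite.symm.injective h
  funext i
  exact Fin.ext (congrFun h1 i)

private lemma coeff_sq (ε : Fin n → Fin p) (i : Fin n) (q : MvPolynomial (Fin n) k) :
    coeff (ex ε) (mon (single i p) * q) = 0 := by
  classical
  rw [mon, coeff_monomial_mul', if_neg]
  intro h1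
  have h2 := h1 i
  have := (ε i).isLt
  rw [Finsupp.single_eq_same] at h2
  simp only [ex, Finsupp.equivFunOnFinite_symm_apply_apply] at h2
  omega

private lemma Th_ex {f : L → L} (h : Frz p k f) (χ : Dual k L) (ε : Fin n → Fin p) :
    Th b h χ (mon (ex ε)) = Phi b (mon (ex ε)) := by
  have h1 : hf p (ex ε) = 0 := by
    ext i
    have := (ε i).isLt
    simp only [hf, ex, Finsupp.mapRange_apply, Finsupp.equivFunOnFinite_symm_apply_apply,
      Finsupp.coe_zero, Pi.zero_apply]
    exact Nat.div_eq_of_lt this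
  have h2 : md p (ex ε) = ex ε := by
    ext i
    have := (ε i).isLt
    simp only [md, ex, Finsupp.mapRange_apply, Finsupp.equivFunOnFinite_symm_apply_apply]
    exact Nat.mod_eq_of_lt this
  rw [Th_mon, h1, h2, zeta_zero, one_mul]

/-- the map from the reduced enveloping algebra to the endomorphisms of `U / J` -/
private def liftQ [Fact p.Prime] [CharP k p] {f : L → L} (h : Frz p k f) (χ : Dual k L) :
    UU p f χ →ₐ[k] Module.End k (UniversalEnvelopingAlgebra k L ⧸ JJ b p f χ) :=
  RingQuot.liftAlgHom k ⟨Algebra.lsmul k k (UniversalEnvelopingAlgebra k L ⧸ JJ b p f χ), by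
    rintro _ _ ⟨x, rfl, rfl⟩
    rw [← sub_eq_zero, ← map_sub]
    apply LinearMap.ext
    intro w
    obtain ⟨v, rfl⟩ := Submodule.Quotient.mk_surjective _ w
    change Submodule.Quotient.mk (Xi p f χ x * v) = (0 : UniversalEnvelopingAlgebra k L ⧸ JJ b p f χ)
    rw [Submodule.Quotient.mk_eq_zero, Xi_comm h]
    exact Submodule.smul_mem _ _ (mem_JJ b h χ x)⟩

private theorem main_aux [Fact p.Prime] [CharP k p] {f : L → L} (h : Frz p k f) (χ : Dual k L) :
    LinearIndependent k (fun ε : Fin n → Fin p =>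
      RingQuot.mkAlgHom k (Urel p f χ) (Phi b (mon (ex ε)))) := by
  set g : UU p f χ →ₗ[k] (UniversalEnvelopingAlgebra k L ⧸ JJ b p f χ) :=
    (LinearMap.applyₗ (Submodule.Quotient.mk (1 : UniversalEnvelopingAlgebra k L) :
      UniversalEnvelopingAlgebra k L ⧸ JJ b p f χ)).comp (liftQ b h χ).toLinearMap with hg
  have hgu : ∀ u, g (RingQuot.mkAlgHom k (Urel p f χ) u) = Submodule.Quotient.mk u := by
    intro u
    have e : liftQ b h χ (RingQuot.mkAlgHom k (Urel p f χ) u) =
        Algebra.lsmul k k (UniversalEnvelopingAlgebra k L ⧸ JJ b p f χ) u := by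
      unfold liftQ
      rw [RingQuot.liftAlgHom_mkAlgHom_apply]
    change liftQ b h χ (RingQuot.mkAlgHom k (Urel p f χ) u) _ = _
    rw [e]
    change Submodule.Quotient.mk (u * 1) = (Submodule.Quotient.mk u : UniversalEnvelopingAlgebra k L ⧸ JJ b p f χ)
    rw [mul_one]
  apply LinearIndependent.of_comp g
  rw [Fintype.linearIndependent_iff]
  intro c hc ε0
  have h1 : (Submodule.Quotient.mk (∑ ε, c ε • Phi b (mon (ex ε))) :
      UniversalEnvelopingAlgebra k L ⧸ JJ b p f χ) = 0 := by
    rw [← hgu, map_sum, map_sum, ← hc]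
    refine Finset.sum_congr rfl (fun ε _ => ?_)
    rw [map_smul, map_smul]
    rfl
  rw [Submodule.Quotient.mk_eq_zero] at h1
  obtain ⟨q, hq⟩ := JJ_repr b h χ _ h1
  have h2 : ∑ ε, c ε • Phi b (mon (ex ε)) = Th b h χ (∑ ε, c ε • mon (ex ε)) := by
    rw [map_sum]
    refine Finset.sum_congr rfl (fun ε _ => ?_)
    rw [map_smul, Th_ex]
  rw [h2] at hq
  have h3 := congrArg (coeff (ex ε0)) (Th_inj b h χ hq)
  rw [coeff_sum, coeff_sum] at h3
  simp only [coeff_sq, Finset.sum_const_zero, coeff_smul, smul_eq_mul] at h3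
  rw [← h3]
  rw [Finset.sum_eq_single ε0]
  · simp
  · intro ε _ hne
    rw [mon, coeff_monomial, if_neg, mul_zero]
    intro he
    exact hne (ex_inj he)
  · intro hn
    exact absurd (Finset.mem_univ _) hn

end

variable {k L : Type} [Field k] {p : ℕ} [Fact p.Prime] [CharP k p] [LieRing L] [LieAlgebra k L]
  [FiniteDimensional k L]

theorem exists_linearIndependent_UU {f : L → L} (h : Frz p k f) (χ : Dual k L) :
    ∃ v : (Fin (finrank k L) → Fin p) → UU p f χ, LinearIndependent k v :=
  ⟨_, main_aux (finBasis k L) h χ⟩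

end Pool.Agent.SkG
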