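import Pool.Agent.Lib.SkG.Basic
import Pool.Agent.Lib.SkG.Pbw
import Pool.Agent.Lib.SkG.BC

/-!
# Module Bridge: simplicity of `u(L, χ)` and irreducible representations

`fin_UU`: `fin_adjoin` with `rep_uι`, `adjoin_uι`; the lower bound from `exists_linearIndependent_UU`.  So `finrank (UU p f χ) = p^n` and it is nontrivial.
`good_of_simple`: `U = UU p f χ` is simple, finite dimensional and nonzero; take a simple left `U`-module `V` (a minimal left ideal, or a simple quotient of `U` as a left module; a `Type`),
as a `k`-space; `ρ x = (v ↦ uι x • v)`.  `U → End k V` is injective (its kernel is a proper two-sided ideal), so `p^n = finrank U ≤ (finrank V)^2`.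
`Irr ρ`: a subspace stable under all `uι x` is stable under `U` (`adjoin_uι`), i.e. a `U`-submodule.
`simple_of_big`: take a simple left `U`-module `V`, `ρ` as above; `Big` gives `p^n ≤ (finrank V)^2`; `burnside` shows `U → End k V` is surjective, and
`finrank U = p^n ≤ (finrank V)^2 = finrank (End k V)`, so it is bijective: `U ≃ End k V ≃ Matrix (Fin d) (Fin d) k`, `d ≥ 1`, simple.
-/

namespace Pool.Agent.SkG

open Module Pool.Agent.SkS

variable {k L : Type} [Field k] {p : ℕ} [Fact p.Prime] [CharP k p] [IsAlgClosed k] [LieRing L]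
  [LieAlgebra k L] [FiniteDimensional k L]

omit [IsAlgClosed k] in
/-- a simple module over a finite dimensional algebra generated by the image of a `Rep` gives an
irreducible representation -/
private lemma exists_simple_mod {U : Type} [Ring U] [Algebra k U] [FiniteDimensional k U]
    [Nontrivial U] {f : L → L} {χ : Dual k L} (θ : L →ₗ[k] U) (hθ : Rep p f χ θ)
    (htop : Algebra.adjoin k (Set.range θ) = ⊤) :
    ∃ (V : Type) (_ : AddCommGroup V) (_ : Module k V) (_ : FiniteDimensional k V)
      (Φ : U →ₐ[k] End k V), Rep p f χ (Φ.toLinearMap ∘ₗ θ) ∧ Irr (Φ.toLinearMap ∘ₗ θ) := by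
  obtain ⟨I, hI⟩ := Ideal.exists_maximal U
  have hfin : FiniteDimensional k (U ⧸ (I : Submodule U U)) :=
    Module.Finite.of_surjective ((Submodule.mkQ (I : Submodule U U)).restrictScalars k)
      (Submodule.mkQ_surjective _)
  refine ⟨U ⧸ (I : Submodule U U), inferInstance, inferInstance, hfin,
    Algebra.lsmul k k (U ⧸ (I : Submodule U U)), ?_, ?_, ?_⟩
  · constructor
    · intro x y
      rw [LinearMap.comp_apply, LinearMap.comp_apply, LinearMap.comp_apply, hθ.lie]
      simp only [AlgHom.toLinearMap_apply]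
      rw [map_sub, map_mul, map_mul]
    · intro x
      rw [LinearMap.comp_apply, LinearMap.comp_apply]
      simp only [AlgHom.toLinearMap_apply]
      rw [← map_pow, hθ.pow, map_add, AlgHom.commutes]
  · exact Submodule.Quotient.nontrivial_iff.2 hI.ne_top
  · intro W hW
    have hall : ∀ u : U, ∀ w ∈ W, u • w ∈ W := by
      intro u
      have hu : u ∈ Algebra.adjoin k (Set.range θ) := by rw [htop]; trivial
      induction hu using Algebra.adjoin_induction with
      | mem x hx =>
        obtain ⟨y, rfl⟩ := hx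
        exact fun w hw => hW y w hw
      | algebraMap r =>
        intro w hw
        rw [algebraMap_smul]
        exact W.smul_mem r hw
      | add x y _ _ hx hy =>
        intro w hw
        rw [add_smul]
        exact W.add_mem (hx w hw) (hy w hw)
      | mul x y _ _ hx hy =>
        intro w hw
        rw [mul_smul]
        exact hx _ (hy w hw)
    let W' : Submodule U (U ⧸ (I : Submodule U U)) :=
      { carrier := W
        add_mem' := fun ha hb => W.add_mem ha hb
        zero_mem' := W.zero_mem
        smul_mem' := fun u w hw => hall u w hw }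
    have hsim : IsSimpleModule U (U ⧸ (I : Submodule U U)) :=
      isSimpleModule_iff_isCoatom.2 (Ideal.isMaximal_def.1 hI)
    rcases eq_bot_or_eq_top W' with h | h
    · left
      rw [Submodule.eq_bot_iff]
      intro w hw
      have hw' : w ∈ W' := hw
      rw [h] at hw'
      exact (Submodule.mem_bot U).1 hw'
    · right
      rw [Submodule.eq_top_iff']
      intro w
      have hw' : w ∈ W' := by rw [h]; trivial
      exact hw'

theorem fin_UU {f : L → L} (h : Frz p k f) (χ : Dual k L) :
    FiniteDimensional k (UU p f χ) ∧ finrank k (UU p f χ) = p ^ finrank k L := by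
  obtain ⟨h1, h2⟩ := fin_adjoin (uι p f χ) (rep_uι f χ) (adjoin_uι f χ)
  refine ⟨h1, le_antisymm h2 ?_⟩
  obtain ⟨v, hv⟩ := exists_linearIndependent_UU h χ
  have h3 := hv.fintype_card_le_finrank
  rwa [Fintype.card_fun, Fintype.card_fin, Fintype.card_fin] at h3

theorem good_of_simple {f : L → L} (h : Frz p k f) (χ : Dual k L) (hs : IsSimpleRing (UU p f χ)) :
    ∃ (V : Type) (_ : AddCommGroup V) (_ : Module k V) (_ : FiniteDimensional k V)
      (ρ : L →ₗ[k] End k V), Rep p f χ ρ ∧ Irr ρ ∧ p ^ finrank k L ≤ finrank k V ^ 2 := by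
  obtain ⟨h1, h2⟩ := fin_UU h χ
  obtain ⟨V, i1, i2, i3, Φ, hR, hI⟩ :=
    exists_simple_mod (uι p f χ) (rep_uι f χ) (adjoin_uι f χ)
  refine ⟨V, i1, i2, i3, Φ.toLinearMap ∘ₗ uι p f χ, hR, hI, ?_⟩
  have hn : Nontrivial V := hI.1
  have hinj : Function.Injective Φ.toLinearMap := Φ.toRingHom.injective
  have h3 := LinearMap.finrank_le_finrank_of_injective hinj
  rw [h2, finrank_linearMap] at h3
  rw [sq]
  exact h3

theorem simple_of_big {f : L → L} (h : Frz p k f) (χ : Dual k L) (hb : Big p f χ) :
    IsSimpleRing (UU p f χ) := by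
  obtain ⟨h1, h2⟩ := fin_UU h χ
  have hn : Nontrivial (UU p f χ) := by
    apply Module.nontrivial_of_finrank_pos (R := k)
    rw [h2]
    exact pow_pos (Fact.out : p.Prime).pos _
  obtain ⟨V, i1, i2, i3, Φ, hR, hI⟩ :=
    exists_simple_mod (uι p f χ) (rep_uι f χ) (adjoin_uι f χ)
  have hV : Nontrivial V := hI.1
  have h3 := hb V (Φ.toLinearMap ∘ₗ uι p f χ) hR hI
  have h4 := burnside (Φ.toLinearMap ∘ₗ uι p f χ) hI
  have hsurj : Function.Surjective Φ := by
    rw [← AlgHom.range_eq_top, eq_top_iff, ← h4, Algebra.adjoin_le_iff]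
    rintro _ ⟨x, rfl⟩
    exact ⟨uι p f χ x, rfl⟩
  have hsurj' : Function.Surjective Φ.toLinearMap := hsurj
  have h5 : finrank k (End k V) ≤ finrank k (UU p f χ) :=
    LinearMap.finrank_le_finrank_of_surjective hsurj'
  have h6 : finrank k (UU p f χ) = finrank k (End k V) := by
    refine le_antisymm ?_ h5
    rw [h2, finrank_linearMap, ← sq]
    exact h3
  have hinj : Function.Injective Φ.toLinearMap :=
    (LinearMap.injective_iff_surjective_of_finrank_eq_finrank h6).2 hsurj'
  let e : UU p f χ ≃ₐ[k] End k V := AlgEquiv.ofBijective Φ ⟨hinj, hsurj⟩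
  let b := Module.finBasis k V
  let e' : UU p f χ ≃ₐ[k] Matrix (Fin (finrank k V)) (Fin (finrank k V)) k :=
    e.trans (LinearMap.toMatrixAlgEquiv b)
  have hpos : 0 < finrank k V := finrank_pos
  have hne : Nonempty (Fin (finrank k V)) := ⟨⟨0, hpos⟩⟩
  exact ⟨(e'.toRingEquiv.mapTwoSidedIdeal).isSimpleOrder⟩

end Pool.Agent.SkG
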