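import Pool.Agent.Lib.SkG.Defs

/-!
# Module Dec: the subspace `R` of the Heisenberg configuration
-/

namespace Pool.Agent.SkG

open Module Pool.Agent.SkS

variable {k L : Type} [Field k] [LieRing L] [LieAlgebra k L] [FiniteDimensional k L]

theorem exists_dual {f : L → L} {χ : Dual k L} {z : L} {H : LieIdeal k L} (hc : Cfg f χ z H)
    (ξ : Dual k L) (hξ : ξ z = 0) : ∃ h0 ∈ H, ∀ h ∈ H, χ ⁅h0, h⁆ = ξ h := by
  have hzH := hc.z_mem
  -- the map `H → Dual H`
  let Φ : H →ₗ[k] Dual k H := LinearMap.mk₂ k (fun a b => χ ⁅(a : L), (b : L)⁆)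
    (by intro a a' b; simp) (by intro c a b; simp) (by intro a b b'; simp)
    (by intro c a b; simp)
  have hΦ : ∀ a b : H, Φ a b = χ ⁅(a : L), (b : L)⁆ := fun a b => rfl
  have hmul : ∀ a b : L, (∃ c : k, ⁅a, b⁆ = c • z) → ⁅a, b⁆ = χ ⁅a, b⁆ • z := by
    rintro a b ⟨c, hcc⟩
    rw [hcc, map_smul, hc.χz, smul_eq_mul, mul_one]
  have hker : LinearMap.ker Φ = Submodule.span k {(⟨z, hzH⟩ : H)} := by
    apply le_antisymm
    · intro a ha
      rw [LinearMap.mem_ker] at ha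
      have h1 : ∀ h' ∈ H, ⁅(a : L), h'⁆ = 0 := by
        intro h' hh'
        have h2 := congrArg (fun g : Dual k H => g ⟨h', hh'⟩) ha
        have h3 : χ ⁅(a : L), h'⁆ = 0 := h2
        rw [hmul _ _ (hc.H_comm a a.2 h' hh'), h3, zero_smul]
      obtain ⟨c, hcc⟩ := hc.H_nd a a.2 h1
      rw [Submodule.mem_span_singleton]
      exact ⟨c, Subtype.ext hcc.symm⟩
    · rw [Submodule.span_singleton_le_iff_mem, LinearMap.mem_ker]
      ext b
      rw [hΦ]
      have : ⁅z, (b : L)⁆ = 0 := by rw [← lie_skew, hc.H_cent b b.2, neg_zero]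
      rw [this, map_zero]
      rfl
  have hzne : (⟨z, hzH⟩ : H) ≠ 0 := fun h0 => hc.z_ne (congrArg Subtype.val h0)
  let ev : Dual k H →ₗ[k] k := LinearMap.applyₗ (⟨z, hzH⟩ : H)
  have hrange : LinearMap.range Φ ≤ LinearMap.ker ev := by
    rintro _ ⟨a, rfl⟩
    rw [LinearMap.mem_ker]
    change χ ⁅(a : L), z⁆ = 0
    rw [hc.H_cent a a.2, map_zero]
  have hev : LinearMap.range ev = ⊤ := by
    rw [LinearMap.range_eq_top]
    intro c
    obtain ⟨g, hg⟩ : ∃ g : Dual k H, g ⟨z, hzH⟩ = 1 :=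
      ⟨χ.comp (H : Submodule k L).subtype, hc.χz⟩
    refine ⟨c • g, ?_⟩
    change c • g ⟨z, hzH⟩ = c
    rw [hg, smul_eq_mul, mul_one]
  have e1 := LinearMap.finrank_range_add_finrank_ker Φ
  have e2 := LinearMap.finrank_range_add_finrank_ker ev
  rw [hker, finrank_span_singleton hzne] at e1
  rw [hev, finrank_top, finrank_self, Subspace.dual_finrank_eq] at e2
  have heq : LinearMap.range Φ = LinearMap.ker ev := by
    apply Submodule.eq_of_le_of_finrank_le hrange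
    omega
  let ξ' : Dual k H := ξ.comp (H : Submodule k L).subtype
  have hξ' : ξ' ∈ LinearMap.range Φ := by
    rw [heq, LinearMap.mem_ker]
    exact hξ
  obtain ⟨h0, hh0⟩ := hξ'
  refine ⟨h0, h0.2, fun h hh => ?_⟩
  exact congrArg (fun g : Dual k H => g ⟨h, hh⟩) hh0

theorem decomp {f : L → L} {χ : Dual k L} {z : L} {H : LieIdeal k L} (hc : Cfg f χ z H) (x : L)
    (hx : ⁅x, z⁆ = 0) : ∃ h0 ∈ H, InR χ z H (x - h0) := by
  let ξ : Dual k L :=
    { toFun := fun h => χ ⁅x, h⁆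
      map_add' := by intro a b; rw [lie_add, map_add]
      map_smul' := by intro c a; rw [lie_smul, map_smul, RingHom.id_apply] }
  obtain ⟨h0, hh0, h1⟩ := exists_dual hc ξ (by change χ ⁅x, z⁆ = 0; rw [hx, map_zero])
  refine ⟨h0, hh0, ?_, ?_⟩
  · rw [sub_lie, hx, hc.H_cent h0 hh0, sub_zero]
  · intro h hh
    have h2 : χ ⁅h0, h⁆ = χ ⁅x, h⁆ := h1 h hh
    rw [sub_lie, map_sub, h2, sub_self]

theorem inR_lie {f : L → L} {χ : Dual k L} {z : L} {H : LieIdeal k L} (hc : Cfg f χ z H) {x y : L}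
    (hx : InR χ z H x) (hy : InR χ z H y) : InR χ z H ⁅x, y⁆ := by
  have _ := hc.z_ne
  refine ⟨?_, ?_⟩
  · rw [lie_lie, hx.1, hy.1, lie_zero, lie_zero, sub_zero]
  · intro h hh
    rw [lie_lie, map_sub, hx.2 _ (lie_mem_right k L H y h hh),
      hy.2 _ (lie_mem_right k L H x h hh), sub_zero]

omit [FiniteDimensional k L] in
private lemma iter_mem (H : LieIdeal k L) (x : L) (n : ℕ) {h : L} (hh : h ∈ H) :
    (fun w => ⁅x, w⁆)^[n] h ∈ H := by
  induction n with
  | zero => exact hh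
  | succ n ih =>
    rw [Function.iterate_succ_apply']
    exact lie_mem_right k L H x _ ih

theorem inR_f {p : ℕ} [hp : Fact p.Prime] {f : L → L} (hf : Rst p k f) {χ : Dual k L} {z : L}
    {H : LieIdeal k L} (hc : Cfg f χ z H) {x : L} (hx : InR χ z H x) : InR χ z H (f x) := by
  have _ := hc.z_ne
  obtain ⟨q, rfl⟩ : ∃ q, p = q + 1 := ⟨p - 1, by have := hp.out.pos; omega⟩
  refine ⟨?_, ?_⟩
  · rw [hf.ad, Function.iterate_succ_apply]
    simp only [hx.1]
    exact Function.iterate_fixed (lie_zero x) q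
  · intro h hh
    rw [hf.ad, Function.iterate_succ_apply']
    exact hx.2 _ (iter_mem H x q hh)

theorem inR_add {χ : Dual k L} {z : L} {H : LieIdeal k L} {x y : L}
    (hx : InR χ z H x) (hy : InR χ z H y) : InR χ z H (x + y) := by
  refine ⟨?_, ?_⟩
  · rw [add_lie, hx.1, hy.1, add_zero]
  · intro h hh
    rw [add_lie, map_add, hx.2 h hh, hy.2 h hh, add_zero]

theorem inR_smul {χ : Dual k L} {z : L} {H : LieIdeal k L} (a : k) {x : L}
    (hx : InR χ z H x) : InR χ z H (a • x) := by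
  refine ⟨?_, ?_⟩
  · rw [smul_lie, hx.1, smul_zero]
  · intro h hh
    rw [smul_lie, map_smul, hx.2 h hh, smul_zero]

theorem inR_H {f : L → L} {χ : Dual k L} {z : L} {H : LieIdeal k L} (hc : Cfg f χ z H) {x : L}
    (hx : InR χ z H x) (hxH : x ∈ H) : ∃ c : k, x = c • z := by
  apply hc.H_nd x hxH
  intro h hh
  obtain ⟨c, hcc⟩ := hc.H_comm x hxH h hh
  have h1 := hx.2 h hh
  rw [hcc, map_smul, hc.χz, smul_eq_mul, mul_one] at h1
  rw [hcc, h1, zero_smul]

end Pool.Agent.SkG
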