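import Pool.Agent.Lib.SkS.Defs

/-!
# Restricted Lie algebras in characteristic `p`: definitions (general `p` version of `SkS.Defs`)

Independent of `p` and reused from `SkS`: `Irr`, `Nondeg`, `rs`, `fs`, `InR`, `NoTor`, `AbOne`, `RedData`.
-/

namespace Pool.Agent.SkG

open Module Pool.Agent.SkS

section

variable {k L : Type} [Field k] [LieRing L] [LieAlgebra k L]

/-- the formal properties of the p-map that are used -/
structure Rst (p : ℕ) (k : Type) {L : Type} [Field k] [LieRing L] [LieAlgebra k L] (f : L → L) :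
    Prop where
  addc : ∀ x y : L, ⁅x, y⁆ = 0 → f (x + y) = f x + f y
  smul : ∀ (a : k) (x : L), f (a • x) = (a ^ p) • f x
  ad : ∀ x y : L, ⁅f x, y⁆ = (fun w => ⁅x, w⁆)^[p] y

/-- a linear map to an associative algebra satisfying the relations of `u(L, χ)` -/
structure Rep {A : Type} [Ring A] [Algebra k A] (p : ℕ) (f : L → L) (χ : Dual k L)
    (ρ : L →ₗ[k] A) : Prop where
  lie : ∀ x y : L, ρ ⁅x, y⁆ = ρ x * ρ y - ρ y * ρ x
  pow : ∀ x : L, ρ x ^ p = ρ (f x) + algebraMap k A (χ x ^ p)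

/-- every irreducible representation has dimension at least `p^{n/2}` -/
def Big (p : ℕ) (f : L → L) (χ : Dual k L) : Prop :=
  ∀ (V : Type) [AddCommGroup V] [Module k V] [FiniteDimensional k V] (ρ : L →ₗ[k] End k V),
    Rep p f χ ρ → Irr ρ → p ^ finrank k L ≤ finrank k V ^ 2

/-- the relations of the reduced enveloping algebra -/
def Urel (p : ℕ) (f : L → L) (χ : Dual k L) :
    UniversalEnvelopingAlgebra k L → UniversalEnvelopingAlgebra k L → Prop := fun a b =>
  ∃ x : L, a = UniversalEnvelopingAlgebra.ι k x ^ p - UniversalEnvelopingAlgebra.ι k (f x) ∧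
    b = algebraMap k (UniversalEnvelopingAlgebra k L) (χ x ^ p)

/-- the reduced enveloping algebra `u(L, χ)` -/
abbrev UU (p : ℕ) (f : L → L) (χ : Dual k L) : Type := RingQuot (Urel p f χ)

/-- the canonical map `L → u(L, χ)` -/
noncomputable def uι (p : ℕ) (f : L → L) (χ : Dual k L) : L →ₗ[k] UU p f χ where
  toFun x := RingQuot.mkAlgHom k (Urel p f χ) (UniversalEnvelopingAlgebra.ι k x)
  map_add' x y := by
    rw [map_add, map_add]
  map_smul' a x := by
    rw [map_smul, map_smul, RingHom.id_apply]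

/-- the frozen hypotheses on the p-map -/
structure Frz (p : ℕ) (k : Type) {L : Type} [Field k] [LieRing L] [LieAlgebra k L] (f : L → L) :
    Prop where
  add : ∀ x y : L,
        UniversalEnvelopingAlgebra.ι k (x + y) ^ p - UniversalEnvelopingAlgebra.ι k (f (x + y)) =
          (UniversalEnvelopingAlgebra.ι k x ^ p - UniversalEnvelopingAlgebra.ι k (f x)) +
          (UniversalEnvelopingAlgebra.ι k y ^ p - UniversalEnvelopingAlgebra.ι k (f y))
  smul : ∀ (a : k) (x : L),
        UniversalEnvelopingAlgebra.ι k (a • x) ^ p - UniversalEnvelopingAlgebra.ι k (f (a • x)) =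
          a ^ p • (UniversalEnvelopingAlgebra.ι k x ^ p - UniversalEnvelopingAlgebra.ι k (f x))
  comm : ∀ x y : L,
        Commute (UniversalEnvelopingAlgebra.ι k x ^ p - UniversalEnvelopingAlgebra.ι k (f x))
          (UniversalEnvelopingAlgebra.ι k y)

/-- ordered monomials with exponents `< p` -/
def E {A : Type} [Ring A] {p n : ℕ} (x : Fin n → A) (ε : Fin n → Fin p) : A :=
  (List.ofFn (fun i => x i ^ (ε i : ℕ))).prod

/-- `L` has a solvable ideal of codimension at most three -/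
def Sol3 (k L : Type) [Field k] [LieRing L] [LieAlgebra k L] : Prop :=
  ∃ I : LieIdeal k L, LieAlgebra.IsSolvable I ∧ finrank k L ≤ finrank k I + 3

/-- the Heisenberg configuration; `H` is maximal in the sense of `H_max` -/
structure Cfg (f : L → L) (χ : Dual k L) (z : L) (H : LieIdeal k L) : Prop where
  z_ne : z ≠ 0
  χz : χ z = 1
  ex_T : ∃ T : L, ⁅T, z⁆ = z
  fz : f z = 0
  eig : ∀ y : L, ∃ c : k, ⁅y, z⁆ = c • z
  z_mem : z ∈ H
  H_cent : ∀ h ∈ H, ⁅h, z⁆ = 0
  H_comm : ∀ h ∈ H, ∀ h' ∈ H, ∃ c : k, ⁅h, h'⁆ = c • z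
  H_nd : ∀ h ∈ H, (∀ h' ∈ H, ⁅h, h'⁆ = 0) → ∃ c : k, h = c • z
  H_max : ∀ B : LieIdeal k L, (∀ b ∈ B, ⁅b, z⁆ = 0) →
    (∀ b ∈ B, ∀ h ∈ H, ∃ c : k, ⁅b, h⁆ = c • z) →
    (∀ b ∈ B, ∀ b' ∈ B, ∃ c : k, ⁅b, b'⁆ = c • z) → B ≤ H
  f_mem : ∀ h ∈ H, ∃ c : k, f h = c • z

end

end Pool.Agent.SkG
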