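import Pool.Agent.Lib.SkG.Defs

/-!
# Module Even: nondegenerate alternating forms live on even dimensional spaces; consequences

`even_finrank`: induction on the dimension.
`even_of_nondeg`: the form `χ ⁅x, y⁆`.
`odd_H`: `H' = {h ∈ H : χ h = 0}` has codimension one in `H` and carries a nondegenerate alternating form.
-/

set_option linter.unusedSectionVars false

namespace Pool.Agent.SkG

open Module Pool.Agent.SkS

section

variable {k V : Type} [Field k] [AddCommGroup V] [Module k V] [FiniteDimensional k V]

private theorem even_aux (k : Type) [Field k] (n : ℕ) : ∀ (V : Type) [AddCommGroup V] [Module k V]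
    [FiniteDimensional k V] (ω : V →ₗ[k] V →ₗ[k] k), (∀ a : V, ω a a = 0) →
    (∀ a : V, (∀ b : V, ω a b = 0) → a = 0) → finrank k V = n → Even n := by
  induction n using Nat.strong_induction_on with
  | _ n ih =>
    intro V _ _ _ ω halt hnd hn
    rcases Nat.eq_zero_or_pos n with h0 | hpos
    · rw [h0]
      exact Even.zero
    · have hnt : Nontrivial V := by
        apply Module.nontrivial_of_finrank_pos (R := k)
        omega
      obtain ⟨e, he⟩ := exists_ne (0 : V)
      obtain ⟨e', h1⟩ : ∃ e', ω e e' = 1 := by
        obtain ⟨b, hb⟩ : ∃ b, ω e b ≠ 0 := by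
          by_contra hcon
          push Not at hcon
          exact he (hnd e hcon)
        exact ⟨(ω e b)⁻¹ • b, by rw [map_smul, smul_eq_mul, inv_mul_cancel₀ hb]⟩
      have hskew : ∀ a c : V, ω a c = - ω c a := by
        intro a c
        have h2 := halt (a + c)
        simp only [map_add, LinearMap.add_apply] at h2
        rw [halt a, halt c, zero_add, add_zero] at h2
        exact eq_neg_of_add_eq_zero_right h2
      have h2 : ω e' e = -1 := by rw [hskew, h1]
      let φ : V →ₗ[k] k × k := (ω.flip e).prod (ω.flip e')
      have hφ : ∀ v, φ v = (ω v e, ω v e') := fun v => rfl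
      have hsurj : LinearMap.range φ = ⊤ := by
        rw [LinearMap.range_eq_top]
        rintro ⟨x, y⟩
        refine ⟨y • e - x • e', ?_⟩
        rw [hφ]
        rw [map_sub, map_smul, map_smul, LinearMap.sub_apply, LinearMap.smul_apply,
          LinearMap.smul_apply, LinearMap.sub_apply, LinearMap.smul_apply,
          LinearMap.smul_apply, halt, halt, h1, h2]
        simp
      have hrk := LinearMap.finrank_range_add_finrank_ker φ
      rw [hsurj, finrank_top, Module.finrank_prod, Module.finrank_self, hn] at hrk
      let ω' : LinearMap.ker φ →ₗ[k] LinearMap.ker φ →ₗ[k] k :=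
        (ω.comp (LinearMap.ker φ).subtype).compl₂ (LinearMap.ker φ).subtype
      have hω' : ∀ a c : LinearMap.ker φ, ω' a c = ω (a : V) (c : V) := fun a c => rfl
      have hev : Even (n - 2) := by
        refine ih (n - 2) (by omega) (LinearMap.ker φ) ω' ?_ ?_ (by omega)
        · intro a
          rw [hω', halt]
        · intro a ha
          have hae : ω (a : V) e = 0 ∧ ω (a : V) e' = 0 := by
            have h3 := a.2
            rw [LinearMap.mem_ker, hφ, Prod.mk_eq_zero] at h3
            exact h3
          apply Subtype.ext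
          apply hnd
          intro v
          have hmem : v - (ω v e') • e + (ω v e) • e' ∈ LinearMap.ker φ := by
            rw [LinearMap.mem_ker, hφ, Prod.mk_eq_zero]
            constructor
            · simp only [map_add, map_sub, map_smul, LinearMap.add_apply, LinearMap.sub_apply,
                LinearMap.smul_apply, halt, h2]
              simp
            · simp only [map_add, map_sub, map_smul, LinearMap.add_apply, LinearMap.sub_apply,
                LinearMap.smul_apply, halt, h1]
              simp
          have h3 := ha ⟨_, hmem⟩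
          rw [hω'] at h3
          have h4 : v = (v - (ω v e') • e + (ω v e) • e') + (ω v e') • e - (ω v e) • e' := by abel
          have h5 : ω (a : V) ((v - (ω v e') • e + (ω v e) • e') + (ω v e') • e - (ω v e) • e') = 0 := by
            rw [map_sub, map_add, h3, map_smul, map_smul, hae.1, hae.2]
            simp
          rw [← h4] at h5
          exact h5
      have h5 : n = (n - 2) + 2 := by omega
      rw [h5]
      exact hev.add (by decide)

theorem even_finrank (ω : V →ₗ[k] V →ₗ[k] k) (halt : ∀ a : V, ω a a = 0)
    (hnd : ∀ a : V, (∀ b : V, ω a b = 0) → a = 0) : Even (finrank k V) :=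
  even_aux k _ V ω halt hnd rfl

end

variable {k L : Type} [Field k] [LieRing L] [LieAlgebra k L] [FiniteDimensional k L]

/-- the form `χ ⁅x, y⁆` -/
private def bf (χ : Dual k L) : L →ₗ[k] L →ₗ[k] k :=
  LinearMap.mk₂ k (fun x y => χ ⁅x, y⁆) (fun x y z => by rw [add_lie, map_add])
    (fun c x y => by rw [smul_lie, map_smul]) (fun x y z => by rw [lie_add, map_add])
    (fun c x y => by rw [lie_smul, map_smul])

theorem even_of_nondeg {χ : Dual k L} (h : Nondeg χ) : Even (finrank k L) := by
  refine even_finrank (bf χ) (fun a => ?_) (fun a ha => h a ha)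
  show χ ⁅a, a⁆ = 0
  rw [lie_self, map_zero]

theorem odd_H {f : L → L} {χ : Dual k L} {z : L} {H : LieIdeal k L} (hc : Cfg f χ z H) :
    Odd (finrank k H) := by
  let χ' : H →ₗ[k] k := χ.comp H.toSubmodule.subtype
  have hχ' : ∀ x : H, χ' x = χ (x : L) := fun x => rfl
  have hsurj : LinearMap.range χ' = ⊤ := by
    rw [LinearMap.range_eq_top]
    intro c
    refine ⟨c • ⟨z, hc.z_mem⟩, ?_⟩
    rw [map_smul, hχ', hc.χz, smul_eq_mul, mul_one]
  have hrk := LinearMap.finrank_range_add_finrank_ker χ'
  rw [hsurj, finrank_top, Module.finrank_self] at hrk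
  let ω : LinearMap.ker χ' →ₗ[k] LinearMap.ker χ' →ₗ[k] k :=
    ((bf χ).comp (H.toSubmodule.subtype.comp (LinearMap.ker χ').subtype)).compl₂
      (H.toSubmodule.subtype.comp (LinearMap.ker χ').subtype)
  have hω : ∀ a b : LinearMap.ker χ', ω a b = χ ⁅((a : H) : L), ((b : H) : L)⁆ := fun a b => rfl
  have hev : Even (finrank k (LinearMap.ker χ')) := by
    refine even_finrank ω (fun a => ?_) (fun a ha => ?_)
    · rw [hω, lie_self, map_zero]
    · have haχ : χ ((a : H) : L) = 0 := a.2
      have haH : ((a : H) : L) ∈ H := (a : H).2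
      have h1 : ∀ h' ∈ H, ⁅((a : H) : L), h'⁆ = 0 := by
        intro h' hh'
        obtain ⟨c, hcc⟩ := hc.H_comm _ haH h' hh'
        have hmem : h' - (χ h') • z ∈ H := H.sub_mem hh' (H.smul_mem _ hc.z_mem)
        have hker : (⟨h' - (χ h') • z, hmem⟩ : H) ∈ LinearMap.ker χ' := by
          rw [LinearMap.mem_ker, hχ']
          show χ (h' - (χ h') • z) = 0
          rw [map_sub, map_smul, hc.χz, smul_eq_mul, mul_one, sub_self]
        have h2 := ha ⟨_, hker⟩
        rw [hω] at h2
        have h3 : χ ⁅((a : H) : L), h' - (χ h') • z⁆ = 0 := h2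
        rw [lie_sub, lie_smul, hc.H_cent _ haH, smul_zero, sub_zero, hcc, map_smul, hc.χz,
          smul_eq_mul, mul_one] at h3
        rw [hcc, h3, zero_smul]
      obtain ⟨c, hcc⟩ := hc.H_nd _ haH h1
      have h4 : c = 0 := by
        rw [hcc, map_smul, hc.χz, smul_eq_mul, mul_one] at haχ
        exact haχ
      apply Subtype.ext
      apply Subtype.ext
      show ((a : H) : L) = 0
      rw [hcc, h4, zero_smul]
  have h6 : finrank k H = finrank k (LinearMap.ker χ') + 1 := by
    rw [← hrk]; ring
  rw [h6]
  exact hev.add_one

end Pool.Agent.SkG
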