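import Pool.Agent.Lib.SkG.Defs
import Pool.Agent.Lib.MP_fc2f40_al.PBW

/-!
# Module FrzSub: the frozen hypotheses pass to subalgebras and quotients

`frz_sub`: the map `U(A) → U(L)` is injective (PBW for a basis of `A` extended to a basis of `L`), so the
three identities hold in `U(A)` because they hold in `U(L)`.
`frz_quot`: apply the surjection `U(L) → U(L')` to the identities.
`frz_wd`: apply the surjection to the additivity identity and use that `ι` is injective.
-/

set_option linter.unusedSectionVars false

namespace Pool.Agent.SkG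

open Module Pool.Agent.SkS

attribute [local instance 100] LieRing.ofAssociativeRing

section inj

open Pool.Agent.Lib.MP_fc2f40_al.PBW

variable {K L : Type} [Field K] [LieRing L] [LieAlgebra K L]

/-- the map on enveloping algebras induced by a Lie homomorphism -/
private noncomputable def umap {L' : Type} [LieRing L'] [LieAlgebra K L'] (g : L →ₗ⁅K⁆ L') :
    UniversalEnvelopingAlgebra K L →ₐ[K] UniversalEnvelopingAlgebra K L' :=
  UniversalEnvelopingAlgebra.lift K ((UniversalEnvelopingAlgebra.ι K).comp g)

private lemma umap_ι {L' : Type} [LieRing L'] [LieAlgebra K L'] (g : L →ₗ⁅K⁆ L') (x : L) :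
    umap g (UniversalEnvelopingAlgebra.ι K x) = UniversalEnvelopingAlgebra.ι K (g x) := by
  rw [umap, UniversalEnvelopingAlgebra.lift_ι_apply]
  rfl

private lemma Phi_inj {I : Type} [LinearOrder I] (b : Basis I K L) (q : MvPolynomial I K)
    (h : Phi b q = 0) : q = 0 := by
  by_contra h0
  have h1 := rhoU_Phi b q.totalDegree 0 1 (by
    rw [← mon_zero]
    exact mon_mem_W (by simp)) q (mem_W_totalDegree q)
  rw [h, map_zero, LinearMap.zero_apply, mul_one, zero_sub, add_zero] at h1
  have h2 := (W K I _).neg_mem h1
  rw [neg_neg] at h2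
  exact lt_irrefl _ (totalDegree_lt_of_mem_W _ q h2 h0)

private lemma umap_injective_aux (A : LieSubalgebra K L) {IA IC : Type} [LinearOrder IA]
    [LinearOrder IC] (bA : Basis IA K A) (b : Basis (Lex (IA ⊕ IC)) K L)
    (hb : ∀ i, b (toLex (Sum.inl i)) = (bA i : L)) :
    Function.Injective (umap (K := K) A.incl) := by
  rw [injective_iff_map_eq_zero]
  intro u hu
  set q := Psi bA u with hq
  have hu' : Phi bA q = u := Phi_Psi bA u
  let e : IA → Lex (IA ⊕ IC) := fun i => toLex (Sum.inl i)
  have he : Function.Injective e := fun i j hij => Sum.inl_injective (toLex.injective hij)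
  have key : ∀ q : MvPolynomial IA K, umap (K := K) A.incl (Phi bA q) =
      Phi b (MvPolynomial.rename e q) := by
    intro q
    induction q using MvPolynomial.induction_on' with
    | monomial m c =>
      have e1 : (MvPolynomial.monomial m c : MvPolynomial IA K) = c • mon m := by
        rw [mon, MvPolynomial.smul_monomial, smul_eq_mul, mul_one]
      have e2 : MvPolynomial.rename e (mon m : MvPolynomial IA K) =
          (mon (m.mapDomain e) : MvPolynomial _ K) := by
        rw [mon, MvPolynomial.rename_monomial]
      have e3 : (((Finsupp.toMultiset m).sort (· ≤ ·)).map e) =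
          (Finsupp.toMultiset (m.mapDomain e)).sort (· ≤ ·) := by
        rw [← Finsupp.toMultiset_map]
        refine Multiset.map_sort e (Finsupp.toMultiset m) (· ≤ ·) (· ≤ ·) ?_
        intro i _ j _
        exact Sum.Lex.inl_le_inl_iff.symm
      have e4 : umap (K := K) A.incl (Phi bA (mon m)) = Phi b (mon (m.mapDomain e)) := by
        rw [Phi_mon, Phi_mon, ← e3, map_list_prod, List.map_map, List.map_map]
        congr 1
        refine List.map_congr_left ?_
        intro i _
        simp only [Function.comp_apply]
        rw [umap_ι]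
        show _ = UniversalEnvelopingAlgebra.ι K (b (toLex (Sum.inl i)))
        rw [hb i]
        rfl
      rw [e1, map_smul, map_smul, e4, ← e2, map_smul, map_smul]
    | add p q hp hq => rw [map_add, map_add, map_add, map_add, hp, hq]
  have h1 : Phi b (MvPolynomial.rename e q) = 0 := by
    rw [← key, hu', hu]
  have h2 := Phi_inj b _ h1
  have h3 : q = 0 := by
    apply MvPolynomial.rename_injective e he
    rw [h2, map_zero]
  rw [← hu', h3, map_zero]

private lemma umap_injective (A : LieSubalgebra K L) : Function.Injective (umap (K := K) A.incl) := by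
  classical
  obtain ⟨C, hC⟩ := A.toSubmodule.exists_isCompl
  let bA := Basis.ofVectorSpace K A.toSubmodule
  let bC := Basis.ofVectorSpace K C
  let _ : LinearOrder (Basis.ofVectorSpaceIndex K A.toSubmodule) := linearOrderOfSTO WellOrderingRel
  let _ : LinearOrder (Basis.ofVectorSpaceIndex K C) := linearOrderOfSTO WellOrderingRel
  let b0 := (bA.prod bC).map (Submodule.prodEquivOfIsCompl A.toSubmodule C hC)
  let b := b0.reindex toLex
  refine umap_injective_aux A bA b ?_
  intro i
  show b0.reindex toLex (toLex (Sum.inl i)) = _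
  rw [Basis.reindex_apply]
  have : toLex.symm (toLex (Sum.inl i)) = (Sum.inl i : _ ⊕ Basis.ofVectorSpaceIndex K C) := rfl
  rw [this]
  show ((bA.prod bC).map (Submodule.prodEquivOfIsCompl A.toSubmodule C hC)) (Sum.inl i) = _
  rw [Basis.map_apply, Submodule.coe_prodEquivOfIsCompl']
  simp

end inj

variable {k L : Type} [Field k] {p : ℕ} [Fact p.Prime] [CharP k p] [LieRing L] [LieAlgebra k L]

omit [Fact p.Prime] [CharP k p] in
private lemma umap_X {L' : Type} [LieRing L'] [LieAlgebra k L'] (g : L →ₗ⁅k⁆ L') (x y : L) :
    umap g (UniversalEnvelopingAlgebra.ι k x ^ p - UniversalEnvelopingAlgebra.ι k y) =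
      UniversalEnvelopingAlgebra.ι k (g x) ^ p - UniversalEnvelopingAlgebra.ι k (g y) := by
  rw [map_sub, map_pow, umap_ι, umap_ι]

theorem frz_sub {f : L → L} (h : Frz p k f) (A : LieSubalgebra k L) (hA : ∀ x ∈ A, f x ∈ A) :
    Frz p k (fs f A hA) := by
  have hinj := umap_injective (K := k) A
  refine ⟨?_, ?_, ?_⟩
  · intro x y
    apply hinj
    have e : ∀ u v : UniversalEnvelopingAlgebra k A, umap (K := k) A.incl (u + v) =
      umap (K := k) A.incl u + umap (K := k) A.incl v := fun u v => map_add _ u v
    rw [e, umap_X, umap_X, umap_X]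
    exact h.add (x : L) (y : L)
  · intro a x
    apply hinj
    have e : ∀ (c : k) (u : UniversalEnvelopingAlgebra k A), umap (K := k) A.incl (c • u) =
      c • umap (K := k) A.incl u := fun c u => map_smul _ c u
    rw [e, umap_X, umap_X]
    exact h.smul a (x : L)
  · intro x y
    apply hinj
    have e : ∀ u v : UniversalEnvelopingAlgebra k A, umap (K := k) A.incl (u * v) =
      umap (K := k) A.incl u * umap (K := k) A.incl v := fun u v => map_mul _ u v
    rw [e, e, umap_X, umap_ι]
    exact h.comm (x : L) (y : L)

theorem frz_quot {f : L → L} (h : Frz p k f) {L' : Type} [LieRing L'] [LieAlgebra k L']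
    (π : L →ₗ⁅k⁆ L') (hπ : Function.Surjective π) (f' : L' → L') (hf' : ∀ x, f' (π x) = π (f x)) :
    Frz p k f' := by
  refine ⟨?_, ?_, ?_⟩
  · intro x' y'
    obtain ⟨x, rfl⟩ := hπ x'
    obtain ⟨y, rfl⟩ := hπ y'
    have h1 := congrArg (umap (K := k) π) (h.add x y)
    have e : ∀ u v : UniversalEnvelopingAlgebra k L, umap (K := k) π (u + v) =
      umap (K := k) π u + umap (K := k) π v := fun u v => map_add _ u v
    rw [e, umap_X, umap_X, umap_X, ← hf', ← hf', ← hf', map_add] at h1
    exact h1
  · intro a x'
    obtain ⟨x, rfl⟩ := hπ x'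
    have h1 := congrArg (umap (K := k) π) (h.smul a x)
    have e : ∀ (c : k) (u : UniversalEnvelopingAlgebra k L), umap (K := k) π (c • u) =
      c • umap (K := k) π u := fun c u => map_smul _ c u
    rw [e, umap_X, umap_X, ← hf', ← hf', map_smul] at h1
    exact h1
  · intro x' y'
    obtain ⟨x, rfl⟩ := hπ x'
    obtain ⟨y, rfl⟩ := hπ y'
    have h1 := congrArg (umap (K := k) π) (h.comm x y).eq
    have e : ∀ u v : UniversalEnvelopingAlgebra k L, umap (K := k) π (u * v) =
      umap (K := k) π u * umap (K := k) π v := fun u v => map_mul _ u v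
    rw [e, e, umap_X, umap_ι, ← hf'] at h1
    exact h1

theorem frz_wd {f : L → L} (h : Frz p k f) {L' : Type} [LieRing L'] [LieAlgebra k L']
    (π : L →ₗ⁅k⁆ L') (hK : ∀ m, π m = 0 → π (f m) = 0) (x y : L) (hxy : π x = π y) :
    π (f x) = π (f y) := by
  have hp : p ≠ 0 := (Fact.out : p.Prime).ne_zero
  have hm : π (y - x) = 0 := by rw [map_sub, hxy, sub_self]
  have h1 := congrArg (umap (K := k) π) (h.add x (y - x))
  have e : ∀ u v : UniversalEnvelopingAlgebra k L, umap (K := k) π (u + v) =
      umap (K := k) π u + umap (K := k) π v := fun u v => map_add _ u v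
  rw [e, umap_X, umap_X, umap_X, hm, hK _ hm, add_sub_cancel, hxy, map_zero, zero_pow hp,
    sub_zero, add_zero] at h1
  have h2 : UniversalEnvelopingAlgebra.ι k (π (f x)) = UniversalEnvelopingAlgebra.ι k (π (f y)) :=
    (sub_right_injective h1).symm
  exact Pool.Agent.Lib.MP_fc2f40_al.PBW.ι_injective k L' h2

end Pool.Agent.SkG
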