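import Pool.Agent.Lib.SkG.Defs

/-!
# Module LemM (general p): Lemma M, the lower bound `dim V ≥ p^κ dim V^K` (pure linear algebra)

As SkS/LemM, with exponents.  `F_0 = V0`, `F_{j+1} = {v : r(K) v ⊆ F_j}`; `u = r a * Y i - Y i * r a` preserves `F_j`; `Y i F_j ≤ F_{j+1}`.
(AB) For a list `T` of `j+1` indices and `w ∈ F_j`: `m_T (Y s w) = (number of occurrences of s in T) • Z (m_{T - s} w)` where `m_T = ∏_{t ∈ T} r (m t)` (a product of commuting
  operators) and `T - s` is `T` with one occurrence of `s` removed.  Induction on `T = T' ∪ {t}`: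
  `m_{T'} r(m t) Y s w = m_{T'} Y s (r(m t) w) + m_{T'} u w`; `r(m t) w ∈ F_{j-1}` (induction), and `m_{T'} u w = u (m_{T'} w) = φ s (m t) Z(m_{T'} w) = δ_{st} Z (m_{T'} w)`.
(C) Let `Y^α = Y_0^{α_0} Y_1^{α_1} ...` and `m^γ = ∏ (r (m i))^{γ_i}`.  For `v ∈ V0`: `Y^α v ∈ F_{|α|}`; `m^γ Y^α v = 0` if `|γ| > |α|`; if `|γ| = |α|` then it is `0` for `γ ≠ α`
  and `(∏ α_i !) • Z^{|α|} v` for `γ = α`.
(D) So for exponents `< p` the linear map `((Fin κ → Fin p) → V0) → V`, `(v_α) ↦ Σ Y^α v_α`, is injective (`∏ α_i ! ≠ 0` in `k`; take `v_α ≠ 0` with `|α|` maximal and apply `m^α`).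
(Suggestion: define everything recursively along `Fin κ` with `List.ofFn` or use one letter at a time; any proof is welcome.)
-/

namespace Pool.Agent.SkG

open Module

variable {k V : Type} [Field k] {p : ℕ} [Fact p.Prime] [CharP k p] [AddCommGroup V] [Module k V]
  [FiniteDimensional k V]

/-- the filtration `F_j` -/
private def Fil {K : Type} [AddCommGroup K] [Module k K] (r : K →ₗ[k] End k V) : ℕ → V → Prop
  | 0, w => ∀ b, r b w = 0
  | j + 1, w => ∀ b, Fil r j (r b w)

section

variable {K : Type} [AddCommGroup K] [Module k K] {r : K →ₗ[k] End k V}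

omit [FiniteDimensional k V] in
private lemma fil_zero (j : ℕ) : Fil r j (0 : V) := by
  induction j with
  | zero => intro b; exact map_zero _
  | succ j ih => intro b; rw [map_zero]; exact ih

omit [FiniteDimensional k V] in
private lemma fil_add (j : ℕ) : ∀ (v w : V), Fil r j v → Fil r j w → Fil r j (v + w) := by
  induction j with
  | zero => intro v w hv hw b; rw [map_add, hv b, hw b, add_zero]
  | succ j ih => intro v w hv hw b; rw [map_add]; exact ih _ _ (hv b) (hw b)

omit [FiniteDimensional k V] in
private lemma fil_comm {u : End k V} (hu : ∀ b, u * r b = r b * u) (j : ℕ) :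
    ∀ w : V, Fil r j w → Fil r j (u w) := by
  have hu' : ∀ b w, r b (u w) = u (r b w) := by
    intro b w
    have := congrArg (fun g : End k V => g w) (hu b)
    simpa using this.symm
  induction j with
  | zero => intro w hw b; rw [hu', hw b, map_zero]
  | succ j ih => intro w hw b; rw [hu']; exact ih _ (hw b)

omit [FiniteDimensional k V] in
private lemma fil_Y {Y : End k V}
    (hu : ∀ a b : K, (r a * Y - Y * r a) * r b = r b * (r a * Y - Y * r a)) (j : ℕ) :
    ∀ w : V, Fil r j w → Fil r (j + 1) (Y w) := by
  have e : ∀ a w, r a (Y w) = Y (r a w) + (r a * Y - Y * r a) w := by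
    intro a w
    simp
  induction j with
  | zero =>
    intro w hw a
    rw [e, hw a, map_zero, zero_add]
    exact fil_comm (hu a) 0 w hw
  | succ j ih =>
    intro w hw a
    rw [e]
    exact fil_add _ _ _ (ih _ (hw a)) (fil_comm (hu a) (j + 1) w hw)

end

theorem lemM {K : Type} [AddCommGroup K] [Module k K] {κ : ℕ} (r : K →ₗ[k] End k V)
    (Y : Fin κ → End k V) (m : Fin κ → K) (Z : End k V) (φ : Fin κ → K → k)
    (hcomm : ∀ a b : K, r a * r b = r b * r a)
    (hu : ∀ (a : K) (i : Fin κ) (b : K),
      (r a * Y i - Y i * r a) * r b = r b * (r a * Y i - Y i * r a))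
    (hφ : ∀ (a : K) (i : Fin κ) (v : V), (∀ b, r b v = 0) →
      (r a * Y i - Y i * r a) v = φ i a • Z v)
    (hδ : ∀ i j, φ i (m j) = if i = j then 1 else 0)
    (hZ : ∀ v, (∀ b, r b v = 0) → Z v = 0 → v = 0)
    (hZK : ∀ v, (∀ b, r b v = 0) → ∀ b, r b (Z v) = 0)
    (V0 : Submodule k V) (hV0 : ∀ v, v ∈ V0 ↔ ∀ b, r b v = 0) :
    p ^ κ * finrank k V0 ≤ finrank k V := by
  classical
  have : LeftCommutative (fun (t : Fin κ) (g : End k V) => r (m t) * g) :=
    ⟨fun a b g => by rw [← mul_assoc, hcomm, mul_assoc]⟩
  let mT : Multiset (Fin κ) → End k V := fun T => T.foldr (fun t g => r (m t) * g) 1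
  have mT_nil : mT 0 = 1 := Multiset.foldr_zero _ _
  have mT_cons : ∀ (t : Fin κ) (T : Multiset (Fin κ)), mT (t ::ₘ T) = r (m t) * mT T :=
    fun t T => Multiset.foldr_cons _ _ _ _
  have mT_comm : ∀ (T : Multiset (Fin κ)) (u : End k V), (∀ b, u * r b = r b * u) →
      u * mT T = mT T * u := by
    intro T u hu
    induction T using Multiset.induction_on with
    | empty => rw [mT_nil, one_mul, mul_one]
    | cons t T ih => rw [mT_cons, ← mul_assoc, hu, mul_assoc, ih, mul_assoc]
  have mT_cons' : ∀ (t : Fin κ) (T : Multiset (Fin κ)), mT (t ::ₘ T) = mT T * r (m t) := by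
    intro t T
    rw [mT_cons, mT_comm T (r (m t)) (fun b => hcomm _ _)]
  have mT_fil : ∀ (T : Multiset (Fin κ)) (j : ℕ) (w : V), Fil r (j + T.card) w →
      Fil r j (mT T w) := by
    intro T
    induction T using Multiset.induction_on with
    | empty => intro j w hw; rw [mT_nil]; simpa using hw
    | cons t T ih =>
      intro j w hw
      rw [mT_cons', Module.End.mul_apply]
      rw [Multiset.card_cons] at hw
      exact ih j _ (hw (m t))
  have mT_zero : ∀ (T : Multiset (Fin κ)) (j : ℕ) (w : V), j < T.card → Fil r j w →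
      mT T w = 0 := by
    intro T
    induction T using Multiset.induction_on with
    | empty => intro j w hj; simp at hj
    | cons t T ih =>
      intro j w hj hw
      rw [mT_cons', Module.End.mul_apply]
      rw [Multiset.card_cons] at hj
      rcases j with _ | j
      · rw [hw (m t), map_zero]
      · exact ih j _ (by omega) (hw (m t))
  have e : ∀ (a : K) (i : Fin κ) (w : V), r a (Y i w) = Y i (r a w) + (r a * Y i - Y i * r a) w := by
    intro a i w
    simp
  have huT : ∀ (T : Multiset (Fin κ)) (a : K) (i : Fin κ) (w : V), Fil r T.card w →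
      mT T ((r a * Y i - Y i * r a) w) = φ i a • Z (mT T w) := by
    intro T a i w hw
    have h1 := congrArg (fun g : End k V => g w) (mT_comm T _ (hu a i))
    simp only [Module.End.mul_apply] at h1
    have h2 : ∀ b, r b (mT T w) = 0 := mT_fil T 0 w (by rwa [zero_add])
    rw [← h1]
    exact hφ a i _ h2
  have hA : ∀ (j : ℕ) (T : Multiset (Fin κ)) (s : Fin κ) (w : V), T.card = j + 1 →
      Fil r j w → mT T (Y s w) = (T.count s : k) • Z (mT (T.erase s) w) := by
    intro j
    induction j with
    | zero =>
      intro T s w hT hw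
      obtain ⟨t, rfl⟩ := Multiset.card_eq_one.mp hT
      have h1 : mT {t} = r (m t) := by
        have := mT_cons t 0
        rw [mT_nil, mul_one] at this
        simpa using this
      rw [h1, e, hw (m t), map_zero, zero_add, hφ (m t) s w hw, hδ]
      by_cases hs : s = t
      · subst hs
        rw [if_pos rfl, Multiset.count_singleton_self, Nat.cast_one, ← Multiset.cons_zero,
          Multiset.erase_cons_head, mT_nil, Module.End.one_apply]
      · rw [if_neg hs, zero_smul, Multiset.count_eq_zero_of_notMem (by simpa using hs),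
          Nat.cast_zero, zero_smul]
    | succ j ih =>
      intro T s w hT hw
      obtain ⟨t, ht⟩ := Multiset.card_pos_iff_exists_mem.mp (by omega : 0 < T.card)
      obtain ⟨T', rfl⟩ := Multiset.exists_cons_of_mem ht
      have hT' : T'.card = j + 1 := by rw [Multiset.card_cons] at hT; omega
      rw [mT_cons', Module.End.mul_apply, e, map_add, ih T' s _ hT' (hw (m t)),
        huT T' (m t) s w (by rw [hT']; exact hw), hδ]
      by_cases hs : s = t
      · subst hs
        rw [if_pos rfl, one_smul, Multiset.count_cons_self, Multiset.erase_cons_head]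
        by_cases hsT : s ∈ T'
        · have h2 : mT (T'.erase s) (r (m s) w) = mT T' w := by
            rw [← Module.End.mul_apply, ← mT_cons', Multiset.cons_erase hsT]
          rw [h2, Nat.cast_add, Nat.cast_one, add_smul, one_smul]
        · rw [Multiset.count_eq_zero_of_notMem hsT]
          simp
      · rw [if_neg hs, zero_smul, add_zero, Multiset.count_cons_of_ne hs,
          Multiset.erase_cons_tail _ (Ne.symm hs), mT_cons', Module.End.mul_apply]
  have hZpow : ∀ (n : ℕ) (v : V), (∀ b, r b v = 0) → (∀ b, r b ((Z ^ n) v) = 0) ∧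
      ((Z ^ n) v = 0 → v = 0) := by
    intro n
    induction n with
    | zero => intro v hv; exact ⟨by simpa using hv, by simp⟩
    | succ n ih =>
      intro v hv
      obtain ⟨h1, h2⟩ := ih v hv
      rw [pow_succ', Module.End.mul_apply]
      exact ⟨hZK _ h1, fun h => h2 (hZ _ h1 h)⟩
  have hC : ∀ S : Multiset (Fin κ), (∀ i, S.count i < p) → ∃ (y : End k V) (c : k), c ≠ 0 ∧
      ∀ v, (∀ b, r b v = 0) → Fil r S.card (y v) ∧ ∀ T : Multiset (Fin κ), T.card = S.card →
        mT T (y v) = if T = S then c • (Z ^ S.card) v else 0 := by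
    intro S
    induction S using Multiset.induction_on with
    | empty =>
      intro _
      refine ⟨1, 1, one_ne_zero, fun v hv => ⟨by simpa [Fil] using hv, ?_⟩⟩
      intro T hT
      have : T = 0 := by simpa using hT
      subst this
      rw [mT_nil]
      simp
    | cons s S ih =>
      intro hcount
      obtain ⟨y, c, hc0, hy⟩ := ih (fun i =>
        lt_of_le_of_lt (Multiset.count_le_count_cons i s S) (hcount i))
      have hn : ((S.count s + 1 : ℕ) : k) ≠ 0 := by
        intro h
        rw [CharP.cast_eq_zero_iff k p] at h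
        have h1 := Nat.le_of_dvd (Nat.succ_pos _) h
        have h2 := hcount s
        rw [Multiset.count_cons_self] at h2
        omega
      refine ⟨Y s * y, ((S.count s + 1 : ℕ) : k) * c, mul_ne_zero hn hc0, fun v hv => ?_⟩
      obtain ⟨h1, h2⟩ := hy v hv
      rw [Multiset.card_cons, Module.End.mul_apply]
      refine ⟨fil_Y (fun a b => hu a s b) _ _ h1, ?_⟩
      intro T hT
      rw [hA _ T s (y v) hT h1]
      by_cases hsT : s ∈ T
      · obtain ⟨T', rfl⟩ : ∃ T', T = s ::ₘ T' := ⟨T.erase s, (Multiset.cons_erase hsT).symm⟩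
        rw [Multiset.card_cons] at hT
        have hc : T'.card = S.card := by omega
        rw [Multiset.erase_cons_head, h2 T' hc]
        by_cases hTS : T' = S
        · subst hTS
          rw [if_pos rfl, if_pos rfl, Multiset.count_cons_self, map_smul, smul_smul, pow_succ',
            Module.End.mul_apply]
        · rw [if_neg hTS, if_neg, map_zero, smul_zero]
          intro hh
          exact hTS ((Multiset.cons_inj_right s).mp hh)
      · rw [Multiset.count_eq_zero_of_notMem hsT, Nat.cast_zero, zero_smul, if_neg]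
        rintro rfl
        exact hsT (Multiset.mem_cons_self _ _)
  let Sa : (Fin κ → Fin p) → Multiset (Fin κ) := fun a => ∑ i, Multiset.replicate (a i : ℕ) i
  have hSa : ∀ (a : Fin κ → Fin p) (j : Fin κ), (Sa a).count j = (a j : ℕ) := by
    intro a j
    simp only [Sa]
    rw [Multiset.count_sum']
    simp [Multiset.count_replicate]
  have hSinj : ∀ a b : Fin κ → Fin p, Sa a = Sa b → a = b := by
    intro a b h
    funext j
    apply Fin.ext
    rw [← hSa a j, ← hSa b j, h]
  have hC' : ∀ a : Fin κ → Fin p, ∃ (y : End k V) (c : k), c ≠ 0 ∧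
      ∀ v, (∀ b, r b v = 0) → Fil r (Sa a).card (y v) ∧ ∀ T : Multiset (Fin κ),
        T.card = (Sa a).card → mT T (y v) = if T = Sa a then c • (Z ^ (Sa a).card) v else 0 :=
    fun a => hC (Sa a) (fun i => by rw [hSa]; exact (a i).2)
  choose y c hc0 hy using hC'
  let Φ : ((Fin κ → Fin p) → V0) →ₗ[k] V :=
    ∑ a : Fin κ → Fin p, (y a) ∘ₗ V0.subtype ∘ₗ (LinearMap.proj a)
  have hΦ : ∀ f, Φ f = ∑ a : Fin κ → Fin p, y a (f a : V) := by
    intro f
    simp [Φ]
  have hinj : Function.Injective Φ := by
    rw [← LinearMap.ker_eq_bot, LinearMap.ker_eq_bot']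
    intro f hf
    by_contra hne
    have hex : ∃ a, f a ≠ 0 := by
      by_contra h
      push Not at h
      exact hne (funext h)
    obtain ⟨a0, ha0⟩ := hex
    obtain ⟨a, ha, hmax⟩ := Finset.exists_max_image
      ((Finset.univ : Finset (Fin κ → Fin p)).filter (fun a => f a ≠ 0)) (fun a => (Sa a).card)
      ⟨a0, by simpa using ha0⟩
    have ha' : f a ≠ 0 := (Finset.mem_filter.mp ha).2
    have hmem : ∀ a, ∀ b, r b (f a : V) = 0 := fun a => (hV0 _).mp (f a).2
    have h1 : mT (Sa a) (Φ f) = c a • (Z ^ (Sa a).card) (f a : V) := by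
      rw [hΦ, map_sum, Finset.sum_eq_single a]
      · rw [(hy a _ (hmem a)).2 (Sa a) rfl, if_pos rfl]
      · intro a' _ haa
        rcases lt_trichotomy (Sa a').card (Sa a).card with hlt | heq | hgt
        · exact mT_zero (Sa a) (Sa a').card _ hlt (hy a' _ (hmem a')).1
        · rw [(hy a' _ (hmem a')).2 (Sa a) heq.symm,
            if_neg (fun h => haa (hSinj _ _ h.symm))]
        · have : f a' = 0 := by
            by_contra h0
            have := hmax a' (Finset.mem_filter.mpr ⟨Finset.mem_univ _, h0⟩)
            omega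
          rw [this]
          simp
      · intro h; exact absurd (Finset.mem_univ _) h
    rw [hf, map_zero] at h1
    have h3 : (Z ^ (Sa a).card) (f a : V) = 0 := by
      rcases smul_eq_zero.mp h1.symm with h | h
      · exact absurd h (hc0 a)
      · exact h
    have h2 := (hZpow (Sa a).card _ (hmem a)).2 h3
    exact ha' (by ext; simpa using h2)
  have hle := LinearMap.finrank_le_finrank_of_injective hinj
  rw [Module.finrank_pi_fintype] at hle
  simpa using hle

end Pool.Agent.SkG
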