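import Pool.Agent.Lib.SkG.FrzSub
import Pool.Agent.Lib.SkG.Basic

/-!
# Module Red (general p; adapt SkS/Red): the reduction by `K = M ∩ ker χ`

New: `Frz` for `L1` (`frz_sub`) and for the quotient (`frz_wd` for the definition of `f'`: `f m = 0` for `m ∈ K`; `frz_quot`); `f L1 ⊆ L1`: `⁅f x, m⁆ = (ad x)^p m` and `(ad x)^j m ∈ K`.
`Sol3`: for the solvable ideal `I` of `L` take the image `I'` in `L'` of `I ∩ L1` (an ideal of `L1`; its image is an ideal by surjectivity, `LieIdeal.map`); it is solvable, and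
`finrank L' - finrank I' ≤ finrank L1 - finrank (I ∩ L1) ≤ finrank L - finrank I ≤ 3`.
-/

namespace Pool.Agent.SkG

open Module Pool.Agent.SkS

variable {k L : Type} [Field k] {p : ℕ} [Fact p.Prime] [CharP k p] [LieRing L] [LieAlgebra k L]
  [FiniteDimensional k L]

/-- the functional `y ↦ χ ⁅y, m⁆`, linear in `m` -/
private noncomputable def red_psi (χ : Dual k L) : L →ₗ[k] Dual k L where
  toFun m :=
    { toFun := fun y => χ ⁅y, m⁆
      map_add' := fun x y => by rw [add_lie, map_add]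
      map_smul' := fun c x => by rw [smul_lie, map_smul, RingHom.id_apply] }
  map_add' m m' := by
    ext y
    simp
  map_smul' c m := by
    ext y
    simp

omit [Fact p.Prime] [CharP k p] [FiniteDimensional k L] in
private lemma red_psi_apply (χ : Dual k L) (m y : L) : red_psi χ m y = χ ⁅y, m⁆ := rfl

/-- the subalgebra `L1` -/
private noncomputable def redL1 (χ : Dual k L) (K : Submodule k L)
    (h : ∀ y m : L, m ∈ K → χ ⁅y, m⁆ = 0 → ⁅y, m⁆ ∈ K) : LieSubalgebra k L where
  carrier := {x | ∀ m ∈ K, χ ⁅x, m⁆ = 0}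
  add_mem' := fun {x y} hx hy m hm => by
    rw [add_lie, map_add, hx m hm, hy m hm, add_zero]
  zero_mem' := fun m _ => by rw [zero_lie, map_zero]
  smul_mem' := fun c x hx m hm => by
    rw [smul_lie, map_smul, hx m hm, smul_zero]
  lie_mem' := fun {x y} hx hy m hm => by
    rw [lie_lie, map_sub, hx _ (h y m hm (hy m hm)), hy _ (h x m hm (hx m hm)), sub_zero]

/-- the ideal `K` of `L1` -/
private noncomputable def redI {K : Submodule k L} {L1 : LieSubalgebra k L}
    (h : ∀ x ∈ L1, ∀ m ∈ K, ⁅x, m⁆ ∈ K) : LieIdeal k L1 where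
  carrier := {x | (x : L) ∈ K}
  add_mem' := fun hx hy => K.add_mem hx hy
  zero_mem' := K.zero_mem
  smul_mem' := fun c _ hx => K.smul_mem c hx
  lie_mem := fun {x m} hm => h x x.2 m hm

/-- the reduction by `K` -/
theorem red0 {f : L → L} (hf : Frz p k f) (χ : Dual k L) (M : LieIdeal k L)
    (hM : ∀ x ∈ M, ∀ y ∈ M, ⁅x, y⁆ = 0) (hfM : ∀ m ∈ M, f m = 0)
    (hnd : ∀ m ∈ M, (∀ y : L, χ ⁅y, m⁆ = 0) → m = 0) (K : Submodule k L)
    (hK : ∀ m, m ∈ K ↔ m ∈ M ∧ χ m = 0) :
    ∃ (L' : Type) (_ : LieRing L') (_ : LieAlgebra k L') (f' : L' → L') (χ' : Dual k L')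
      (D : RedData f χ K L' f' χ'), Frz p k f' ∧ FiniteDimensional k L' ∧
        finrank k L' + 2 * finrank k K = finrank k L ∧
        finrank k D.L1 + finrank k K = finrank k L ∧ (Nondeg χ → Nondeg χ') ∧
        (Nondeg χ' → Nondeg χ) := by
  have hR0 : Rst p k f := rst_of_frz hf
  have hKM : ∀ m, m ∈ K → m ∈ M := fun m hm => ((hK m).mp hm).1
  have hKχ : ∀ m, m ∈ K → χ m = 0 := fun m hm => ((hK m).mp hm).2
  have h0 : ∀ y m : L, m ∈ K → χ ⁅y, m⁆ = 0 → ⁅y, m⁆ ∈ K := by
    intro y m hm h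
    exact (hK _).mpr ⟨lie_mem_right k L M y m (hKM m hm), h⟩
  let L1 : LieSubalgebra k L := redL1 χ K h0
  have hmem : ∀ x, x ∈ L1 ↔ ∀ m ∈ K, χ ⁅x, m⁆ = 0 := fun x => Iff.rfl
  have hlieK : ∀ x ∈ L1, ∀ m ∈ K, ⁅x, m⁆ ∈ K := fun x hx m hm => h0 x m hm (hx m hm)
  have hfmem : ∀ x ∈ L1, f x ∈ L1 := by
    intro x hx m hm
    rw [hR0.ad]
    apply hKχ
    have hit : ∀ n : ℕ, (fun w => ⁅x, w⁆)^[n] m ∈ K := by
      intro n
      induction n with
      | zero => exact hm
      | succ n ih =>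
        rw [Function.iterate_succ_apply']
        exact hlieK x hx _ ih
    exact hit p
  have hKL1 : ∀ x ∈ K, x ∈ L1 := by
    intro x hx m hm
    rw [hM x (hKM x hx) m (hKM m hm), map_zero]
  let I : LieIdeal k L1 := redI hlieK
  have hI : ∀ x : L1, x ∈ I ↔ (x : L) ∈ K := fun x => Iff.rfl
  let π : L1 →ₗ⁅k⁆ (L1 ⧸ I) :=
    { (LieSubmodule.Quotient.mk' I : L1 →ₗ[k] (L1 ⧸ I)) with
      map_lie' := fun {x y} => LieSubmodule.Quotient.mk_bracket I x y }
  have hπ : ∀ x : L1, π x = LieSubmodule.Quotient.mk x := fun x => rfl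
  have hsurj : Function.Surjective π := by
    intro q
    obtain ⟨x, hx⟩ := Submodule.Quotient.mk_surjective _ q
    exact ⟨x, hx⟩
  have hker : ∀ x : L1, π x = 0 ↔ (x : L) ∈ K := by
    intro x
    rw [hπ, LieSubmodule.Quotient.mk_eq_zero', hI]
  let f1 : L1 → L1 := fs f L1 hfmem
  have hF1 : Frz p k f1 := frz_sub hf L1 hfmem
  have hkey : ∀ x y : L1, π x = π y → π (f1 x) = π (f1 y) := by
    intro x y hxy
    refine frz_wd hF1 π ?_ x y hxy
    intro m hm
    have h1 := (hker m).mp hm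
    have h2 : f1 m = 0 := Subtype.ext (hfM _ (hKM _ h1))
    rw [h2, map_zero]
  let s : (L1 ⧸ I) → L1 := Function.surjInv hsurj
  have hs : ∀ q, π (s q) = q := Function.surjInv_eq hsurj
  let f' : (L1 ⧸ I) → (L1 ⧸ I) := fun q => π (f1 (s q))
  have hf' : ∀ x : L1, f' (π x) = π (f1 x) := by
    intro x
    exact hkey _ _ (hs (π x))
  have hχK : I.toSubmodule ≤ LinearMap.ker (χ.comp L1.toSubmodule.subtype) := by
    intro x hx
    rw [LinearMap.mem_ker]
    exact hKχ _ hx
  let χ' : Dual k (L1 ⧸ I) := I.toSubmodule.liftQ (χ.comp L1.toSubmodule.subtype) hχK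
  have hχ' : ∀ x : L1, χ' (π x) = χ x := fun x => rfl
  have hR : Frz p k f' := frz_quot hF1 π hsurj f' hf'
  have hcoW : (K.map (red_psi χ)).dualCoannihilator = L1.toSubmodule := by
    ext x
    rw [Submodule.mem_dualCoannihilator]
    constructor
    · intro h m hm
      exact h _ (Submodule.mem_map_of_mem hm)
    · rintro h _ ⟨m, hm, rfl⟩
      exact h m hm
  have hfin1 : finrank k L1 + finrank k K = finrank k L := by
    let W : Submodule k (Dual k L) := K.map (red_psi χ)
    have hW : finrank k W = finrank k K := by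
      have hinj : Function.Injective ((red_psi χ).comp K.subtype) := by
        rw [← LinearMap.ker_eq_bot, LinearMap.ker_eq_bot']
        intro m hm
        apply Subtype.ext
        refine hnd (m : L) (hKM m m.2) ?_
        intro y
        exact LinearMap.congr_fun hm y
      have h := LinearMap.finrank_range_of_inj hinj
      rw [LinearMap.range_comp, Submodule.range_subtype] at h
      exact h
    have hco : W.dualCoannihilator = L1.toSubmodule := hcoW
    have h := Subspace.finrank_add_finrank_dualCoannihilator_eq W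
    rw [hco, hW] at h
    rw [add_comm]
    exact h
  have hfin2 : finrank k (L1 ⧸ I) + finrank k K = finrank k L1 := by
    have h := LinearMap.finrank_range_add_finrank_ker (π : L1 →ₗ[k] (L1 ⧸ I))
    have h1 : LinearMap.range (π : L1 →ₗ[k] (L1 ⧸ I)) = ⊤ := LinearMap.range_eq_top.mpr hsurj
    have h2 : finrank k (LinearMap.ker (π : L1 →ₗ[k] (L1 ⧸ I))) = finrank k K := by
      have hle : K ≤ L1.toSubmodule := hKL1
      have e : LinearMap.ker (π : L1 →ₗ[k] (L1 ⧸ I)) = K.comap L1.toSubmodule.subtype := by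
        ext x
        rw [LinearMap.mem_ker, Submodule.mem_comap]
        exact hker x
      rw [e]
      exact LinearEquiv.finrank_eq (Submodule.comapSubtypeEquivOfLe hle)
    rw [h1, h2, finrank_top] at h
    exact h
  refine ⟨L1 ⧸ I, inferInstance, inferInstance, f', χ',
    ⟨L1, hmem, hfmem, hlieK, π, hsurj, hker, hf', hχ'⟩, hR,
    Module.Finite.of_surjective (π : L1 →ₗ[k] (L1 ⧸ I)) hsurj, by omega, hfin1, ?_, ?_⟩
  · intro hN q hq
    obtain ⟨x, rfl⟩ := hsurj q
    rw [hker]
    -- the functional `y ↦ χ ⁅x, y⁆` vanishes on `L1`, hence comes from `K`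
    let φ : Dual k L := -(red_psi χ (x : L))
    have hφ : ∀ y, φ y = χ ⁅(x : L), y⁆ := by
      intro y
      show -(χ ⁅y, (x : L)⁆) = _
      rw [← map_neg, lie_skew]
    have h1 : φ ∈ (K.map (red_psi χ)).dualCoannihilator.dualAnnihilator := by
      rw [hcoW, Submodule.mem_dualAnnihilator]
      intro y hy
      rw [hφ]
      have h := hq (π ⟨y, hy⟩)
      rw [← LieHom.map_lie, hχ'] at h
      exact h
    rw [Subspace.dualCoannihilator_dualAnnihilator_eq] at h1
    obtain ⟨m, hm, hmφ⟩ := h1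
    have h2 : (x : L) + m = 0 := by
      refine hN _ ?_
      intro y
      have h3 : red_psi χ m y = φ y := by rw [hmφ]
      rw [red_psi_apply, hφ] at h3
      rw [add_lie, map_add, ← h3, ← lie_skew, map_neg, neg_add_cancel]
    have h3 : (x : L) = -m := eq_neg_of_add_eq_zero_left h2
    rw [h3]
    exact K.neg_mem hm
  · intro hN x hx
    have hx1 : x ∈ L1 := fun m _ => hx m
    have h1 : π ⟨x, hx1⟩ = 0 := by
      refine hN _ ?_
      intro q
      obtain ⟨y, rfl⟩ := hsurj q
      rw [← LieHom.map_lie, hχ']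
      exact hx y
    rw [hker] at h1
    refine hnd x (hKM x h1) ?_
    intro y
    rw [← lie_skew, map_neg, hx y, neg_zero]

/-- the solvable ideal of small codimension passes to the reduction -/
theorem sol3_red (h3 : Sol3 k L) {f : L → L} {χ : Dual k L} {K : Submodule k L} {L' : Type}
    [LieRing L'] [LieAlgebra k L'] {f' : L' → L'} {χ' : Dual k L'}
    (D : RedData f χ K L' f' χ') (hdim : finrank k L' + 2 * finrank k K = finrank k L)
    (hdim1 : finrank k D.L1 + finrank k K = finrank k L) : Sol3 k L' := by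
  let L1 : LieSubalgebra k L := D.L1
  let π : L1 →ₗ⁅k⁆ L' := D.π
  have hsurj : Function.Surjective π := D.surj
  have hker : ∀ x : L1, π x = 0 ↔ (x : L) ∈ K := D.ker
  have hfin2 : finrank k L' + finrank k K = finrank k L1 := by
    have : finrank k L1 = finrank k D.L1 := rfl
    omega
  have : FiniteDimensional k L' := Module.Finite.of_surjective (π : L1 →ₗ[k] L') hsurj
  obtain ⟨I0, hI0, hI0d⟩ := h3
  let I1 : LieIdeal k L1 := I0.comap L1.incl
  have hI1 : ∀ x : L1, x ∈ I1 ↔ (x : L) ∈ I0 := fun x => LieIdeal.mem_comap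
  let I' : LieIdeal k L' :=
    { carrier := {q | ∃ x ∈ I1, π x = q}
      add_mem' := by
        rintro _ _ ⟨x, hx, rfl⟩ ⟨y, hy, rfl⟩
        exact ⟨x + y, add_mem hx hy, map_add _ _ _⟩
      zero_mem' := ⟨0, zero_mem _, map_zero _⟩
      smul_mem' := by
        rintro c _ ⟨x, hx, rfl⟩
        exact ⟨c • x, SMulMemClass.smul_mem c hx, map_smul _ _ _⟩
      lie_mem := by
        rintro q _ ⟨x, hx, rfl⟩
        obtain ⟨y, rfl⟩ := hsurj q
        exact ⟨⁅y, x⁆, lie_mem_right k L1 I1 y x hx, LieHom.map_lie _ _ _⟩ }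
  let g0 : I1 →ₗ⁅k⁆ I0 :=
    { toFun := fun x => ⟨((x : L1) : L), (hI1 x).mp x.2⟩
      map_add' := fun x y => rfl
      map_smul' := fun c x => rfl
      map_lie' := fun {x y} => rfl }
  have hg0 : Function.Injective g0 := by
    intro x y hxy
    have h1 : ((x : L1) : L) = ((y : L1) : L) := congrArg (fun t : I0 => (t : L)) hxy
    exact Subtype.ext (Subtype.ext h1)
  have hs1 : LieAlgebra.IsSolvable I1 := hg0.lieAlgebra_isSolvable
  let g1 : I1 →ₗ⁅k⁆ I' :=
    { toFun := fun x => ⟨π (x : L1), ⟨(x : L1), x.2, rfl⟩⟩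
      map_add' := fun x y => Subtype.ext (map_add π _ _)
      map_smul' := fun c x => Subtype.ext (map_smul π _ _)
      map_lie' := fun {x y} => Subtype.ext (LieHom.map_lie π _ _) }
  have hg1 : Function.Surjective g1 := by
    rintro ⟨_, ⟨x, hx, rfl⟩⟩
    exact ⟨⟨x, hx⟩, rfl⟩
  have hs2 : LieAlgebra.IsSolvable I' := hg1.lieAlgebra_isSolvable
  refine ⟨I', hs2, ?_⟩
  -- dimensions
  have d1 : finrank k L1 ≤ finrank k I1 + 3 := by
    let φ : L1 →ₗ[k] (L ⧸ I0.toSubmodule) := (I0.toSubmodule.mkQ).comp L1.toSubmodule.subtype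
    have e1 := LinearMap.finrank_range_add_finrank_ker φ
    have e2 : LinearMap.ker φ = I1.toSubmodule := by
      ext x
      rw [LinearMap.mem_ker]
      change Submodule.Quotient.mk (x : L) = 0 ↔ _
      rw [Submodule.Quotient.mk_eq_zero]
      exact (hI1 x).symm
    have e3 : finrank k (LinearMap.range φ) ≤ finrank k (L ⧸ I0.toSubmodule) :=
      Submodule.finrank_le _
    have e4 := Submodule.finrank_quotient_add_finrank I0.toSubmodule
    rw [e2] at e1
    have e5 : finrank k I1.toSubmodule = finrank k I1 := rfl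
    have e6 : finrank k I0.toSubmodule = finrank k I0 := rfl
    omega
  have d2 : finrank k I1 ≤ finrank k I' + finrank k K := by
    have e1 := LinearMap.finrank_range_add_finrank_ker (g1 : I1 →ₗ[k] I')
    have e2 : LinearMap.range (g1 : I1 →ₗ[k] I') = ⊤ := LinearMap.range_eq_top.mpr hg1
    rw [e2, finrank_top] at e1
    let ψ : LinearMap.ker (g1 : I1 →ₗ[k] I') →ₗ[k] K :=
      { toFun := fun x => ⟨(((x : I1) : L1) : L), by
          rw [← hker]
          have h1 := x.2
          rw [LinearMap.mem_ker] at h1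
          exact congrArg Subtype.val h1⟩
        map_add' := fun x y => rfl
        map_smul' := fun c x => rfl }
    have hψ : Function.Injective ψ := by
      intro x y hxy
      have h1 : ((((x : I1) : L1)) : L) = (((y : I1) : L1) : L) :=
        congrArg (fun t : K => (t : L)) hxy
      exact Subtype.ext (Subtype.ext (Subtype.ext h1))
    have e3 := LinearMap.finrank_le_finrank_of_injective hψ
    omega
  omega

theorem red (h3 : Sol3 k L) {f : L → L} (hf : Frz p k f) (χ : Dual k L) (M : LieIdeal k L)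
    (hM : ∀ x ∈ M, ∀ y ∈ M, ⁅x, y⁆ = 0) (hfM : ∀ m ∈ M, f m = 0)
    (hnd : ∀ m ∈ M, (∀ y : L, χ ⁅y, m⁆ = 0) → m = 0) (K : Submodule k L)
    (hK : ∀ m, m ∈ K ↔ m ∈ M ∧ χ m = 0) :
    ∃ (L' : Type) (_ : LieRing L') (_ : LieAlgebra k L') (f' : L' → L') (χ' : Dual k L')
      (D : RedData f χ K L' f' χ'), Frz p k f' ∧ FiniteDimensional k L' ∧
        Sol3 k L' ∧ finrank k L' + 2 * finrank k K = finrank k L ∧
        finrank k D.L1 + finrank k K = finrank k L ∧ (Nondeg χ → Nondeg χ') ∧
        (Nondeg χ' → Nondeg χ) := by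
  obtain ⟨L', i1, i2, f', χ', D, h1, h2, h4, h5, h6, h7⟩ := red0 hf χ M hM hfM hnd K hK
  exact ⟨L', i1, i2, f', χ', D, h1, h2, sol3_red h3 D h4 h5, h4, h5, h6, h7⟩

end Pool.Agent.SkG
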