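import Pool.Agent.Lib.SkG.Even

/-!
# Module Small: small quotients

`odd_of_no_abelian`: the solvable ideal of codimension at most three is zero (its last nonzero derived ideal
would be abelian), so `finrank L ≤ 3`, and `finrank L = 2` is impossible.
`L0_or_odd`: `L0 = {x : ⁅x,z⁆ = 0}`; every solvable ideal contained in `L0` lies in `H`, so
`e = finrank L0 - finrank H ≤ 3`; `e = 0`: `L0 = H`; `e = 1, 3`: `finrank L` is odd; `e = 2`: `⁅L0, L0⁆ ⊔ H` and
then `L0` are contained in `H`.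
-/

set_option linter.unusedSectionVars false

namespace Pool.Agent.SkG

open Module Pool.Agent.SkS

variable {k L : Type} [Field k] [LieRing L] [LieAlgebra k L] [FiniteDimensional k L]

/-- the last derived ideal of `C` not contained in `P` -/
private lemma last_der (P C : LieIdeal k L)
    (hs : ∃ N, LieAlgebra.derivedSeriesOfIdeal k L N C = ⊥) (h : ¬ C ≤ P) :
    ∃ B : LieIdeal k L, B ≤ C ∧ ¬ B ≤ P ∧ ⁅B, B⁆ ≤ P := by
  classical
  obtain ⟨N, hN⟩ := hs
  have hex : ∃ i, LieAlgebra.derivedSeriesOfIdeal k L i C ≤ P := ⟨N, by rw [hN]; exact bot_le⟩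
  have h0 : Nat.find hex ≠ 0 := by
    intro h0
    have := Nat.find_spec hex
    rw [h0, LieAlgebra.derivedSeriesOfIdeal_zero] at this
    exact h this
  obtain ⟨j, hj⟩ := Nat.exists_eq_succ_of_ne_zero h0
  refine ⟨LieAlgebra.derivedSeriesOfIdeal k L j C, ?_, ?_, ?_⟩
  · exact LieAlgebra.derivedSeriesOfIdeal_le_self C j
  · exact Nat.find_min hex (by omega)
  · have := Nat.find_spec hex
    rw [hj, LieAlgebra.derivedSeriesOfIdeal_succ] at this
    exact this

private lemma solv_of_le {I C : LieIdeal k L} (hI : LieAlgebra.IsSolvable I) (hCI : C ≤ I) :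
    ∃ N, LieAlgebra.derivedSeriesOfIdeal k L N C = ⊥ := by
  obtain ⟨N, hN⟩ := LieAlgebra.IsSolvable.solvable k I
  refine ⟨N, ?_⟩
  have h1 : LieAlgebra.derivedSeriesOfIdeal k L N I = ⊥ :=
    (LieIdeal.derivedSeries_eq_bot_iff I N).mp hN
  rw [eq_bot_iff, ← h1]
  exact LieAlgebra.derivedSeriesOfIdeal_mono hCI N

theorem odd_of_no_abelian (h3 : Sol3 k L)
    (hno : ∀ M : LieIdeal k L, (∀ x ∈ M, ∀ y ∈ M, ⁅x, y⁆ = 0) → ∀ x ∈ M, x = 0) :
    finrank k L = 0 ∨ Odd (finrank k L) := by
  obtain ⟨I, hI, hdim⟩ := h3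
  have hI0 : I ≤ ⊥ := by
    by_contra hcon
    obtain ⟨B, -, hB, hBB⟩ := last_der ⊥ I (solv_of_le hI le_rfl) hcon
    apply hB
    intro x hx
    rw [LieSubmodule.mem_bot]
    refine hno B (fun u hu v hv => ?_) x hx
    have h1 : ⁅u, v⁆ ∈ ⁅B, B⁆ := LieSubmodule.lie_mem_lie hu hv
    exact (LieSubmodule.mem_bot _).mp (hBB h1)
  have hI1 : I = ⊥ := le_bot_iff.mp hI0
  have hI2 : finrank k I = 0 := by
    rw [hI1]
    exact finrank_bot k L
  have hle : finrank k L ≤ 3 := by omega
  have h2 : finrank k L ≠ 2 := by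
    intro h2
    let b := finBasisOfFinrankEq k L h2
    have hrep : ∀ u : L, u = (b.repr u 0) • b 0 + (b.repr u 1) • b 1 := by
      intro u
      have := b.sum_repr u
      rw [Fin.sum_univ_two] at this
      exact this.symm
    have hbr : ∀ u v : L, ∃ c : k, ⁅u, v⁆ = c • ⁅b 0, b 1⁆ := by
      intro u v
      refine ⟨(b.repr u 0) * (b.repr v 1) - (b.repr u 1) * (b.repr v 0), ?_⟩
      conv_lhs => rw [hrep u, hrep v]
      have hsk : ⁅b 1, b 0⁆ = -⁅b 0, b 1⁆ := (lie_skew _ _).symm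
      simp only [add_lie, lie_add, smul_lie, lie_smul, lie_self, smul_zero, zero_add, add_zero, hsk,
        smul_neg, smul_smul, sub_smul]
      rw [mul_comm (b.repr v 1) (b.repr u 0), mul_comm (b.repr v 0) (b.repr u 1)]
      abel
    let M : LieIdeal k L :=
      { (Submodule.span k {⁅b 0, b 1⁆}) with
        lie_mem := by
          intro x m _
          obtain ⟨c, hc⟩ := hbr x m
          show ⁅x, m⁆ ∈ Submodule.span k {⁅b 0, b 1⁆}
          rw [hc]
          exact Submodule.smul_mem _ _ (Submodule.mem_span_singleton_self _) }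
    have hM : ∀ x, x ∈ M ↔ ∃ c : k, c • ⁅b 0, b 1⁆ = x := fun x => Submodule.mem_span_singleton
    have hw : ⁅b 0, b 1⁆ = 0 := by
      refine hno M ?_ _ ((hM _).mpr ⟨1, one_smul _ _⟩)
      intro x hx y hy
      obtain ⟨c, rfl⟩ := (hM _).mp hx
      obtain ⟨d, rfl⟩ := (hM _).mp hy
      rw [smul_lie, lie_smul, lie_self, smul_zero, smul_zero]
    have hb0 : b 0 = 0 := by
      refine hno ⊤ ?_ _ (LieSubmodule.mem_top _)
      intro x _ y _
      obtain ⟨c, hc⟩ := hbr x y
      rw [hc, hw, smul_zero]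
    exact b.ne_zero 0 hb0
  have h4 : finrank k L = 0 ∨ finrank k L = 1 ∨ finrank k L = 3 := by omega
  rcases h4 with h | h | h
  · exact Or.inl h
  · right; rw [h]; decide
  · right; rw [h]; decide

theorem L0_or_odd (h3 : Sol3 k L) {f : L → L} {χ : Dual k L} {z : L} {H : LieIdeal k L}
    (hc : Cfg f χ z H)
    (hcore : ∀ A : LieIdeal k L, (∀ a ∈ A, ⁅a, z⁆ = 0) → (∀ a ∈ A, ∀ b ∈ A, ⁅a, b⁆ ∈ H) → A ≤ H) :
    (∀ x : L, ⁅x, z⁆ = 0 → x ∈ H) ∨ Odd (finrank k L) := by
  obtain ⟨I, hI, hdim⟩ := h3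
  -- the ideal `L0`
  let μ : L →ₗ[k] k :=
    { toFun := fun x => χ ⁅x, z⁆
      map_add' := fun x y => by rw [add_lie, map_add]
      map_smul' := fun c x => by rw [smul_lie, map_smul]; rfl }
  have hμ : ∀ x, ⁅x, z⁆ = μ x • z := by
    intro x
    obtain ⟨c, hcc⟩ := hc.eig x
    show ⁅x, z⁆ = χ ⁅x, z⁆ • z
    rw [hcc, map_smul, hc.χz, smul_eq_mul, mul_one]
  let L0 : LieIdeal k L :=
    { LinearMap.ker μ with
      lie_mem := by
        intro x m hm
        have hm' : μ m = 0 := hm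
        show χ ⁅⁅x, m⁆, z⁆ = 0
        rw [lie_lie, hμ m, hμ x, hm', zero_smul, lie_zero, lie_smul, hμ m, hm', zero_smul,
          smul_zero, sub_zero, map_zero] }
  have hL0 : ∀ x, x ∈ L0 ↔ ⁅x, z⁆ = 0 := by
    intro x
    constructor
    · intro hx
      have hx' : μ x = 0 := hx
      rw [hμ x, hx', zero_smul]
    · intro hx
      show χ ⁅x, z⁆ = 0
      rw [hx, map_zero]
  have hsurj : LinearMap.range μ = ⊤ := by
    rw [LinearMap.range_eq_top]
    intro c
    obtain ⟨T, hT⟩ := hc.ex_T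
    refine ⟨c • T, ?_⟩
    rw [map_smul]
    show c • χ ⁅T, z⁆ = c
    rw [hT, hc.χz, smul_eq_mul, mul_one]
  have hrk := LinearMap.finrank_range_add_finrank_ker μ
  rw [hsurj, finrank_top, Module.finrank_self] at hrk
  have hrk' : 1 + finrank k L0.toSubmodule = finrank k L := hrk
  have hHL : H.toSubmodule ≤ L0.toSubmodule := fun h hh => (hL0 h).mpr (hc.H_cent h hh)
  have hA : ∀ A : LieIdeal k L, A ≤ L0 → (∀ a ∈ A, ∀ b ∈ A, ⁅a, b⁆ ∈ H) → A ≤ H :=
    fun A h1 h2 => hcore A (fun a ha => (hL0 a).mp (h1 ha)) h2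
  have hC : I ⊓ L0 ≤ H := by
    by_contra hcon
    obtain ⟨B, hB1, hB2, hB3⟩ := last_der H (I ⊓ L0) (solv_of_le hI inf_le_left) hcon
    apply hB2
    refine hA B (hB1.trans inf_le_right) (fun a ha b hb => hB3 (LieSubmodule.lie_mem_lie ha hb))
  have hC' : finrank k (I.toSubmodule ⊓ L0.toSubmodule : Submodule k L) ≤ finrank k H.toSubmodule :=
    Submodule.finrank_mono (fun x hx => hC hx)
  have hsup := Submodule.finrank_sup_add_finrank_inf_eq I.toSubmodule L0.toSubmodule
  have htop : finrank k (I.toSubmodule ⊔ L0.toSubmodule : Submodule k L) ≤ finrank k L :=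
    Submodule.finrank_le _
  have hdim' : finrank k L ≤ finrank k I.toSubmodule + 3 := hdim
  have hHle : finrank k H.toSubmodule ≤ finrank k L0.toSubmodule := Submodule.finrank_mono hHL
  have hodd : Odd (finrank k H.toSubmodule) := odd_H hc
  have hcases : finrank k L0.toSubmodule = finrank k H.toSubmodule ∨
      finrank k L = finrank k H.toSubmodule + 2 ∨ finrank k L = finrank k H.toSubmodule + 4 ∨
      finrank k L0.toSubmodule = finrank k H.toSubmodule + 2 := by omega
  rcases hcases with h | h | h | h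
  · left
    intro x hx
    have h1 : H.toSubmodule = L0.toSubmodule := Submodule.eq_of_le_of_finrank_le hHL (le_of_eq h)
    have h2 : x ∈ L0.toSubmodule := (hL0 x).mpr hx
    rw [← h1] at h2
    exact h2
  · right
    rw [h]
    exact hodd.add_even (by decide)
  · right
    rw [h]
    exact hodd.add_even (by decide)
  · left
    -- `L0 = H + k x + k y`
    obtain ⟨x, hx, hxH⟩ : ∃ x ∈ L0.toSubmodule, x ∉ H.toSubmodule := by
      by_contra hcon
      push Not at hcon
      have := Submodule.finrank_mono (R := k) hcon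
      omega
    have hlt1 : H.toSubmodule < H.toSubmodule ⊔ Submodule.span k {x} := by
      refine lt_of_le_of_ne le_sup_left (fun he => hxH ?_)
      rw [he]
      exact Submodule.mem_sup_right (Submodule.mem_span_singleton_self x)
    have hx0 : x ≠ 0 := fun h0 => hxH (by rw [h0]; exact H.toSubmodule.zero_mem)
    have hspx : finrank k (Submodule.span k {x}) ≤ 1 := (finrank_span_singleton hx0).le
    have hsx : finrank k (H.toSubmodule ⊔ Submodule.span k {x} : Submodule k L) ≤
        finrank k H.toSubmodule + 1 :=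
      (Submodule.finrank_add_le_finrank_add_finrank _ _).trans (Nat.add_le_add_left hspx _)
    obtain ⟨y, hy, hyH⟩ : ∃ y ∈ L0.toSubmodule, y ∉ H.toSubmodule ⊔ Submodule.span k {x} := by
      by_contra hcon
      push Not at hcon
      have := Submodule.finrank_mono (R := k) hcon
      omega
    have hlt2 : H.toSubmodule ⊔ Submodule.span k {x} <
        H.toSubmodule ⊔ Submodule.span k {x} ⊔ Submodule.span k {y} := by
      refine lt_of_le_of_ne le_sup_left (fun he => hyH ?_)
      rw [he]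
      exact Submodule.mem_sup_right (Submodule.mem_span_singleton_self y)
    have hf1 := Submodule.finrank_lt_finrank_of_lt hlt1
    have hf2 := Submodule.finrank_lt_finrank_of_lt hlt2
    have hle : H.toSubmodule ⊔ Submodule.span k {x} ⊔ Submodule.span k {y} ≤ L0.toSubmodule := by
      refine sup_le (sup_le hHL ?_) ?_
      · rw [Submodule.span_singleton_le_iff_mem]; exact hx
      · rw [Submodule.span_singleton_le_iff_mem]; exact hy
    have heq : H.toSubmodule ⊔ Submodule.span k {x} ⊔ Submodule.span k {y} = L0.toSubmodule :=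
      Submodule.eq_of_le_of_finrank_le hle (by omega)
    have hrep : ∀ u ∈ L0, ∃ (a b : k) (h' : L), h' ∈ H ∧ u = h' + a • x + b • y := by
      intro u hu
      have hu' : u ∈ L0.toSubmodule := hu
      rw [← heq, Submodule.mem_sup] at hu'
      obtain ⟨v, hv, w, hw, rfl⟩ := hu'
      rw [Submodule.mem_sup] at hv
      obtain ⟨h', hh', v', hv', rfl⟩ := hv
      obtain ⟨a, rfl⟩ := Submodule.mem_span_singleton.mp hv'
      obtain ⟨b, rfl⟩ := Submodule.mem_span_singleton.mp hw
      exact ⟨a, b, h', hh', rfl⟩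
    have hHl : ∀ u v : L, u ∈ H → ⁅u, v⁆ ∈ H := fun u v hu => by
      rw [← lie_skew]
      exact H.neg_mem (H.lie_mem hu)
    have hHr : ∀ u v : L, v ∈ H → ⁅u, v⁆ ∈ H := fun u v hv => H.lie_mem hv
    have hbr : ∀ u ∈ L0, ∀ v ∈ L0, ∃ c : k, ⁅u, v⁆ - c • ⁅x, y⁆ ∈ H := by
      intro u hu v hv
      obtain ⟨a, b, h1, hh1, rfl⟩ := hrep u hu
      obtain ⟨a', b', h2, hh2, rfl⟩ := hrep v hv
      refine ⟨a * b' - b * a', ?_⟩
      have hsk : ⁅y, x⁆ = -⁅x, y⁆ := (lie_skew _ _).symm
      have e : ⁅h1 + a • x + b • y, h2 + a' • x + b' • y⁆ - (a * b' - b * a') • ⁅x, y⁆ =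
          ⁅h1, h2 + a' • x + b' • y⁆ + ⁅a • x + b • y, h2⁆ := by
        simp only [add_lie, lie_add, smul_lie, lie_smul, lie_self, hsk]
        module
      rw [e]
      exact H.add_mem (hHl _ _ hh1) (hHr _ _ hh2)
    have hcomm : ⁅L0, L0⁆ ≤ H := by
      have hD : ⁅L0, L0⁆ ⊔ H ≤ H := by
        have hDrep : ∀ u ∈ ⁅L0, L0⁆ ⊔ H, ∃ c : k, u - c • ⁅x, y⁆ ∈ H := by
          let P : Submodule k L := H.toSubmodule ⊔ Submodule.span k {⁅x, y⁆}
          have hP : ∀ u ∈ P, ∃ c : k, u - c • ⁅x, y⁆ ∈ H := by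
            intro u hu
            obtain ⟨h', hh', w, hw, rfl⟩ := Submodule.mem_sup.mp hu
            obtain ⟨c, rfl⟩ := Submodule.mem_span_singleton.mp hw
            exact ⟨c, by rw [add_sub_cancel_right]; exact hh'⟩
          have hLP : (⁅L0, L0⁆ : LieIdeal k L).toSubmodule ≤ P := by
            rw [LieSubmodule.lieIdeal_oper_eq_linear_span', Submodule.span_le]
            rintro _ ⟨u, hu, v, hv, rfl⟩
            obtain ⟨c, hcc⟩ := hbr u hu v hv
            have e : ⁅u, v⁆ = (⁅u, v⁆ - c • ⁅x, y⁆) + c • ⁅x, y⁆ := by abel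
            show ⁅u, v⁆ ∈ P
            rw [e]
            exact Submodule.add_mem_sup hcc
              (Submodule.smul_mem _ _ (Submodule.mem_span_singleton_self _))
          intro u hu
          apply hP
          have hu' : u ∈ (⁅L0, L0⁆ ⊔ H : LieIdeal k L).toSubmodule := hu
          rw [LieSubmodule.sup_toSubmodule] at hu'
          exact (sup_le hLP le_sup_left) hu'
        refine hA _ (sup_le (LieSubmodule.lie_le_left _ _) (fun u hu => hHL hu)) ?_
        intro u hu v hv
        obtain ⟨c, hcc⟩ := hDrep u hu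
        obtain ⟨d, hd⟩ := hDrep v hv
        have e : ⁅u, v⁆ = ⁅u - c • ⁅x, y⁆, v⁆ + ⁅c • ⁅x, y⁆, v - d • ⁅x, y⁆⁆ := by
          simp only [sub_lie, lie_sub, smul_lie, lie_smul, lie_self, smul_zero, sub_zero]
          abel
        rw [e]
        exact H.add_mem (hHl _ _ hcc) (hHr _ _ hd)
      exact le_sup_left.trans hD
    intro u hu
    exact hA L0 le_rfl (fun a ha b hb => hcomm (LieSubmodule.lie_mem_lie ha hb)) ((hL0 u).mpr hu)

end Pool.Agent.SkG
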