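import Pool.Agent.Lib.SkG.Dec

/-!
# Module Str1 (general p; adapt SkS/Str1): existence of the Heisenberg configuration

`H_max` is now literally the maximality: for `B` as in `H_max`, `H ⊔ B` is in the family, so `B ≤ H`.
`f_mem`: for `h ∈ H`: `⁅h, y⁆ ∈ H`, `⁅h,⁅h,y⁆⁆ ∈ k z`, `⁅h, z⁆ = 0`, so `⁅f h, y⁆ = (ad h)^p y ∈ k z` for all `y ∈ L`.  Let `Q = {x : ⁅x, z⁆ = 0 and ⁅x, y⁆ ∈ k z for all y}`: an ideal of `L`
satisfying the hypotheses of `H_max`, so `Q ≤ H` and `f h ∈ H`; `⁅f h, h'⁆ = (ad h)^p h' = 0` for `h' ∈ H` (`p ≥ 2`), so `f h ∈ k z` by `H_nd`.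
-/

namespace Pool.Agent.SkG

open Module Pool.Agent.SkS

variable {k L : Type} [Field k] {p : ℕ} [Fact p.Prime] [LieRing L] [LieAlgebra k L]
  [FiniteDimensional k L]

/-- a subspace of dimension at most one containing `z ≠ 0` is `k z` -/
private lemma eq_smul_of_finrank_le_one (M : Submodule k L) (hM : finrank k M ≤ 1) {z : L}
    (hz : z ∈ M) (hz0 : z ≠ 0) {x : L} (hx : x ∈ M) : ∃ c : k, x = c • z := by
  have h1 : Submodule.span k {z} ≤ M := by
    rw [Submodule.span_singleton_le_iff_mem]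
    exact hz
  have h2 : Submodule.span k {z} = M := by
    apply Submodule.eq_of_le_of_finrank_le h1
    rw [finrank_span_singleton hz0]
    exact hM
  rw [← h2] at hx
  obtain ⟨c, hc⟩ := Submodule.mem_span_singleton.mp hx
  exact ⟨c, hc.symm⟩

theorem exists_cfg {f : L → L} (hf : Rst p k f)
    (hab : AbOne k L) (hcen : ∀ c : L, (∀ y : L, ⁅c, y⁆ = 0) → c = 0) (χ : Dual k L)
    (hnd : ∀ M : LieIdeal k L, (∀ x ∈ M, ∀ y ∈ M, ⁅x, y⁆ = 0) →
      ∀ m ∈ M, (∀ y : L, χ ⁅y, m⁆ = 0) → m = 0)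
    (M : LieIdeal k L) (hM : ∀ x ∈ M, ∀ y ∈ M, ⁅x, y⁆ = 0) (z1 : L) (hz1 : z1 ∈ M) (hz10 : z1 ≠ 0) :
    ∃ (z : L) (H : LieIdeal k L), Cfg f χ z H := by
  classical
  set B := M with hBdef
  have hBab := hM
  have hB1 : finrank k B ≤ 1 := hab B hBab
  have hBz : ∀ x ∈ B, ∃ c : k, x = c • z1 := fun x hx =>
    eq_smul_of_finrank_le_one (B : Submodule k L) hB1 hz1 hz10 hx
  have hχ1 : χ z1 ≠ 0 := by
    intro h0
    apply hz10
    apply hnd B hBab z1 hz1
    intro y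
    obtain ⟨c, hc⟩ := hBz _ (lie_mem_right k L B y z1 hz1)
    rw [hc, map_smul, h0, smul_zero]
  obtain ⟨T1, c1, hT1, hc1⟩ : ∃ (T1 : L) (c1 : k), ⁅T1, z1⁆ = c1 • z1 ∧ c1 ≠ 0 := by
    by_contra hcon
    push Not at hcon
    apply hz10
    apply hcen
    intro y
    obtain ⟨c, hc⟩ := hBz _ (lie_mem_right k L B y z1 hz1)
    rw [← lie_skew, hc, hcon y c hc, zero_smul, neg_zero]
  set z : L := (χ z1)⁻¹ • z1 with hz
  have hz0 : z ≠ 0 := smul_ne_zero (inv_ne_zero hχ1) hz10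
  have hzB : z ∈ B := B.smul_mem _ hz1
  have hχz : χ z = 1 := by rw [hz, map_smul, smul_eq_mul, inv_mul_cancel₀ hχ1]
  have hBz' : ∀ x ∈ B, ∃ c : k, x = c • z := fun x hx =>
    eq_smul_of_finrank_le_one (B : Submodule k L) hB1 hzB hz0 hx
  have heig : ∀ y : L, ∃ c : k, ⁅y, z⁆ = c • z := fun y =>
    hBz' _ (lie_mem_right k L B y z hzB)
  have hp2 : ∃ q, p = q + 2 := ⟨p - 2, by have := (Fact.out : p.Prime).two_le; omega⟩
  have hfz : f z = 0 := by
    apply hcen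
    intro y
    obtain ⟨c, hc⟩ := heig y
    obtain ⟨q, hq⟩ := hp2
    rw [hf.ad, hq, Function.iterate_add_apply]
    have h1 : (fun w => ⁅z, w⁆)^[2] y = 0 := by
      change ⁅z, ⁅z, y⁆⁆ = 0
      rw [← lie_skew z y, hc, lie_neg, lie_smul, lie_self, smul_zero, neg_zero]
    rw [h1]
    exact Function.iterate_fixed (lie_zero z) q
  -- the family of ideals
  let S : Set (LieIdeal k L) := {H' | z ∈ H' ∧ (∀ h ∈ H', ⁅h, z⁆ = 0) ∧
    ∀ h ∈ H', ∀ h' ∈ H', ∃ c : k, ⁅h, h'⁆ = c • z}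
  have hSne : S.Nonempty := by
    refine ⟨B, hzB, fun h hh => hBab h hh z hzB, fun h hh h' hh' => ⟨0, ?_⟩⟩
    rw [hBab h hh h' hh', zero_smul]
  have hwf : WellFounded ((· > ·) : LieIdeal k L → LieIdeal k L → Prop) := wellFounded_gt
  obtain ⟨H, ⟨hzH, hHz, hHH⟩, hHmax⟩ := hwf.has_min S hSne
  have hBH : B ≤ H := by
    intro x hx
    obtain ⟨c, rfl⟩ := hBz' x hx
    exact H.smul_mem c hzH
  -- the centraliser of `H`
  let C : LieIdeal k L :=
    { carrier := {x | ∀ h ∈ H, ⁅x, h⁆ = 0}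
      add_mem' := by
        intro a b ha hb h hh
        rw [add_lie, ha h hh, hb h hh, add_zero]
      zero_mem' := by
        intro h _
        rw [zero_lie]
      smul_mem' := by
        intro c a ha h hh
        rw [smul_lie, ha h hh, smul_zero]
      lie_mem := by
        intro y x hx h hh
        have hx' : ∀ h ∈ H, ⁅x, h⁆ = 0 := hx
        rw [lie_lie, hx' h hh, lie_zero, zero_sub, hx' _ (lie_mem_right k L H y h hh), neg_zero] }
  have hCmem : ∀ x, x ∈ C ↔ ∀ h ∈ H, ⁅x, h⁆ = 0 := fun x => Iff.rfl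
  have hHnd : ∀ h ∈ H, (∀ h' ∈ H, ⁅h, h'⁆ = 0) → ∃ c : k, h = c • z := by
    intro h hh hh'
    have habN : ∀ x ∈ (H ⊓ C : LieIdeal k L), ∀ y ∈ (H ⊓ C : LieIdeal k L), ⁅x, y⁆ = 0 := by
      intro x hx y hy
      rw [LieSubmodule.mem_inf] at hx hy
      exact (hCmem x).mp hx.2 y hy.1
    have h1 := hab _ habN
    have hzN : z ∈ (H ⊓ C : LieIdeal k L) := by
      rw [LieSubmodule.mem_inf]
      refine ⟨hzH, ?_⟩
      rw [hCmem]
      intro h hh
      rw [← lie_skew, hHz h hh, neg_zero]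
    have hhN : h ∈ (H ⊓ C : LieIdeal k L) := by
      rw [LieSubmodule.mem_inf]
      exact ⟨hh, hh'⟩
    exact eq_smul_of_finrank_le_one ((H ⊓ C : LieIdeal k L) : Submodule k L) h1 hzN hz0 hhN
  have hHmax' : ∀ B' : LieIdeal k L, (∀ b ∈ B', ⁅b, z⁆ = 0) →
      (∀ b ∈ B', ∀ h ∈ H, ∃ c : k, ⁅b, h⁆ = c • z) →
      (∀ b ∈ B', ∀ b' ∈ B', ∃ c : k, ⁅b, b'⁆ = c • z) → B' ≤ H := by
    intro B' hB'z hB'H hB'B'
    have hmem : H ⊔ B' ∈ S := by
      refine ⟨(le_sup_left : H ≤ H ⊔ B') hzH, ?_, ?_⟩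
      · intro h hh
        obtain ⟨a, ha, b, hb, rfl⟩ := (LieSubmodule.mem_sup _ _ _).mp hh
        rw [add_lie, hHz a ha, hB'z b hb, add_zero]
      · intro h hh h' hh'
        obtain ⟨a, ha, b, hb, rfl⟩ := (LieSubmodule.mem_sup _ _ _).mp hh
        obtain ⟨a', ha', b', hb', rfl⟩ := (LieSubmodule.mem_sup _ _ _).mp hh'
        obtain ⟨c1, hc1⟩ := hHH a ha a' ha'
        obtain ⟨c2, hc2⟩ := hB'B' b hb b' hb'
        obtain ⟨c3, hc3⟩ := hB'H b hb a' ha'
        obtain ⟨c4, hc4⟩ := hB'H b' hb' a ha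
        refine ⟨c1 + c2 + c3 - c4, ?_⟩
        rw [add_lie, lie_add, lie_add, hc1, hc3, hc2, ← lie_skew a b', hc4, sub_smul, add_smul,
          add_smul]
        abel
    have hle : H ⊔ B' ≤ H := by
      by_contra hlt
      exact hHmax _ hmem (lt_of_le_of_ne le_sup_left (fun he => hlt he.ge))
    exact le_sup_right.trans hle
  -- the ideal `Q`
  let Q : LieIdeal k L :=
    { carrier := {x | ⁅x, z⁆ = 0 ∧ ∀ y : L, ∃ c : k, ⁅x, y⁆ = c • z}
      add_mem' := by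
        rintro a b ⟨ha, ha'⟩ ⟨hb, hb'⟩
        refine ⟨by rw [add_lie, ha, hb, add_zero], fun y => ?_⟩
        obtain ⟨c, hc⟩ := ha' y
        obtain ⟨c', hc'⟩ := hb' y
        exact ⟨c + c', by rw [add_lie, hc, hc', add_smul]⟩
      zero_mem' := ⟨zero_lie z, fun y => ⟨0, by rw [zero_lie, zero_smul]⟩⟩
      smul_mem' := by
        rintro c a ⟨ha, ha'⟩
        refine ⟨by rw [smul_lie, ha, smul_zero], fun y => ?_⟩
        obtain ⟨c', hc'⟩ := ha' y
        exact ⟨c * c', by rw [smul_lie, hc', smul_smul]⟩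
      lie_mem := by
        rintro w x ⟨hx, hx'⟩
        refine ⟨?_, fun y => ?_⟩
        · obtain ⟨c, hc⟩ := heig w
          rw [lie_lie, hx, lie_zero, zero_sub, hc, lie_smul, hx, smul_zero, neg_zero]
        · obtain ⟨c, hc⟩ := hx' y
          obtain ⟨c', hc'⟩ := hx' ⁅w, y⁆
          obtain ⟨c'', hc''⟩ := heig w
          exact ⟨c * c'' - c', by rw [lie_lie, hc, hc', lie_smul, hc'', smul_smul, sub_smul]⟩ }
  have hQmem : ∀ x, x ∈ Q ↔ ⁅x, z⁆ = 0 ∧ ∀ y : L, ∃ c : k, ⁅x, y⁆ = c • z := fun x => Iff.rfl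
  have hQH : Q ≤ H := by
    apply hHmax'
    · intro b hb
      exact ((hQmem b).mp hb).1
    · intro b hb h _
      exact ((hQmem b).mp hb).2 h
    · intro b hb b' _
      exact ((hQmem b).mp hb).2 b'
  refine ⟨z, H, ?_⟩
  refine
    { z_ne := hz0
      χz := hχz
      ex_T := ⟨c1⁻¹ • T1, ?_⟩
      fz := hfz
      eig := heig
      z_mem := hzH
      H_cent := hHz
      H_comm := hHH
      H_nd := hHnd
      H_max := hHmax'
      f_mem := ?_ }
  · rw [hz, lie_smul, smul_lie, hT1, smul_smul c1⁻¹, inv_mul_cancel₀ hc1, one_smul]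
  · intro h hh
    obtain ⟨q, hq⟩ := hp2
    have hiter : ∀ (n : ℕ) (c : k), (fun w => ⁅h, w⁆)^[n + 1] (c • z) = 0 := by
      intro n c
      rw [Function.iterate_succ_apply]
      have : ⁅h, c • z⁆ = 0 := by rw [lie_smul, hHz h hh, smul_zero]
      simp only [this]
      exact Function.iterate_fixed (lie_zero h) n
    have hQ : f h ∈ Q := by
      rw [hQmem]
      refine ⟨?_, fun y => ?_⟩
      · rw [hf.ad, hq, Function.iterate_succ_apply]
        simp only [hHz h hh]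
        exact Function.iterate_fixed (lie_zero h) (q + 1)
      · obtain ⟨c, hc⟩ := hHH h hh ⁅h, y⁆ (lie_mem_left k L H h y hh)
        rw [hf.ad, hq, Function.iterate_add_apply]
        have h1 : (fun w => ⁅h, w⁆)^[2] y = c • z := hc
        rw [h1]
        rcases q with _ | q
        · exact ⟨c, rfl⟩
        · exact ⟨0, by rw [hiter q c, zero_smul]⟩
    refine hHnd (f h) (hQH hQ) (fun h' hh' => ?_)
    obtain ⟨c, hc⟩ := hHH h hh h' hh'
    rw [hf.ad, hq, Function.iterate_succ_apply]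
    simp only [hc]
    exact hiter q c

end Pool.Agent.SkG
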