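import Pool.Agent.Lib.SkG.Dec
import Pool.Agent.Lib.SkG.Tor
import Pool.Agent.Lib.SkS.Burn

/-!
# Module Str2 (general p; adapt SkS/Str2): the core of the structure theorem

Now `A` is a given ideal with `A ≤ L0 = C(z)` and `⁅A, A⁆ ≤ H` (replace it by `A ⊔ H` if you want `H ≤ A`); no solvability of `L`, and `H_max` is only available in the new form.
For `x ∈ A` with `InR x` and `y` with `InR y`: `⁅x,⁅x,y⁆⁆ ∈ k z`, `⁅x, z⁆ = 0`, so `⁅f x, y⁆ = (ad x)^p y ∈ k z` and `⁅f (f x), y⁆ = (ad (f x))^p y = 0` (`p ≥ 2`).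
As before: no toral elements, so `ad x` is nilpotent; `H1`, `H2`, common kernel; conclusion `⁅a, h⁆ ∈ k z` for all `a ∈ A`, `h ∈ H`.
End (new): `CA = {a ∈ A : ⁅a, h⁆ = 0 for all h ∈ H}` is an ideal of `L`, `⁅CA, CA⁆ ⊆ H` and centralises `H`, so `⁅CA, CA⁆ ⊆ k z` by `H_nd`; so `CA ≤ H` by `H_max`.  For `a ∈ A`:
`exists_dual` with `ξ = χ ⁅a, ·⁆` gives `h0 ∈ H` with `χ ⁅h0, h⁆ = χ ⁅a, h⁆`, both brackets in `k z`, so `⁅a - h0, H⁆ = 0`, `a - h0 ∈ C_{A ⊔ H}(H)`; so (working with `A ⊔ H` in place of `A`) `a ∈ H`.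
-/

namespace Pool.Agent.SkG

open Module Pool.Agent.SkS

variable {k L : Type} [Field k] {p : ℕ} [Fact p.Prime] [CharP k p] [IsAlgClosed k] [LieRing L]
  [LieAlgebra k L] [FiniteDimensional k L]

/-- elements of `H` bracketing `A` to `k z` -/
private def idH1 (z : L) (hz : ∀ y : L, ∃ c : k, ⁅y, z⁆ = c • z) (H A : LieIdeal k L) :
    LieIdeal k L where
  carrier := {h | h ∈ H ∧ ∀ a ∈ A, ∃ c : k, ⁅a, h⁆ = c • z}
  add_mem' {x y} hx hy := by
    refine ⟨H.add_mem hx.1 hy.1, fun a ha => ?_⟩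
    obtain ⟨c, hc⟩ := hx.2 a ha
    obtain ⟨d, hd⟩ := hy.2 a ha
    exact ⟨c + d, by rw [lie_add, hc, hd, add_smul]⟩
  zero_mem' := ⟨H.zero_mem, fun a _ => ⟨0, by rw [lie_zero, zero_smul]⟩⟩
  smul_mem' e x hx := by
    refine ⟨H.smul_mem e hx.1, fun a ha => ?_⟩
    obtain ⟨c, hc⟩ := hx.2 a ha
    exact ⟨e * c, by rw [lie_smul, hc, smul_smul]⟩
  lie_mem {y x} hx := by
    refine ⟨lie_mem_right k L H y x hx.1, fun a ha => ?_⟩
    obtain ⟨c, hc⟩ := hx.2 a ha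
    obtain ⟨d, hd⟩ := hx.2 ⁅a, y⁆ (lie_mem_left k L A a y ha)
    obtain ⟨e, he⟩ := hz y
    refine ⟨d + c * e, ?_⟩
    rw [leibniz_lie, hd, hc, lie_smul, he, smul_smul, add_smul]

/-- elements of `H` commuting with the ideal `B` -/
private def idH2 (H B : LieIdeal k L) : LieIdeal k L where
  carrier := {h | h ∈ H ∧ ∀ b ∈ B, ⁅h, b⁆ = 0}
  add_mem' {x y} hx hy := by
    refine ⟨H.add_mem hx.1 hy.1, fun b hb => ?_⟩
    rw [add_lie, hx.2 b hb, hy.2 b hb, add_zero]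
  zero_mem' := ⟨H.zero_mem, fun b _ => zero_lie b⟩
  smul_mem' e x hx := by
    refine ⟨H.smul_mem e hx.1, fun b hb => ?_⟩
    rw [smul_lie, hx.2 b hb, smul_zero]
  lie_mem {y x} hx := by
    refine ⟨lie_mem_right k L H y x hx.1, fun b hb => ?_⟩
    rw [lie_lie, hx.2 b hb, hx.2 _ (lie_mem_right k L B y b hb), lie_zero, sub_zero]

omit [Fact p.Prime] [CharP k p] [IsAlgClosed k] in
/-- an abelian ideal containing `z ≠ 0` is `k z` -/
private lemma ab_eq (hab : AbOne k L) {z : L} (hz : z ≠ 0) (M : LieIdeal k L)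
    (hM : ∀ x ∈ M, ∀ y ∈ M, ⁅x, y⁆ = 0) (hzM : z ∈ M) : ∀ x ∈ M, ∃ c : k, x = c • z := by
  intro x hx
  have h1 := hab M hM
  have h2 : Submodule.span k {z} ≤ (M : Submodule k L) := by
    rw [Submodule.span_singleton_le_iff_mem]
    exact hzM
  have h3 : Submodule.span k {z} = (M : Submodule k L) := by
    apply Submodule.eq_of_le_of_finrank_le h2
    rw [finrank_span_singleton hz]
    exact h1
  have h4 : x ∈ Submodule.span k {z} := by
    rw [h3]
    exact hx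
  obtain ⟨c, hc⟩ := Submodule.mem_span_singleton.mp h4
  exact ⟨c, hc.symm⟩

omit [IsAlgClosed k] [CharP k p] [FiniteDimensional k L] [Fact p.Prime] in
private lemma ad_pow {f : L → L} (hf : Rst p k f) (x : L) (j : ℕ) :
    LieAlgebra.ad k L (f^[j] x) = (LieAlgebra.ad k L x) ^ (p ^ j) := by
  induction j with
  | zero => simp
  | succ j ih =>
    rw [Function.iterate_succ_apply']
    have h1 : ∀ u : L, LieAlgebra.ad k L (f u) = (LieAlgebra.ad k L u) ^ p := by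
      intro u
      ext y
      rw [LieAlgebra.ad_apply, hf.ad, Module.End.pow_apply]
      rfl
    rw [h1, ih, ← pow_mul, pow_succ]

omit [IsAlgClosed k] [CharP k p] [FiniteDimensional k L] [Fact p.Prime] in
private lemma it_zero (x : L) (n : ℕ) : (fun w => ⁅x, w⁆)^[n] (0 : L) = 0 := by
  induction n with
  | zero => rfl
  | succ n ih =>
    rw [Function.iterate_succ_apply, lie_zero, ih]

omit [IsAlgClosed k] [CharP k p] [FiniteDimensional k L] [Fact p.Prime] in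
private lemma it_z {x z : L} (hx : ⁅x, z⁆ = 0) (n : ℕ) (c : k) :
    ∃ c' : k, (fun w => ⁅x, w⁆)^[n] (c • z) = c' • z := by
  cases n with
  | zero => exact ⟨c, rfl⟩
  | succ n =>
    refine ⟨0, ?_⟩
    rw [Function.iterate_succ_apply, lie_smul, hx, smul_zero, it_zero, zero_smul]

/-- steps 3 - 6 : `ad x` is nilpotent for `x ∈ A ∩ R` -/
private lemma ad_nil {f : L → L} (hf : Rst p k f) {χ : Dual k L}
    {z : L} {H : LieIdeal k L} (hc : Cfg f χ z H) (hT : NoTor f χ z H) (A : LieIdeal k L)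
    (hAA : ∀ x ∈ A, ∀ y ∈ A, ⁅x, y⁆ ∈ H) (x : L) (hxA : x ∈ A) (hx : InR χ z H x) :
    IsNilpotent (LieAlgebra.ad k L x) := by
  obtain ⟨q, hq⟩ : ∃ q, p = q + 2 := ⟨p - 2, by
    have := (Fact.out : p.Prime).two_le
    omega⟩
  have h1 : ∀ y, InR χ z H y → ∃ c : k, ⁅f x, y⁆ = c • z := by
    intro y hy
    obtain ⟨c, hc1⟩ := inR_H hc (inR_lie hc hx (inR_lie hc hx hy))
      (hAA x hxA _ (lie_mem_left k L A x y hxA))
    rw [hf.ad, hq, Function.iterate_succ_apply, Function.iterate_succ_apply, hc1]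
    exact it_z hx.1 q c
  have h2 : ∀ y, InR χ z H y → ⁅f (f x), y⁆ = 0 := by
    intro y hy
    obtain ⟨c, hc1⟩ := h1 y hy
    rw [hf.ad, hq, Function.iterate_succ_apply, Function.iterate_succ_apply, hc1, lie_smul,
      (inR_f hf hc hx).1, smul_zero, it_zero]
  have h3 : ∀ i : ℕ, InR χ z H (f^[i] (f (f x))) ∧ ∀ y, InR χ z H y → ⁅f^[i] (f (f x)), y⁆ = 0 := by
    intro i
    induction i with
    | zero => exact ⟨inR_f hf hc (inR_f hf hc hx), h2⟩
    | succ i ih =>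
      rw [Function.iterate_succ_apply']
      refine ⟨inR_f hf hc ih.1, fun y hy => ?_⟩
      rw [hf.ad, hq, Function.iterate_succ_apply, ih.2 y hy, it_zero]
  have h4 : ∃ N, f^[N] (f (f x)) = 0 := by
    by_contra hcon
    push Not at hcon
    obtain ⟨t, ht, ht0, htt⟩ := exists_toral hf (f (f x)) hcon
    have h6 : ∀ u ∈ Submodule.span k (Set.range (fun i : ℕ => f^[i] (f (f x)))),
        InR χ z H u ∧ ∀ y, InR χ z H y → ⁅u, y⁆ = 0 := by
      intro u hu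
      induction hu using Submodule.span_induction with
      | mem u hu =>
        obtain ⟨i, rfl⟩ := hu
        exact h3 i
      | zero =>
        exact ⟨⟨zero_lie z, fun h _ => by rw [zero_lie, map_zero]⟩, fun y _ => zero_lie y⟩
      | add u v _ _ hu hv =>
        exact ⟨inR_add hu.1 hv.1, fun y hy => by rw [add_lie, hu.2 y hy, hv.2 y hy, add_zero]⟩
      | smul a u _ hu =>
        exact ⟨inR_smul a hu.1, fun y hy => by rw [smul_lie, hu.2 y hy, smul_zero]⟩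
    have h5 := h6 t ht
    exact ht0 (hT t h5.1 htt h5.2)
  obtain ⟨N, hN⟩ := h4
  refine ⟨p ^ (N + 2), ?_⟩
  rw [← ad_pow hf, Function.iterate_add_apply]
  have h5 : f^[2] x = f (f x) := rfl
  rw [h5, hN, map_zero]

private theorem core_aux {f : L → L} (hf : Rst p k f) (hab : AbOne k L) {χ : Dual k L}
    {z : L} {H : LieIdeal k L} (hc : Cfg f χ z H) (hT : NoTor f χ z H) (A : LieIdeal k L)
    (hHA : H ≤ A) (hAz : ∀ a ∈ A, ⁅a, z⁆ = 0) (hAA : ∀ a ∈ A, ∀ b ∈ A, ⁅a, b⁆ ∈ H) : A ≤ H := by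
  have hdec : ∀ a ∈ A, ∃ h0 ∈ H, InR χ z H (a - h0) ∧ a - h0 ∈ A := by
    intro a ha
    obtain ⟨h0, hh0, h1⟩ := decomp hc a (hAz a ha)
    exact ⟨h0, hh0, h1, A.sub_mem ha (hHA hh0)⟩
  set H1 := idH1 z hc.eig H A with hH1
  set H2 := idH2 H H1 with hH2
  have hz1 : z ∈ H1 := ⟨hc.z_mem, fun a ha => ⟨0, by rw [hAz a ha, zero_smul]⟩⟩
  have hz2 : z ∈ H2 := by
    refine ⟨hc.z_mem, fun b hb => ?_⟩
    rw [← lie_skew, hc.H_cent b hb.1, neg_zero]
  have h12 : ∀ x, x ∈ H1 → x ∈ H2 → ∃ c : k, x = c • z := by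
    intro x hx1 hx2
    refine ab_eq hab hc.z_ne (H1 ⊓ H2) ?_ ⟨hz1, hz2⟩ x ⟨hx1, hx2⟩
    intro u hu v hv
    exact hu.2.2 v hv.1
  -- `H2 = k z`
  have hH2z : ∀ h ∈ H2, ∃ c : k, h = c • z := by
    by_contra hcon2
    push Not at hcon2
    obtain ⟨h, hh, hne⟩ := hcon2
    let S : Set (End k H) := {a | ∃ x ∈ A, InR χ z H x ∧ a = LieModule.toEnd k L H x}
    let W : Submodule k H :=
      { carrier := {v | (v : L) ∈ H2 ∧ χ (v : L) = 0}
        add_mem' := by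
          rintro u v ⟨hu, hu'⟩ ⟨hv, hv'⟩
          refine ⟨H2.add_mem hu hv, ?_⟩
          change χ ((u : L) + (v : L)) = 0
          rw [map_add, hu', hv', add_zero]
        zero_mem' := ⟨H2.zero_mem, map_zero χ⟩
        smul_mem' := by
          rintro c u ⟨hu, hu'⟩
          refine ⟨H2.smul_mem c hu, ?_⟩
          change χ (c • (u : L)) = 0
          rw [map_smul, hu', smul_zero] }
    have hW0 : W ≠ ⊥ := by
      intro hbot
      have h1 : h - χ h • z ∈ H := H.sub_mem hh.1 (H.smul_mem _ hc.z_mem)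
      have h2 : (⟨h - χ h • z, h1⟩ : H) ∈ W := by
        refine ⟨H2.sub_mem hh (H2.smul_mem _ hz2), ?_⟩
        change χ (h - χ h • z) = 0
        rw [map_sub, map_smul, hc.χz, smul_eq_mul, mul_one, sub_self]
      rw [hbot, Submodule.mem_bot] at h2
      have h3 : h - χ h • z = 0 := congrArg Subtype.val h2
      exact hne (χ h) (sub_eq_zero.mp h3)
    have hWS : ∀ a ∈ S, ∀ w ∈ W, a w ∈ W := by
      rintro a ⟨x, hxA, hxR, rfl⟩ w ⟨hw1, hw2⟩
      refine ⟨lie_mem_right k L H2 x w hw1, ?_⟩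
      exact hxR.2 w w.2
    have hSc : ∀ a ∈ S, ∀ b ∈ S, a * b = b * a := by
      rintro a ⟨x, hxA, hxR, rfl⟩ b ⟨y, hyA, hyR, rfl⟩
      obtain ⟨c, hc1⟩ := inR_H hc (inR_lie hc hxR hyR) (hAA x hxA y hyA)
      ext w
      change ⁅x, ⁅y, (w : L)⁆⁆ = ⁅y, ⁅x, (w : L)⁆⁆
      rw [leibniz_lie, hc1, smul_lie, ← lie_skew z, hc.H_cent w w.2, neg_zero, smul_zero, zero_add]
    have hSn : ∀ a ∈ S, IsNilpotent a := by
      rintro a ⟨x, hxA, hxR, rfl⟩
      obtain ⟨n, hn⟩ := ad_nil hf hc hT A hAA x hxA hxR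
      refine ⟨n, ?_⟩
      ext w
      rw [LieSubmodule.coe_toEnd_pow]
      have h1 := LinearMap.congr_fun hn (w : L)
      exact h1
    obtain ⟨v, hvW, hv0, hv⟩ := common_kernel S hSc hSn W hW0 hWS
    have hv1 : (v : L) ∈ H1 := by
      refine ⟨v.2, fun a ha => ?_⟩
      obtain ⟨h0, hh0, hR, hA'⟩ := hdec a ha
      obtain ⟨c, hc1⟩ := hc.H_comm h0 hh0 v v.2
      have h1 : ⁅a - h0, (v : L)⁆ = 0 := congrArg Subtype.val (hv _ ⟨a - h0, hA', hR, rfl⟩)
      refine ⟨c, ?_⟩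
      rw [sub_lie, sub_eq_zero] at h1
      rw [h1, hc1]
    obtain ⟨c, hc1⟩ := h12 v hv1 hvW.1
    have h2 : χ (v : L) = 0 := hvW.2
    rw [hc1, map_smul, hc.χz, smul_eq_mul, mul_one] at h2
    rw [h2, zero_smul] at hc1
    exact hv0 (Subtype.ext hc1)
  -- `H1 = H`
  have hH1H : ∀ h ∈ H, h ∈ H1 := by
    by_contra hcon2
    push Not at hcon2
    obtain ⟨h, hh, hne⟩ := hcon2
    obtain ⟨ξ, hξ1, hξ2⟩ := Submodule.exists_dual_map_eq_bot_of_notMem
      (p := (H1 : Submodule k L)) (x := h) hne inferInstance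
    have hξ3 : ∀ u ∈ H1, ξ u = 0 := by
      intro u hu
      have h1 : ξ u ∈ (H1 : Submodule k L).map ξ := Submodule.mem_map_of_mem hu
      rw [hξ2, Submodule.mem_bot] at h1
      exact h1
    obtain ⟨h0, hh0, hd⟩ := exists_dual hc ξ (hξ3 z hz1)
    have h02 : h0 ∈ H2 := by
      refine ⟨hh0, fun b hb => ?_⟩
      obtain ⟨c, hc1⟩ := hc.H_comm h0 hh0 b hb.1
      have h1 := hd b hb.1
      rw [hξ3 b hb, hc1, map_smul, hc.χz, smul_eq_mul, mul_one] at h1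
      rw [hc1, h1, zero_smul]
    obtain ⟨c, hc1⟩ := hH2z h0 h02
    apply hξ1
    rw [← hd h hh, hc1, smul_lie, ← lie_skew, hc.H_cent h hh, neg_zero, smul_zero, map_zero]
  -- the centraliser of `H` in `A`
  have hCA : idH2 A H ≤ H := by
    refine hc.H_max _ (fun b hb => hAz b hb.1) (fun b hb h hh => ⟨0, ?_⟩)
      (fun b hb b' hb' => ?_)
    · rw [hb.2 h hh, zero_smul]
    · refine hc.H_nd _ (hAA b hb.1 b' hb'.1) fun h hh => ?_
      rw [lie_lie, hb'.2 h hh, hb.2 h hh, lie_zero, lie_zero, sub_zero]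
  intro a ha
  obtain ⟨h0, hh0, hd⟩ := exists_dual hc (χ.comp (LieAlgebra.ad k L a)) (by
    rw [LinearMap.comp_apply, LieAlgebra.ad_apply, hAz a ha, map_zero])
  have h1 : a - h0 ∈ idH2 A H := by
    refine ⟨A.sub_mem ha (hHA hh0), fun h hh => ?_⟩
    obtain ⟨c, hc1⟩ := (hH1H h hh).2 a ha
    obtain ⟨d, hd1⟩ := hc.H_comm h0 hh0 h hh
    have h2 := hd h hh
    rw [LinearMap.comp_apply, LieAlgebra.ad_apply, hc1, hd1, map_smul, map_smul, hc.χz,
      smul_eq_mul, smul_eq_mul, mul_one, mul_one] at h2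
    rw [sub_lie, hc1, hd1, h2, sub_self]
  have h2 := H.add_mem (hCA h1) hh0
  rwa [sub_add_cancel] at h2

theorem core {f : L → L} (hf : Rst p k f) (hab : AbOne k L) {χ : Dual k L}
    {z : L} {H : LieIdeal k L} (hc : Cfg f χ z H) (hT : NoTor f χ z H) (A : LieIdeal k L)
    (hAz : ∀ a ∈ A, ⁅a, z⁆ = 0) (hAA : ∀ a ∈ A, ∀ b ∈ A, ⁅a, b⁆ ∈ H) : A ≤ H := by
  refine le_sup_left.trans (core_aux hf hab hc hT (A ⊔ H) le_sup_right ?_ ?_)
  · intro a ha
    rw [LieSubmodule.mem_sup] at ha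
    obtain ⟨d, hd, h, hh, rfl⟩ := ha
    rw [add_lie, hAz d hd, hc.H_cent h hh, add_zero]
  · intro x hx y hy
    rw [LieSubmodule.mem_sup] at hx hy
    obtain ⟨d, hd, h, hh, rfl⟩ := hx
    obtain ⟨d', hd', h', hh', rfl⟩ := hy
    rw [add_lie, lie_add]
    exact H.add_mem (H.add_mem (hAA d hd d' hd') (lie_mem_right k L H d h' hh'))
      (lie_mem_left k L H h _ hh)

end Pool.Agent.SkG
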