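import Pool.Agent.Lib.SkG.Dec

/-!
# Module TorI (general p; adapt SkS/TorI): no toral elements if `χ` is nondegenerate

`t' = t - a z` with `a` chosen such that `χ ⁅t', T⁆ = 0`.
-/

namespace Pool.Agent.SkG

open Module Pool.Agent.SkS

variable {k L : Type} [Field k] {p : ℕ} [Fact p.Prime] [LieRing L] [LieAlgebra k L]
  [FiniteDimensional k L]

theorem noTor_of_nondeg {f : L → L} (hf : Rst p k f) {χ : Dual k L} (hχ : Nondeg χ) {z : L}
    {H : LieIdeal k L} (hc : Cfg f χ z H) : NoTor f χ z H := by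
  intro t ht hft htR
  have h1 : ∀ x : L, ⁅x, z⁆ = 0 → χ ⁅t, x⁆ = 0 := by
    intro x hx
    obtain ⟨h0, hh0, hy⟩ := decomp hc x hx
    have h2 : ⁅t, x⁆ = ⁅t, x - h0⁆ + ⁅t, h0⁆ := by
      rw [← lie_add, sub_add_cancel]
    rw [h2, htR _ hy, zero_add]
    exact ht.2 h0 hh0
  obtain ⟨T, hT⟩ := hc.ex_T
  have hzx : ∀ x : L, ⁅x, z⁆ = 0 → ⁅z, x⁆ = 0 := by
    intro x hx
    rw [← lie_skew, hx, neg_zero]
  have hzT : ⁅z, T⁆ = -z := by rw [← lie_skew, hT]
  have h3 : t + χ ⁅t, T⁆ • z = 0 := by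
    apply hχ
    intro w
    obtain ⟨c, hcw⟩ := hc.eig w
    have hx : ⁅w - c • T, z⁆ = 0 := by
      rw [sub_lie, smul_lie, hT, hcw, sub_self]
    have hw : w = (w - c • T) + c • T := by rw [sub_add_cancel]
    rw [hw, lie_add, add_lie, add_lie, lie_smul, lie_smul, smul_lie, smul_lie, hzx _ hx, hzT]
    simp only [map_add, map_smul, map_neg, h1 _ hx, hc.χz, smul_eq_mul, map_zero]
    ring
  have h4 : t = (-χ ⁅t, T⁆) • z := by
    rw [neg_smul]
    exact eq_neg_of_add_eq_zero_left h3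
  rw [← hft, h4, hf.smul, hc.fz, smul_zero]

end Pool.Agent.SkG
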