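import Pool.Agent.Lib.SkG.Defs

/-!
# Module Sp (general p): an operator `s` with `[s, r a] = r (τ a)`

Induction on the dimension of a `τ`-stable nondegenerate subspace `P`.  If `τ = 0` on `P` take `s = 0`.  Otherwise there are `e ∈ P` and `c ≠ 0`, `c^p = c`, `τ e = c e`
and `e' ∈ P` with `τ e' = - c e'`, `ω e e' = 1`; `s = s' - c • (r e * r e')`.
-/

namespace Pool.Agent.SkG

open Module Polynomial

section poly

variable {k A : Type} [Field k] [Ring A] [Algebra k A]

private lemma aeval_shift (N b : A) (h : N * b = b * (N + 1)) (Q : k[X]) :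
    aeval N Q * b = b * aeval (N + 1) Q := by
  induction Q using Polynomial.induction_on with
  | C a => rw [aeval_C, aeval_C, Algebra.commutes]
  | add P Q hP hQ => rw [map_add, map_add, add_mul, mul_add, hP, hQ]
  | monomial n a ih =>
    rw [pow_succ, ← mul_assoc, map_mul _ (C a * X ^ n) X, map_mul _ (C a * X ^ n) X, aeval_X, aeval_X,
      mul_assoc, h, ← mul_assoc, ih, mul_assoc]

private lemma asc_eq (a b N : A) (hN : N = a * b) (h : N * b = b * (N + 1)) (n : ℕ) :
    a ^ n * b ^ n = aeval N (ascPochhammer k n) := by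
  induction n with
  | zero => rw [pow_zero, pow_zero, mul_one, ascPochhammer_zero, map_one]
  | succ n ih =>
    rw [ascPochhammer_succ_left, map_mul, aeval_X, aeval_comp, pow_succ', pow_succ]
    rw [show a * a ^ n * (b ^ n * b) = a * (a ^ n * b ^ n) * b by simp only [mul_assoc], ih, mul_assoc,
      aeval_shift N b h, ← mul_assoc, ← hN, map_add, aeval_X, map_one]

private lemma asc_char (p : ℕ) [Fact p.Prime] [CharP k p] :
    ascPochhammer k p = X ^ p - X := by
  have hp := (Fact.out : p.Prime)
  rw [← sub_eq_zero]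
  by_contra hne
  have hd : (ascPochhammer k p - (X ^ p - X)).degree < (p : WithBot ℕ) := by
    have h1 : (ascPochhammer k p).degree = p := by
      rw [degree_eq_natDegree (monic_ascPochhammer k p).ne_zero, ascPochhammer_natDegree]
    have h2 : (X ^ p - X : k[X]).degree = p := by
      rw [degree_sub_eq_left_of_degree_lt]
      · rw [degree_X_pow]
      · rw [degree_X_pow, degree_X]
        exact_mod_cast hp.one_lt
    have h3 : (X ^ p - X : k[X]).Monic := by
      apply Monic.sub_of_left (monic_X_pow p)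
      rw [degree_X_pow, degree_X]
      exact_mod_cast hp.one_lt
    rw [← h1]
    apply degree_sub_lt_left (h1.trans h2.symm) (monic_ascPochhammer k p).ne_zero
    rw [(monic_ascPochhammer k p).leadingCoeff, h3.leadingCoeff]
  apply hne
  have hinj : Function.Injective (fun j : Fin p => -((j : ℕ) : k)) := by
    intro i j hij
    have h1 : ((i : ℕ) : k) = ((j : ℕ) : k) := neg_injective hij
    exact Fin.ext (CharP.natCast_injOn_Iio k p i.isLt j.isLt h1)
  refine eq_zero_of_natDegree_lt_card_of_eval_eq_zero _ hinj ?_ ?_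
  · intro j
    rw [eval_sub, ascPochhammer_eval_neg_coe_nat_of_lt j.isLt, eval_sub, eval_pow, eval_X, zero_sub,
      neg_eq_zero, sub_eq_zero]
    have : frobenius k p (-((j : ℕ) : k)) = -((j : ℕ) : k) := by
      rw [map_neg, map_natCast]
    exact this
  · rw [Fintype.card_fin]
    exact (natDegree_lt_iff_degree_lt hne).mpr hd

/-- `N^p - N = a^p b^p` for `N = a b`, `[a, b] = 1`-type relations -/
private lemma pow_N (p : ℕ) [Fact p.Prime] [CharP k p] (a b N : A) (hN : N = a * b)
    (h : N * b = b * (N + 1)) : N ^ p = N + a ^ p * b ^ p := by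
  rw [asc_eq (k := k) a b N hN h p, asc_char, map_sub, map_pow, aeval_X]
  abel

end poly

variable {k V Hs : Type} [Field k] {p : ℕ} [Fact p.Prime] [CharP k p] [IsAlgClosed k]
  [AddCommGroup V] [Module k V] [AddCommGroup Hs] [Module k Hs] [FiniteDimensional k Hs]

/-- an eigenvector with nonzero eigenvalue -/
private lemma exists_eig (τ : Hs →ₗ[k] Hs) (hτ : ∀ a : Hs, τ^[p] a = τ a) (P : Submodule k Hs)
    (hP : ∀ a ∈ P, τ a ∈ P) (hne : ∃ a ∈ P, τ a ≠ 0) :
    ∃ e ∈ P, ∃ c : k, e ≠ 0 ∧ c ≠ 0 ∧ c ^ p = c ∧ τ e = c • e := by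
  have hp := (Fact.out : p.Prime)
  obtain ⟨a0, ha0, ha1⟩ := hne
  set Q : Submodule k Hs := P.map τ with hQ
  have hQP : Q ≤ P := by
    rintro _ ⟨a, ha, rfl⟩
    exact hP a ha
  have hQτ : ∀ a ∈ Q, τ a ∈ Q := fun a ha => ⟨a, hQP ha, rfl⟩
  have hnt : Nontrivial Q := ⟨⟨⟨τ a0, ⟨a0, ha0, rfl⟩⟩, 0, fun h => ha1 (congrArg Subtype.val h)⟩⟩
  let τQ : End k Q := τ.restrict hQτ
  obtain ⟨c, hc⟩ := Module.End.exists_eigenvalue τQ
  obtain ⟨v, hv⟩ := hc.exists_hasEigenvector
  have hv0 : v ≠ 0 := hv.2
  have hv1 : τ (v : Hs) = c • (v : Hs) := by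
    have := congrArg Subtype.val hv.apply_eq_smul
    exact this
  have hve : (v : Hs) ≠ 0 := fun h => hv0 (Subtype.ext h)
  have hit : ∀ n : ℕ, τ^[n] (v : Hs) = c ^ n • (v : Hs) := by
    intro n
    induction n with
    | zero => simp
    | succ n ih => rw [Function.iterate_succ_apply', ih, map_smul, hv1, smul_smul, pow_succ]
  refine ⟨v, hQP v.2, c, hve, ?_, ?_, hv1⟩
  · intro hc0
    obtain ⟨b, hb, hbv⟩ := v.2
    have h1 : τ (τ b) = 0 := by rw [hbv, hv1, hc0, zero_smul]
    have h2 : τ^[p] b = 0 := by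
      obtain ⟨m, hm⟩ := Nat.exists_eq_add_of_le' hp.two_le
      rw [hm, Function.iterate_add_apply]
      change τ^[m] (τ (τ b)) = 0
      rw [h1]
      exact iterate_map_zero τ m
    rw [hτ b, hbv] at h2
    exact hve h2
  · have h1 := hτ v
    rw [hit p, hv1, ← sub_eq_zero, ← sub_smul, smul_eq_zero] at h1
    rcases h1 with h1 | h1
    · exact sub_eq_zero.mp h1
    · exact absurd h1 hve

private lemma exists_dual (ω : Hs →ₗ[k] Hs →ₗ[k] k) (τ : Hs →ₗ[k] Hs)
    (hτ : ∀ a : Hs, τ^[p] a = τ a) (hskew : ∀ a b : Hs, ω (τ a) b + ω a (τ b) = 0)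
    (P : Submodule k Hs) (hP : ∀ a ∈ P, τ a ∈ P) (e b : Hs) (c : k) (hc : c ^ p = c)
    (he : τ e = c • e) (hb : b ∈ P) (hbe : ω e b = 1) :
    ∃ e' ∈ P, τ e' = -(c • e') ∧ ω e e' = 1 := by
  have hp := (Fact.out : p.Prime)
  by_cases hnt : Nontrivial Hs
  swap
  · rw [not_nontrivial_iff_subsingleton] at hnt
    rw [Subsingleton.elim b 0, map_zero] at hbe
    exact absurd hbe zero_ne_one
  have hchar : CharP (End k Hs) p :=
    charP_of_injective_algebraMap (algebraMap k (End k Hs)).injective p
  set D : End k Hs := τ + algebraMap k (End k Hs) c with hD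
  have hDa : ∀ a, D a = τ a + c • a := by
    intro a
    rw [hD, LinearMap.add_apply, Module.algebraMap_end_apply]
  have hDp : D ^ p = D := by
    have h1 : (τ : End k Hs) ^ p = τ := by
      ext a
      rw [Module.End.pow_apply]
      exact hτ a
    have h2 : Commute (τ : End k Hs) (algebraMap k (End k Hs) c) := (Algebra.commutes c _).symm
    rw [hD, add_pow_char_of_commute p h2, h1, ← map_pow, hc]
  have hDP : ∀ n : ℕ, ∀ a ∈ P, (D ^ n) a ∈ P := by
    intro n
    induction n with
    | zero =>
      intro a ha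
      rw [pow_zero]
      exact ha
    | succ n ih =>
      intro a ha
      rw [pow_succ']
      change D ((D ^ n) a) ∈ P
      rw [hDa]
      exact P.add_mem (hP _ (ih a ha)) (P.smul_mem _ (ih a ha))
  have hDω : ∀ a, ω e (D a) = 0 := by
    intro a
    have h1 := hskew e a
    rw [he, map_smul, LinearMap.smul_apply] at h1
    rw [hDa, map_add, map_smul, add_comm]
    exact h1
  obtain ⟨m, hm⟩ := Nat.exists_eq_add_of_le' hp.two_le
  refine ⟨b - (D ^ (m + 1)) b, P.sub_mem hb (hDP _ b hb), ?_, ?_⟩
  · have h1 : D (b - (D ^ (m + 1)) b) = 0 := by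
      rw [map_sub]
      have h2 : D ((D ^ (m + 1)) b) = (D ^ p) b := by
        rw [hm, show m + 2 = (m + 1) + 1 by rfl, pow_succ' D (m + 1)]
        rfl
      rw [h2, hDp, sub_self]
    rw [hDa] at h1
    exact eq_neg_of_add_eq_zero_left h1
  · have h2 : (D ^ (m + 1)) b = D ((D ^ m) b) := by
      rw [pow_succ']
      rfl
    rw [map_sub, h2, hDω, sub_zero, hbe]

private lemma exists_s_aux (r : Hs →ₗ[k] End k V) (ω : Hs →ₗ[k] Hs →ₗ[k] k) (τ : Hs →ₗ[k] Hs)
    (hω : ∀ a b : Hs, r a * r b - r b * r a = algebraMap k (End k V) (ω a b))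
    (halt : ∀ a : Hs, ω a a = 0)
    (hτ : ∀ a : Hs, τ^[p] a = τ a) (hskew' : ∀ a b : Hs, ω (τ a) b + ω a (τ b) = 0)
    (hpow : ∀ a : Hs, ∃ c : k, r a ^ p = algebraMap k (End k V) c) (hV : Nontrivial V) :
    ∀ (n : ℕ) (P : Submodule k Hs), finrank k P = n → (∀ a ∈ P, τ a ∈ P) →
      (∀ a ∈ P, (∀ b ∈ P, ω a b = 0) → a = 0) →
      ∃ s ∈ Algebra.adjoin k (Set.range r), (∀ a ∈ P, s * r a - r a * s = r (τ a)) ∧
        (∀ a, (∀ b ∈ P, ω a b = 0) → s * r a = r a * s) ∧
        ∃ c : k, s ^ p = s + algebraMap k (End k V) c := by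
  have hp := (Fact.out : p.Prime)
  have hchar : CharP (End k V) p :=
    charP_of_injective_algebraMap (algebraMap k (End k V)).injective p
  have hskew : ∀ a b : Hs, ω a b = - ω b a := by
    intro a b
    have h := halt (a + b)
    simp only [map_add, LinearMap.add_apply, halt, zero_add, add_zero] at h
    rw [add_comm] at h
    exact eq_neg_of_add_eq_zero_left h
  intro n
  induction n using Nat.strong_induction_on with
  | _ n ih =>
  intro P hn hPτ hP
  by_cases hbot : ∀ a ∈ P, τ a = 0
  · refine ⟨0, Subalgebra.zero_mem _, ?_, ?_, 0, ?_⟩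
    · intro a ha
      rw [hbot a ha, map_zero, zero_mul, mul_zero, sub_zero]
    · intro a _
      rw [zero_mul, mul_zero]
    · rw [map_zero, add_zero, zero_pow hp.ne_zero]
  · push Not at hbot
    obtain ⟨e, he, c, he0, hc0, hcp, hτe⟩ := exists_eig (p := p) τ hτ P hPτ hbot
    obtain ⟨b, hb, hbe⟩ : ∃ b ∈ P, ω e b = 1 := by
      obtain ⟨b, hb, hb0⟩ : ∃ b ∈ P, ω e b ≠ 0 := by
        by_contra hcon
        push Not at hcon
        exact he0 (hP e he hcon)
      refine ⟨(ω e b)⁻¹ • b, P.smul_mem _ hb, ?_⟩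
      rw [map_smul, smul_eq_mul, inv_mul_cancel₀ hb0]
    obtain ⟨e', he', hτe', hee'⟩ := exists_dual (p := p) ω τ hτ hskew' P hPτ e b c hcp hτe hb hbe
    have he'e : ω e' e = -1 := by rw [hskew, hee']
    let P' : Submodule k Hs :=
      { carrier := {a | a ∈ P ∧ ω a e = 0 ∧ ω a e' = 0}
        add_mem' := by
          rintro a b ⟨ha, ha1, ha2⟩ ⟨hb, hb1, hb2⟩
          refine ⟨P.add_mem ha hb, ?_, ?_⟩
          · rw [map_add, LinearMap.add_apply, ha1, hb1, add_zero]
          · rw [map_add, LinearMap.add_apply, ha2, hb2, add_zero]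
        zero_mem' := ⟨P.zero_mem, by simp, by simp⟩
        smul_mem' := by
          rintro c a ⟨ha, ha1, ha2⟩
          refine ⟨P.smul_mem c ha, ?_, ?_⟩
          · rw [map_smul, LinearMap.smul_apply, ha1, smul_zero]
          · rw [map_smul, LinearMap.smul_apply, ha2, smul_zero] }
    have hP'mem : ∀ a, a ∈ P' ↔ a ∈ P ∧ ω a e = 0 ∧ ω a e' = 0 := fun a => Iff.rfl
    have hP'P : P' < P := by
      refine lt_of_le_of_ne (fun a ha => ((hP'mem a).mp ha).1) ?_
      intro heq
      have h1 : e ∈ P' := by rw [heq]; exact he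
      have h2 := ((hP'mem e).mp h1).2.2
      rw [hee'] at h2
      exact one_ne_zero h2
    have hP'τ : ∀ a ∈ P', τ a ∈ P' := by
      intro a ha
      have ha' := (hP'mem a).mp ha
      rw [hP'mem]
      refine ⟨hPτ a ha'.1, ?_, ?_⟩
      · have := hskew' a e
        rw [hτe, map_smul, ha'.2.1, smul_zero, add_zero] at this
        exact this
      · have := hskew' a e'
        rw [hτe', map_neg, map_smul, ha'.2.2, smul_zero, neg_zero, add_zero] at this
        exact this
    -- decomposition
    have hdec : ∀ a ∈ P, a - ω a e' • e + ω a e • e' ∈ P' := by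
      intro a ha
      rw [hP'mem]
      refine ⟨P.add_mem (P.sub_mem ha (P.smul_mem _ he)) (P.smul_mem _ he'), ?_, ?_⟩
      · simp only [map_add, map_sub, map_smul, LinearMap.add_apply, LinearMap.sub_apply,
          LinearMap.smul_apply, halt, he'e, smul_eq_mul]
        ring
      · simp only [map_add, map_sub, map_smul, LinearMap.add_apply, LinearMap.sub_apply,
          LinearMap.smul_apply, halt, hee', smul_eq_mul]
        ring
    have hlt : finrank k P' < n := by
      rw [← hn]
      exact Submodule.finrank_lt_finrank_of_lt hP'P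
    obtain ⟨s', hs'A, hs'1, hs'2, c', hs'3⟩ := ih _ hlt P' rfl hP'τ (by
      intro a ha hab
      have ha' := (hP'mem a).mp ha
      apply hP a ha'.1
      intro b hb
      have h1 := hab _ (hdec b hb)
      rw [map_add, map_sub, map_smul, map_smul, ha'.2.1, ha'.2.2, smul_zero, smul_zero, sub_zero,
        add_zero] at h1
      exact h1)
    have hce : s' * r e = r e * s' := hs'2 e (by
      intro b hb
      rw [hskew, ((hP'mem b).mp hb).2.1, neg_zero])
    have hce' : s' * r e' = r e' * s' := hs'2 e' (by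
      intro b hb
      rw [hskew, ((hP'mem b).mp hb).2.2, neg_zero])
    have hreA : r e ∈ Algebra.adjoin k (Set.range r) := Algebra.subset_adjoin ⟨e, rfl⟩
    have hre'A : r e' ∈ Algebra.adjoin k (Set.range r) := Algebra.subset_adjoin ⟨e', rfl⟩
    have hcomm0 : ∀ a, ω a e = 0 → r a * r e = r e * r a := by
      intro a ha
      have := hω a e
      rw [ha, map_zero, sub_eq_zero] at this
      exact this
    have hcomm0' : ∀ a, ω a e' = 0 → r a * r e' = r e' * r a := by
      intro a ha
      have := hω a e'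
      rw [ha, map_zero, sub_eq_zero] at this
      exact this
    have hre're : r e * r e' = r e' * r e + 1 := by
      have := hω e e'
      rw [hee', map_one, sub_eq_iff_eq_add] at this
      rw [this, add_comm]
    set N : End k V := r e * r e' with hN
    have hp0 : ∀ a, ω a e = 0 → ω a e' = 0 → N * r a = r a * N := by
      intro a ha ha'
      rw [hN, mul_assoc, ← hcomm0' a ha', ← mul_assoc, ← hcomm0 a ha, mul_assoc]
    have hpe : N * r e - r e * N = - r e := by
      have : r e' * r e = N - 1 := by rw [hre're]; abel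
      rw [hN, mul_assoc (r e) (r e') (r e), this, mul_sub, mul_one, ← hN]
      abel
    have hpe' : N * r e' - r e' * N = r e' := by
      have h1 : r e' * N = (N - 1) * r e' := by
        rw [hN, ← mul_assoc]
        congr 1
        rw [← hN, hre're]
        abel
      rw [h1, sub_mul, one_mul]
      abel
    have hcN : s' * N = N * s' := by
      rw [hN, ← mul_assoc, hce, mul_assoc, hce', mul_assoc]
    refine ⟨s' - c • N, Subalgebra.sub_mem _ hs'A (Subalgebra.smul_mem _
      (Subalgebra.mul_mem _ hreA hre'A) _), ?_, ?_, ?_⟩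
    · intro a ha
      have h0 := hdec a ha
      set a' := a - ω a e' • e + ω a e • e' with ha'
      have haeq : a = a' + ω a e' • e - ω a e • e' := by
        rw [ha']
        abel
      have h1 := hs'1 a' h0
      have h2 := hp0 a' ((hP'mem a').mp h0).2.1 ((hP'mem a').mp h0).2.2
      have hra : r a = r a' + ω a e' • r e - ω a e • r e' := by
        conv_lhs => rw [haeq]
        rw [map_sub, map_add, map_smul, map_smul]
      have hrta : r (τ a) = r (τ a') + ω a e' • c • r e + ω a e • c • r e' := by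
        conv_lhs => rw [haeq]
        rw [map_sub, map_add, map_smul, map_smul, hτe, hτe', smul_neg, sub_neg_eq_add, map_add,
          map_add, map_smul, map_smul, map_smul, map_smul]
      have key : (s' - c • N) * r a - r a * (s' - c • N) =
          (s' * r a' - r a' * s') - c • (N * r a' - r a' * N)
          + ω a e' • (s' * r e - r e * s') - (ω a e' * c) • (N * r e - r e * N)
          - ω a e • (s' * r e' - r e' * s') + (ω a e * c) • (N * r e' - r e' * N) := by
        rw [hra]
        simp only [mul_add, add_mul, mul_sub, sub_mul, smul_sub, smul_add, mul_smul_comm,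
          smul_mul_assoc, smul_smul, mul_comm c]
        abel
      rw [key, h1, h2, hce, hce', hpe, hpe', sub_self, sub_self, sub_self, smul_zero, smul_zero,
        sub_zero, add_zero, smul_zero, sub_zero, hrta, smul_smul, smul_smul, smul_neg,
        sub_neg_eq_add]
    · intro a ha
      have h1 := hs'2 a (fun b hb => ha b ((hP'mem b).mp hb).1)
      have h2 := hp0 a (ha e he) (ha e' he')
      rw [sub_mul, mul_sub, h1, smul_mul_assoc, mul_smul_comm, h2]
    · obtain ⟨c1, hc1⟩ := hpow e
      obtain ⟨c2, hc2⟩ := hpow e'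
      refine ⟨c' - c * (c1 * c2), ?_⟩
      have hNp : N ^ p = N + algebraMap k (End k V) (c1 * c2) := by
        rw [pow_N (k := k) p (r e) (r e') N hN, hc1, hc2, map_mul]
        rw [mul_add, mul_one, ← sub_eq_iff_eq_add']
        exact hpe'
      have h3 : (s' - c • N) ^ p = s' ^ p - (c • N) ^ p :=
        sub_pow_char_of_commute p (Commute.smul_right hcN c)
      rw [h3, _root_.smul_pow, hcp, hNp, hs'3, map_sub, map_mul _ c, smul_add, Algebra.smul_def c (algebraMap k (End k V) (c1 * c2))]
      abel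

theorem exists_s (r : Hs →ₗ[k] End k V) (ω : Hs →ₗ[k] Hs →ₗ[k] k) (τ : Hs →ₗ[k] Hs)
    (hω : ∀ a b : Hs, r a * r b - r b * r a = algebraMap k (End k V) (ω a b))
    (halt : ∀ a : Hs, ω a a = 0) (hnd : ∀ a : Hs, (∀ b : Hs, ω a b = 0) → a = 0)
    (hτ : ∀ a : Hs, τ^[p] a = τ a) (hskew : ∀ a b : Hs, ω (τ a) b + ω a (τ b) = 0)
    (hpow : ∀ a : Hs, ∃ c : k, r a ^ p = algebraMap k (End k V) c) :
    ∃ s ∈ Algebra.adjoin k (Set.range r), (∀ a : Hs, s * r a - r a * s = r (τ a)) ∧
      ∃ c : k, s ^ p = s + algebraMap k (End k V) c := by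
  by_cases hV : Nontrivial V
  · obtain ⟨s, hs, h1, -, h3⟩ := exists_s_aux r ω τ hω halt hτ hskew hpow hV _ ⊤ rfl
      (fun _ _ => Submodule.mem_top) (fun a _ ha => hnd a (fun b => ha b Submodule.mem_top))
    exact ⟨s, hs, fun a => h1 a Submodule.mem_top, h3⟩
  · rw [not_nontrivial_iff_subsingleton] at hV
    have : Subsingleton (End k V) := ⟨fun a b => LinearMap.ext fun v => Subsingleton.elim _ _⟩
    exact ⟨0, Subalgebra.zero_mem _, fun a => Subsingleton.elim _ _, 0, Subsingleton.elim _ _⟩

end Pool.Agent.SkG
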