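import Pool.Agent.Lib.SkG.Dec
import Pool.Agent.Lib.SkG.Sp
import Pool.Agent.Lib.SkG.BC

/-!
# Module TorII (general p): no toral elements if there is an irreducible representation of dimension `≥ p^{n/2}`

Let `t ≠ 0` be as in `NoTor` (`InR t`, `f t = t`, `⁅t, y⁆ = 0` for `y ∈ R`), `L0 = C(z)`, `Vz = {v : ρ z v = v} ≠ 0`.
By `exists_s` applied to `H' = {h ∈ H : χ h = 0}` and `τ = ad t` there is an operator `s` in the algebra generated by `ρ H`
on `Vz` with `[s, ρ h] = ρ ⁅t, h⁆` and `s^p - s` scalar.  Then `t' = ρ t - s` commutes with `ρ L0` and on an irreducible `L0`-subspace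
of an eigenspace of `t'` the operators `ρ z`, `ρ t` lie in the algebra generated by `ρ H`; a dimension count gives a contradiction.
-/

namespace Pool.Agent.SkG

open Module Pool.Agent.SkS

section

variable {k L V : Type} [Field k] [LieRing L] [LieAlgebra k L] [AddCommGroup V] [Module k V]
  [FiniteDimensional k V] [FiniteDimensional k L]

/-- the centraliser of `z` as a Lie subalgebra -/
private def cz (z : L) : LieSubalgebra k L where
  carrier := {x | ⁅x, z⁆ = 0}
  add_mem' := by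
    intro a b ha hb
    have ha' : ⁅a, z⁆ = 0 := ha
    have hb' : ⁅b, z⁆ = 0 := hb
    change ⁅a + b, z⁆ = 0
    rw [add_lie, ha', hb', add_zero]
  zero_mem' := by simp
  smul_mem' := by
    intro c a ha
    have ha' : ⁅a, z⁆ = 0 := ha
    change ⁅c • a, z⁆ = 0
    rw [smul_lie, ha', smul_zero]
  lie_mem' := by
    intro x y hx hy
    have hx' : ⁅x, z⁆ = 0 := hx
    have hy' : ⁅y, z⁆ = 0 := hy
    change ⁅⁅x, y⁆, z⁆ = 0
    rw [lie_lie, hx', hy', lie_zero, lie_zero, sub_zero]

private lemma mem_cz (z x : L) : x ∈ (cz z : LieSubalgebra k L) ↔ ⁅x, z⁆ = 0 := Iff.rfl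

/-- the centraliser of `z` has codimension one -/
private lemma finrank_cz {f : L → L} {χ : Dual k L} {z : L} {H : LieIdeal k L}
    (hc : Cfg f χ z H) : finrank k (cz z : LieSubalgebra k L) + 1 = finrank k L := by
  let μ : L →ₗ[k] k :=
    { toFun := fun y => χ ⁅y, z⁆
      map_add' := by intro x y; rw [add_lie, map_add]
      map_smul' := by intro c x; rw [smul_lie, map_smul, RingHom.id_apply] }
  have hker : LinearMap.ker μ = (cz z : LieSubalgebra k L).toSubmodule := by
    ext y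
    rw [LinearMap.mem_ker]
    change χ ⁅y, z⁆ = 0 ↔ ⁅y, z⁆ = 0
    constructor
    · intro h
      obtain ⟨c, hcz⟩ := hc.eig y
      rw [hcz, map_smul, hc.χz, smul_eq_mul, mul_one] at h
      rw [hcz, h, zero_smul]
    · intro h
      rw [h, map_zero]
  have hrange : LinearMap.range μ = ⊤ := by
    rw [LinearMap.range_eq_top]
    obtain ⟨T, hT⟩ := hc.ex_T
    intro c
    refine ⟨c • T, ?_⟩
    change χ ⁅c • T, z⁆ = c
    rw [smul_lie, hT, map_smul, hc.χz, smul_eq_mul, mul_one]
  have h1 := LinearMap.finrank_range_add_finrank_ker μ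
  rw [hrange, finrank_top, finrank_self, hker] at h1
  have h2 : finrank k (cz z : LieSubalgebra k L).toSubmodule =
    finrank k (cz z : LieSubalgebra k L) := rfl
  omega


end

variable {k L V : Type} [Field k] {p : ℕ} [Fact p.Prime] [CharP k p] [IsAlgClosed k] [LieRing L]
  [LieAlgebra k L] [AddCommGroup V] [Module k V] [FiniteDimensional k V] [FiniteDimensional k L]

private lemma cz_f {f : L → L} (hf : Rst p k f) (z : L) : ∀ x ∈ (cz z : LieSubalgebra k L),
    f x ∈ (cz z : LieSubalgebra k L) := by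
  intro x hx
  have hx' : ⁅x, z⁆ = 0 := hx
  change ⁅f x, z⁆ = 0
  obtain ⟨q, hq⟩ : ∃ q, p = q + 1 := ⟨p - 1, by have := (Fact.out : p.Prime).pos; omega⟩
  rw [hf.ad, hq, Function.iterate_succ_apply]
  simp only [hx']
  exact Function.iterate_fixed (lie_zero x) q

/-- the elements of `H` as a subset of `cz z` -/
private def HH (z : L) (H : LieIdeal k L) : Set (cz z : LieSubalgebra k L) := {x | (x : L) ∈ H}

private lemma comm_pow {A : Type} [Ring A] (y a : A) (h : (y * a - a * y) * a = a * (y * a - a * y))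
    (n : ℕ) : y * a ^ n - a ^ n * y = n • (a ^ (n - 1) * (y * a - a * y)) := by
  induction n with
  | zero => simp
  | succ n ih =>
    have hc : ∀ m : ℕ, a ^ m * (y * a - a * y) = (y * a - a * y) * a ^ m := by
      intro m
      have : Commute (y * a - a * y) a := h
      exact (this.pow_right m).eq.symm
    have h1 : y * a ^ (n + 1) - a ^ (n + 1) * y =
        (y * a ^ n - a ^ n * y) * a + a ^ n * (y * a - a * y) := by
      rw [pow_succ]
      noncomm_ring
    rw [h1, ih]
    rcases n with _ | n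
    · simp
    · rw [Nat.add_sub_cancel, Nat.add_sub_cancel, smul_mul_assoc, mul_assoc, h, ← mul_assoc,
        ← pow_succ, add_smul (n + 1) 1, one_smul]

/-- The operator `s` and the operator `σ t - s` commuting with everything. -/
private lemma exists_tprime {f : L → L} (hf : Rst p k f) {χ : Dual k L} {z : L} {H : LieIdeal k L}
    (hc : Cfg f χ z H) {V' : Type} [AddCommGroup V'] [Module k V'] [Nontrivial V']
    (σ : (cz z : LieSubalgebra k L) →ₗ[k] End k V')
    (hσ : Rep p (fs f (cz z) (cz_f hf z)) (χ.comp (cz z : LieSubalgebra k L).toSubmodule.subtype) σ)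
    (hσz : ∀ x : (cz z : LieSubalgebra k L), (x : L) = z → σ x = 1)
    (t : (cz z : LieSubalgebra k L)) (ht : InR χ z H t) (htf : f t = t)
    (htR : ∀ y : L, InR χ z H y → ⁅(t : L), y⁆ = 0) :
    ∃ s ∈ Algebra.adjoin k (σ '' HH z H), ∀ x, (σ t - s) * σ x = σ x * (σ t - s) := by
  classical
  -- the space `H'`
  let H1 : Submodule k L :=
    { carrier := {h | h ∈ H ∧ χ h = 0}
      add_mem' := by
        rintro a b ⟨ha, ha'⟩ ⟨hb, hb'⟩
        exact ⟨H.add_mem ha hb, by rw [map_add, ha', hb', add_zero]⟩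
      zero_mem' := ⟨H.zero_mem, map_zero χ⟩
      smul_mem' := by
        rintro c a ⟨ha, ha'⟩
        exact ⟨H.smul_mem c ha, by rw [map_smul, ha', smul_zero]⟩ }
  have hH1 : ∀ a ∈ H1, a ∈ H ∧ χ a = 0 := fun a ha => ha
  have hcz : ∀ a ∈ H, a ∈ (cz z : LieSubalgebra k L) := fun a ha => hc.H_cent a ha
  let ι1 : H1 →ₗ[k] (cz z : LieSubalgebra k L) :=
    { toFun := fun a => ⟨a, hcz a (hH1 a a.2).1⟩
      map_add' := by intro a b; rfl
      map_smul' := by intro c a; rfl }
  let r : H1 →ₗ[k] End k V' := σ.comp ι1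
  let τ : H1 →ₗ[k] H1 :=
    { toFun := fun a => ⟨⁅(t : L), (a : L)⁆, lie_mem_right k L H t a (hH1 a a.2).1,
        ht.2 a (hH1 a a.2).1⟩
      map_add' := by
        intro a b
        apply Subtype.ext
        exact lie_add _ _ _
      map_smul' := by
        intro c a
        apply Subtype.ext
        exact lie_smul _ _ _ }
  have hτ1 : ∀ a : H1, ((τ a : H1) : L) = ⁅(t : L), (a : L)⁆ := fun a => rfl
  let ω : H1 →ₗ[k] H1 →ₗ[k] k := LinearMap.mk₂ k (fun a b => χ ⁅(a : L), (b : L)⁆)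
    (by intro a a' b; simp) (by intro c a b; simp) (by intro a b b'; simp) (by intro c a b; simp)
  have hω1 : ∀ a b : H1, ω a b = χ ⁅(a : L), (b : L)⁆ := fun a b => rfl
  have hcz_z : z ∈ (cz z : LieSubalgebra k L) := hcz z hc.z_mem
  -- scalar action of multiples of z
  have hmulz : ∀ (x : (cz z : LieSubalgebra k L)) (c : k), (x : L) = c • z →
      σ x = algebraMap k (End k V') c := by
    intro x c hx
    have h1 : x = c • (⟨z, hcz_z⟩ : (cz z : LieSubalgebra k L)) := by
      apply Subtype.ext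
      rw [hx]
      rfl
    rw [h1, map_smul, hσz _ rfl, Algebra.algebraMap_eq_smul_one]
  have hbr : ∀ (a b : (cz z : LieSubalgebra k L)), (a : L) ∈ H → (b : L) ∈ H →
      σ a * σ b - σ b * σ a = algebraMap k (End k V') (χ ⁅(a : L), (b : L)⁆) := by
    intro a b ha hb
    obtain ⟨c, hcc⟩ := hc.H_comm a ha b hb
    rw [← hσ.lie, hmulz _ c hcc, hcc, map_smul, hc.χz, smul_eq_mul, mul_one]
  have hiter : ∀ (n : ℕ) (a : H1), ((τ^[n] a : H1) : L) = (fun w => ⁅(t : L), w⁆)^[n] (a : L) := by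
    intro n
    induction n with
    | zero => intro a; rfl
    | succ n ih =>
      intro a
      rw [Function.iterate_succ_apply', Function.iterate_succ_apply', hτ1, ih]
  obtain ⟨s, hs, hs1, hs2⟩ := exists_s (p := p) r ω τ
    (by
      intro a b
      exact hbr (ι1 a) (ι1 b) (hH1 a a.2).1 (hH1 b b.2).1)
    (by intro a; rw [hω1, lie_self, map_zero])
    (by
      intro a ha
      -- a commutes with all of H
      have hall : ∀ h' ∈ H, ⁅(a : L), h'⁆ = 0 := by
        intro h' hh'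
        have e1 : h' - χ h' • z ∈ H1 :=
          ⟨H.sub_mem hh' (H.smul_mem _ hc.z_mem), by
            rw [map_sub, map_smul, hc.χz, smul_eq_mul, mul_one, sub_self]⟩
        have e2 : χ ⁅(a : L), h' - χ h' • z⁆ = 0 := ha ⟨_, e1⟩
        rw [lie_sub, lie_smul, hc.H_cent a (hH1 a a.2).1, smul_zero, sub_zero] at e2
        obtain ⟨c, hcc⟩ := hc.H_comm a (hH1 a a.2).1 h' hh'
        rw [hcc, map_smul, hc.χz, smul_eq_mul, mul_one] at e2
        rw [hcc, e2, zero_smul]
      obtain ⟨c, hcc⟩ := hc.H_nd a (hH1 a a.2).1 hall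
      have h2 := (hH1 a a.2).2
      rw [hcc, map_smul, hc.χz, smul_eq_mul, mul_one] at h2
      apply Subtype.ext
      rw [hcc, h2, zero_smul]
      rfl)
    (by
      intro a
      apply Subtype.ext
      rw [hiter, ← hf.ad, htf]
      rfl)
    (by
      intro a b
      rw [hω1, hω1, hτ1, hτ1, ← map_add, ← leibniz_lie]
      obtain ⟨c, hcc⟩ := hc.H_comm a (hH1 a a.2).1 b (hH1 b b.2).1
      rw [hcc, lie_smul, ht.1, smul_zero, map_zero])
    (by
      intro a
      obtain ⟨c, hcc⟩ := hc.f_mem a (hH1 a a.2).1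
      refine ⟨c + χ (a : L) ^ p, ?_⟩
      change σ (ι1 a) ^ p = _
      rw [hσ.pow, hmulz _ c hcc, ← map_add]
      rfl)
  set 𝒜 := Algebra.adjoin k (σ '' HH z H) with h𝒜
  have hle : Algebra.adjoin k (Set.range r) ≤ 𝒜 := by
    apply Algebra.adjoin_mono
    rintro _ ⟨a, rfl⟩
    exact ⟨ι1 a, (hH1 a a.2).1, rfl⟩
  have hsA : s ∈ 𝒜 := hle hs
  -- `[s, σ h] = σ [t, h]` for `h ∈ H`
  have hsH : ∀ x : (cz z : LieSubalgebra k L), (x : L) ∈ H →
      s * σ x - σ x * s = σ ⁅t, x⁆ := by
    intro x hx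
    have e1 : (x : L) - χ x • z ∈ H1 :=
      ⟨H.sub_mem hx (H.smul_mem _ hc.z_mem), by
        rw [map_sub, map_smul, hc.χz, smul_eq_mul, mul_one, sub_self]⟩
    have e2 := hs1 ⟨_, e1⟩
    have e3 : r ⟨_, e1⟩ = σ x - algebraMap k (End k V') (χ x) := by
      have : ι1 ⟨_, e1⟩ = x - χ x • (⟨z, hcz_z⟩ : (cz z : LieSubalgebra k L)) := rfl
      change σ (ι1 ⟨_, e1⟩) = _
      rw [this, map_sub, map_smul, hσz (⟨z, hcz_z⟩ : (cz z : LieSubalgebra k L)) rfl, Algebra.algebraMap_eq_smul_one]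
    have e4 : r (τ ⟨_, e1⟩) = σ ⁅t, x⁆ := by
      have : ι1 (τ ⟨_, e1⟩) = ⁅t, x⁆ := by
        apply Subtype.ext
        change ⁅(t : L), (x : L) - χ x • z⁆ = ⁅(t : L), (x : L)⁆
        rw [lie_sub, lie_smul, ht.1, smul_zero, sub_zero]
      change σ (ι1 (τ ⟨_, e1⟩)) = _
      rw [this]
    rw [e3, e4, mul_sub, sub_mul, Algebra.commutes (χ x) s] at e2
    rw [← e2]
    abel
  have ht'H : ∀ x : (cz z : LieSubalgebra k L), (x : L) ∈ H →
      (σ t - s) * σ x = σ x * (σ t - s) := by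
    intro x hx
    have h1 := hsH x hx
    rw [hσ.lie] at h1
    rw [sub_mul, mul_sub, ← sub_eq_zero]
    rw [← sub_eq_zero] at h1
    rw [← neg_eq_zero, ← h1]
    abel
  have ht'A : ∀ a ∈ 𝒜, (σ t - s) * a = a * (σ t - s) := by
    intro a ha
    induction ha using Algebra.adjoin_induction with
    | mem a ha =>
      obtain ⟨b, hb, rfl⟩ := ha
      exact ht'H b hb
    | algebraMap c => exact (Algebra.commutes c _).symm
    | add a b _ _ ha hb => rw [add_mul, mul_add, ha, hb]
    | mul a b _ _ ha hb => rw [mul_assoc, ← hb, ← mul_assoc, ha, mul_assoc]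
  have hchar : CharP (End k V') p := charP_of_injective_algebraMap (algebraMap k (End k V')).injective p
  have hts : σ t * s = s * σ t := by
    have := ht'A s hsA
    rw [sub_mul, mul_sub, sub_left_inj] at this
    exact this
  obtain ⟨c, hsq⟩ := hs2
  -- the p-th power of `t'`
  have hsq' : ∃ c' : k, (σ t - s) ^ p = (σ t - s) + algebraMap k (End k V') c' := by
    refine ⟨χ (t : L) ^ p - c, ?_⟩
    have h1 := hσ.pow t
    have h3 : fs f (cz z : LieSubalgebra k L) (cz_f hf z) t = t := by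
      apply Subtype.ext
      exact htf
    rw [h3] at h1
    have h4 : (σ t - s) ^ p = σ t ^ p - s ^ p := sub_pow_char_of_commute p hts
    rw [h4, h1, hsq, map_sub]
    change (σ t + algebraMap k (End k V') ((χ (t : L)) ^ p) - (s + algebraMap k (End k V') c)) = _
    abel
  obtain ⟨c', hsq'⟩ := hsq'
  -- commutators of `σ y`, `y ∈ R`, with the algebra generated by `H`
  have hyA : ∀ (y : (cz z : LieSubalgebra k L)), ∀ a ∈ 𝒜, σ y * a - a * σ y ∈ 𝒜 := by
    intro y a ha
    induction ha using Algebra.adjoin_induction with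
    | mem a ha =>
      obtain ⟨b, hb, rfl⟩ := ha
      rw [← hσ.lie]
      exact Algebra.subset_adjoin ⟨⁅y, b⁆, lie_mem_right k L H y b hb, rfl⟩
    | algebraMap c =>
      rw [Algebra.commutes c (σ y), sub_self]
      exact 𝒜.zero_mem
    | add a b _ _ ha hb =>
      have : σ y * (a + b) - (a + b) * σ y = (σ y * a - a * σ y) + (σ y * b - b * σ y) := by
        rw [mul_add, add_mul]
        abel
      rw [this]
      exact 𝒜.add_mem ha hb
    | mul a b ha' hb' ha hb =>
      have : σ y * (a * b) - a * b * σ y = (σ y * a - a * σ y) * b + a * (σ y * b - b * σ y) := by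
        noncomm_ring
      rw [this]
      exact 𝒜.add_mem (𝒜.mul_mem ha hb') (𝒜.mul_mem ha' hb)
  have hyR : ∀ (y : (cz z : LieSubalgebra k L)), InR χ z H y →
      (σ t - s) * σ y = σ y * (σ t - s) := by
    intro y hy
    have h1 : σ t * σ y - σ y * σ t = 0 := by
      rw [← hσ.lie]
      have : ⁅t, y⁆ = 0 := by
        apply Subtype.ext
        exact htR y hy
      rw [this, map_zero]
    set u := σ y * (σ t - s) - (σ t - s) * σ y with hu
    have h3 : u = - (σ y * s - s * σ y) := by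
      rw [hu, mul_sub, sub_mul]
      rw [sub_eq_zero] at h1
      rw [h1]
      abel
    have h4 : u ∈ 𝒜 := by
      rw [h3]
      exact 𝒜.neg_mem (hyA y s hsA)
    have h5 := ht'A u h4
    have h6 := comm_pow (σ y) (σ t - s) h5.symm p
    have h7 : σ y * (σ t - s) ^ p - (σ t - s) ^ p * σ y = u := by
      rw [hsq', mul_add, add_mul, Algebra.commutes c' (σ y), hu]
      abel
    have h8 : (p : ℕ) • ((σ t - s) ^ (p - 1) * u) = 0 := by
      rw [nsmul_eq_mul, CharP.cast_eq_zero, zero_mul]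
    have h9 : u = 0 := by rw [← h7, h6]; exact h8
    rw [hu, sub_eq_zero] at h9
    exact h9.symm
  refine ⟨s, hsA, ?_⟩
  intro x
  obtain ⟨h0, hh0, hR⟩ := decomp hc x x.2
  have hR' : InR χ z H ((x - ⟨h0, hcz h0 hh0⟩ : (cz z : LieSubalgebra k L)) : L) := hR
  have e1 := hyR _ hR'
  have e2 := ht'H ⟨h0, hcz h0 hh0⟩ hh0
  have e3 : σ x = σ (x - ⟨h0, hcz h0 hh0⟩) + σ ⟨h0, hcz h0 hh0⟩ := by
    rw [← map_add, sub_add_cancel]
  rw [e3, mul_add, add_mul, e1, e2]

/-- the ideal `H` as a Lie subalgebra of `L` -/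
private def HL (H : LieIdeal k L) : LieSubalgebra k L where
  carrier := {x | x ∈ H}
  add_mem' := fun ha hb => H.add_mem ha hb
  zero_mem' := H.zero_mem
  smul_mem' := fun c _ ha => H.smul_mem c ha
  lie_mem' := fun {x y} _ hy => lie_mem_right k L H x y hy

/-- `finrank (adjoin (σ H)) ≤ p^{dim H - 1}` if `z` acts as `1` -/
private lemma finrank_adjoin_H {f : L → L} {χ : Dual k L} {z : L} {H : LieIdeal k L}
    (hc : Cfg f χ z H) (ρ : L →ₗ[k] End k V) (hρ : Rep p f χ ρ) (W : Submodule k V)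
    (hW : ∀ x ∈ (cz z : LieSubalgebra k L), ∀ w ∈ W, ρ x w ∈ W) (hWz : ∀ w ∈ W, ρ z w = w) :
    finrank k (Algebra.adjoin k (rs ρ (cz z) W hW '' HH z H)) ≤ p ^ (finrank k H - 1) := by
  classical
  have hHL : ∀ x ∈ (HL H : LieSubalgebra k L), x ∈ (cz z : LieSubalgebra k L) :=
    fun x hx => hc.H_cent x hx
  have hW' : ∀ x ∈ (HL H : LieSubalgebra k L), ∀ w ∈ W, ρ x w ∈ W :=
    fun x hx => hW x (hHL x hx)
  have hfH : ∀ x ∈ (HL H : LieSubalgebra k L), f x ∈ (HL H : LieSubalgebra k L) := by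
    intro x hx
    obtain ⟨c, hcc⟩ := hc.f_mem x hx
    rw [hcc]
    exact H.smul_mem c hc.z_mem
  have hrep := rep_rs ρ hρ (HL H) hfH W hW'
  let D : Submodule k (HL H : LieSubalgebra k L) := Submodule.span k {⟨z, hc.z_mem⟩}
  have h1 := cnt (rs ρ (HL H) W hW') hrep D
  have hset : rs ρ (cz z) W hW '' HH z H = Set.range (rs ρ (HL H) W hW') := by
    ext a
    constructor
    · rintro ⟨x, hx, rfl⟩
      exact ⟨⟨x, hx⟩, rfl⟩
    · rintro ⟨x, rfl⟩
      exact ⟨⟨x, hHL x x.2⟩, x.2, rfl⟩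
  rw [hset]
  have hD1 : finrank k D = 1 := by
    apply finrank_span_singleton
    intro h0
    exact hc.z_ne (congrArg Subtype.val h0)
  have hbot : Algebra.adjoin k ((rs ρ (HL H) W hW') '' (D : Set _)) ≤ ⊥ := by
    apply Algebra.adjoin_le
    rintro _ ⟨x, hx, rfl⟩
    have hx' : x ∈ Submodule.span k {(⟨z, hc.z_mem⟩ : (HL H : LieSubalgebra k L))} := hx
    obtain ⟨c, rfl⟩ := Submodule.mem_span_singleton.mp hx'
    rw [map_smul]
    have h2 : rs ρ (HL H) W hW' ⟨z, hc.z_mem⟩ = 1 := by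
      ext w
      rw [rs_apply]
      exact hWz w w.2
    rw [h2]
    exact (⊥ : Subalgebra k (End k W)).smul_mem (Subalgebra.one_mem _) c
  have h3 : finrank k (Algebra.adjoin k ((rs ρ (HL H) W hW') '' (D : Set _))) ≤ 1 := by
    rw [le_bot_iff.mp hbot]
    by_cases hW0 : Nontrivial W
    · rw [Subalgebra.finrank_bot]
    · rw [not_nontrivial_iff_subsingleton] at hW0
      have : finrank k (⊥ : Subalgebra k (End k W)) = 0 := finrank_zero_of_subsingleton
      omega
  rw [hD1] at h1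
  have h4 : finrank k (HL H : LieSubalgebra k L) = finrank k H := rfl
  rw [h4] at h1
  calc _ ≤ _ := h1
    _ ≤ 1 * p ^ (finrank k H - 1) := Nat.mul_le_mul_right _ h3
    _ = _ := one_mul _

theorem noTor_of_irr {f : L → L} (hf : Rst p k f) {χ : Dual k L} (ρ : L →ₗ[k] End k V)
    (hρ : Rep p f χ ρ) (h : Irr ρ) (hd : p ^ finrank k L ≤ finrank k V ^ 2) {z : L}
    {H : LieIdeal k L} (hc : Cfg f χ z H) : NoTor f χ z H := by
  intro t ht htf htR
  by_contra ht0
  classical
  have hVnt : Nontrivial V := h.1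
  -- the subspace `Vz`
  let Vz : Submodule k V := LinearMap.ker (ρ z - 1)
  have hVzmem : ∀ v, v ∈ Vz ↔ ρ z v = v := by
    intro v
    rw [LinearMap.mem_ker, LinearMap.sub_apply, Module.End.one_apply, sub_eq_zero]
  have hVz : ∀ x ∈ (cz z : LieSubalgebra k L), ∀ v ∈ Vz, ρ x v ∈ Vz := by
    intro x hx v hv
    rw [hVzmem] at hv ⊢
    have h1 := hρ.lie x z
    have hx' : ⁅x, z⁆ = 0 := hx
    rw [hx', map_zero] at h1
    have h3 := congrArg (fun a : End k V => a v) h1
    simp only [LinearMap.zero_apply, LinearMap.sub_apply, Module.End.mul_apply] at h3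
    rw [hv] at h3
    exact (sub_eq_zero.mp h3.symm).symm
  have hchar : CharP (End k V) p :=
    charP_of_injective_algebraMap (algebraMap k (End k V)).injective p
  have hzz : (ρ z - 1) ^ p = 0 := by
    have h1 := hρ.pow z
    rw [hc.fz, map_zero, hc.χz, one_pow, map_one, zero_add] at h1
    rw [sub_pow_char_of_commute p (Commute.one_right (ρ z)), h1, one_pow, sub_self]
  have hVz0 : Vz ≠ ⊥ := by
    intro hbot
    have hinj : Function.Injective ⇑((ρ z - 1 : End k V)) := LinearMap.ker_eq_bot.mp hbot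
    obtain ⟨v, hv⟩ := exists_ne (0 : V)
    have h1 : ∀ n : ℕ, Function.Injective ⇑((ρ z - 1 : End k V) ^ n) := by
      intro n
      rw [Module.End.coe_pow]
      exact hinj.iterate n
    apply hv
    apply h1 p
    rw [hzz, map_zero]
    rfl
  have hVznt : Nontrivial Vz := Submodule.nontrivial_iff_ne_bot.mpr hVz0
  have hrepz := rep_rs ρ hρ (cz z) (cz_f hf z) Vz hVz
  have htcz : t ∈ (cz z : LieSubalgebra k L) := ht.1
  obtain ⟨s, hs, hscomm⟩ := exists_tprime hf hc (rs ρ (cz z) Vz hVz) hrepz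
    (by
      intro x hx
      ext v
      rw [rs_apply, hx]
      exact (hVzmem v).mp v.2)
    ⟨t, htcz⟩ ht htf htR
  set σ := rs ρ (cz z) Vz hVz with hσ
  -- an eigenspace of `t'`
  obtain ⟨c1, hc1⟩ := Module.End.exists_eigenvalue (σ ⟨t, htcz⟩ - s)
  let W2' : Submodule k Vz := Module.End.eigenspace (σ ⟨t, htcz⟩ - s) c1
  have hW2' : ∀ v, v ∈ W2' ↔ (σ ⟨t, htcz⟩ - s) v = c1 • v := fun v =>
    Module.End.mem_eigenspace_iff
  let W2 : Submodule k V := W2'.map Vz.subtype
  have hW20 : W2 ≠ ⊥ := by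
    intro hbot
    apply hc1
    change W2' = ⊥
    rw [Submodule.eq_bot_iff]
    intro v hv
    have : (v : V) ∈ W2 := ⟨v, hv, rfl⟩
    rw [hbot, Submodule.mem_bot] at this
    exact Subtype.ext this
  have hW2 : ∀ x ∈ (cz z : LieSubalgebra k L), ∀ w ∈ W2, ρ x w ∈ W2 := by
    rintro x hx _ ⟨v, hv, rfl⟩
    refine ⟨σ ⟨x, hx⟩ v, ?_, rfl⟩
    change σ ⟨x, hx⟩ v ∈ W2'
    rw [hW2']
    have h1 := congrArg (fun a : End k Vz => a v) (hscomm ⟨x, hx⟩)
    simp only [Module.End.mul_apply] at h1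
    have hv' : (σ ⟨t, htcz⟩ - s) v = c1 • v := (hW2' v).mp hv
    rw [h1, hv', map_smul]
  obtain ⟨W3, hW3, hW32, hW30, hirr3⟩ := exists_irr ρ (cz z) W2 hW20 hW2
  have hW3z : ∀ w ∈ W3, w ∈ Vz := by
    intro w hw
    obtain ⟨v, _, rfl⟩ := hW32 hw
    exact v.2
  have hW3z' : ∀ w ∈ W3, ρ z w = w := fun w hw => (hVzmem w).mp (hW3z w hw)
  set σ3 := rs ρ (cz z) W3 hW3 with hσ3
  have hrep3 := rep_rs ρ hρ (cz z) (cz_f hf z) W3 hW3
  set 𝒜3 := Algebra.adjoin k (σ3 '' HH z H) with h𝒜3
  -- transfer of the algebra generated by `H`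
  have htrans : ∀ a ∈ Algebra.adjoin k (σ '' HH z H), ∃ a' ∈ 𝒜3, ∀ w : W3,
      ((a' w : W3) : V) = ((a ⟨w, hW3z w w.2⟩ : Vz) : V) := by
    intro a ha
    induction ha using Algebra.adjoin_induction with
    | mem a ha =>
      obtain ⟨b, hb, rfl⟩ := ha
      exact ⟨σ3 b, Algebra.subset_adjoin ⟨b, hb, rfl⟩, fun w => rfl⟩
    | algebraMap c =>
      refine ⟨algebraMap k _ c, 𝒜3.algebraMap_mem c, fun w => ?_⟩
      rw [Module.algebraMap_end_apply, Module.algebraMap_end_apply]
      rfl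
    | add a b _ _ ha hb =>
      obtain ⟨a', ha', ha''⟩ := ha
      obtain ⟨b', hb', hb''⟩ := hb
      refine ⟨a' + b', 𝒜3.add_mem ha' hb', fun w => ?_⟩
      rw [LinearMap.add_apply, LinearMap.add_apply, Submodule.coe_add, Submodule.coe_add, ha'', hb'']
    | mul a b _ _ ha hb =>
      obtain ⟨a', ha', ha''⟩ := ha
      obtain ⟨b', hb', hb''⟩ := hb
      refine ⟨a' * b', 𝒜3.mul_mem ha' hb', fun w => ?_⟩
      rw [Module.End.mul_apply, Module.End.mul_apply, ha'']
      congr 2
      exact Subtype.ext (hb'' w)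
  have ht3 : σ3 ⟨t, htcz⟩ ∈ 𝒜3 := by
    obtain ⟨s', hs', hs''⟩ := htrans s hs
    have : σ3 ⟨t, htcz⟩ = s' + algebraMap k _ c1 := by
      ext w
      have hw2 : (⟨w, hW3z w w.2⟩ : Vz) ∈ W2' := by
        obtain ⟨v, hv, hvw⟩ := hW32 w.2
        have : v = ⟨w, hW3z w w.2⟩ := Subtype.ext hvw
        rw [← this]
        exact hv
      rw [hW2', LinearMap.sub_apply, sub_eq_iff_eq_add] at hw2
      have h1 := congrArg (fun v : Vz => (v : V)) hw2
      rw [LinearMap.add_apply, Submodule.coe_add, hs'', Module.algebraMap_end_apply, Submodule.coe_smul]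
      change ρ t (w : V) = _
      change ρ t (w : V) = c1 • (w : V) + ((s ⟨w, hW3z w w.2⟩ : Vz) : V) at h1
      rw [h1, add_comm]
    rw [this]
    exact 𝒜3.add_mem hs' (𝒜3.algebraMap_mem c1)
  -- dimension of the algebra generated by `H`
  have hdimH := finrank_adjoin_H hc ρ hρ W3 hW3 hW3z'
  -- the subspace `k t + H`
  have htH : t ∉ H := by
    intro htH
    obtain ⟨c, hcc⟩ := inR_H hc ht htH
    apply ht0
    rw [← htf, hcc, hf.smul, hc.fz, smul_zero]
  let D : Submodule k L := Submodule.span k {t} ⊔ (H : Submodule k L)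
  have hDcz : D ≤ (cz z : LieSubalgebra k L).toSubmodule := by
    apply sup_le
    · rw [Submodule.span_singleton_le_iff_mem]
      exact htcz
    · intro x hx
      exact hc.H_cent x hx
  have hDdim : finrank k D = finrank k H + 1 := by
    have h1 := Submodule.finrank_sup_add_finrank_inf_eq (Submodule.span k {t}) (H : Submodule k L)
    have h3 : Submodule.span k {t} ⊓ (H : Submodule k L) = ⊥ := by
      rw [Submodule.eq_bot_iff]
      rintro x ⟨hx1, hx2⟩
      obtain ⟨c, rfl⟩ := Submodule.mem_span_singleton.mp hx1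
      by_cases hc0 : c = 0
      · rw [hc0, zero_smul]
      · exfalso
        apply htH
        have : t = c⁻¹ • (c • t) := by rw [smul_smul, inv_mul_cancel₀ hc0, one_smul]
        rw [this]
        exact H.smul_mem _ hx2
    rw [h3, finrank_bot, finrank_span_singleton ht0] at h1
    have h4 : finrank k (H : Submodule k L) = finrank k H := rfl
    have h5 : finrank k D = finrank k (Submodule.span k {t} ⊔ (H : Submodule k L) : Submodule k L) :=
      rfl
    omega
  let D3 : Submodule k (cz z : LieSubalgebra k L) := D.comap (cz z : LieSubalgebra k L).toSubmodule.subtype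
  have hD3dim : finrank k D3 = finrank k H + 1 := by
    rw [← hDdim]
    exact (Submodule.comapSubtypeEquivOfLe hDcz).finrank_eq
  have hadj : Algebra.adjoin k (σ3 '' (D3 : Set _)) ≤ 𝒜3 := by
    apply Algebra.adjoin_le
    rintro _ ⟨x, hx, rfl⟩
    have hx' : (x : L) ∈ D := hx
    obtain ⟨y, hy, w, hw, hyw⟩ := Submodule.mem_sup.mp hx'
    obtain ⟨c, rfl⟩ := Submodule.mem_span_singleton.mp hy
    have hwcz : w ∈ (cz z : LieSubalgebra k L) := hc.H_cent w hw
    have : x = c • (⟨t, htcz⟩ : (cz z : LieSubalgebra k L)) + ⟨w, hwcz⟩ := Subtype.ext hyw.symm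
    rw [this, map_add, map_smul]
    exact 𝒜3.add_mem (𝒜3.smul_mem ht3 c) (Algebra.subset_adjoin ⟨⟨w, hwcz⟩, hw, rfl⟩)
  have hbc := bc σ3 hrep3 hirr3 D3
  have h5 : finrank k (Algebra.adjoin k (σ3 '' (D3 : Set _))) ≤ p ^ (finrank k H - 1) := by
    refine le_trans ?_ hdimH
    have hadj' : Subalgebra.toSubmodule (Algebra.adjoin k (σ3 '' (D3 : Set _))) ≤
        Subalgebra.toSubmodule 𝒜3 := hadj
    exact Submodule.finrank_mono hadj'
  have hcodim := finrank_cz hc
  have h6 : finrank k D3 ≤ finrank k (cz z : LieSubalgebra k L) := Submodule.finrank_le D3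
  have h7 : 1 ≤ finrank k H := by
    have : Nontrivial H := ⟨⟨⟨z, hc.z_mem⟩, 0, fun h0 => hc.z_ne (congrArg Subtype.val h0)⟩⟩
    exact finrank_pos
  have h8 := gen_irr ρ hρ h (cz z : LieSubalgebra k L).toSubmodule W3 hW30 hW3
  have h9 : finrank k L - finrank k (cz z : LieSubalgebra k L).toSubmodule = 1 := by
    have : finrank k (cz z : LieSubalgebra k L).toSubmodule = finrank k (cz z : LieSubalgebra k L) := rfl
    omega
  rw [h9, pow_one] at h8
  have hp := (Fact.out : p.Prime)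
  have h10 : finrank k W3 ^ 2 ≤ p ^ (finrank k L - 3) := by
    refine hbc.trans ((Nat.mul_le_mul_right _ h5).trans ?_)
    rw [← pow_add]
    apply Nat.pow_le_pow_right hp.pos
    omega
  have h11 : finrank k V ^ 2 ≤ p ^ (finrank k L - 1) := by
    calc finrank k V ^ 2 ≤ (p * finrank k W3) ^ 2 := Nat.pow_le_pow_left h8 2
      _ = p ^ 2 * finrank k W3 ^ 2 := by rw [mul_pow]
      _ ≤ p ^ 2 * p ^ (finrank k L - 3) := Nat.mul_le_mul_left _ h10
      _ = p ^ (2 + (finrank k L - 3)) := (pow_add _ _ _).symm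
      _ = p ^ (finrank k L - 1) := by
        congr 1
        omega
  have h12 : p ^ (finrank k L - 1) < p ^ finrank k L := by
    apply Nat.pow_lt_pow_right hp.one_lt
    omega
  omega

end Pool.Agent.SkG
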