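import Pool.Agent.Lib.SkG.Basic
import Pool.Agent.Lib.SkG.Low
import Pool.Agent.Lib.SkG.Red
import Pool.Agent.Lib.SkG.RedRep
import Pool.Agent.Lib.SkG.G12
import Pool.Agent.Lib.SkG.Str1
import Pool.Agent.Lib.SkG.Str2
import Pool.Agent.Lib.SkG.Str3
import Pool.Agent.Lib.SkG.Small
import Pool.Agent.Lib.SkG.TorI
import Pool.Agent.Lib.SkG.TorII
import Pool.Agent.Lib.SkG.Bridge

/-!
# Main (general p): the two inductions and the final theorem
-/

namespace Pool.Agent.SkG

open Module Pool.Agent.SkS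

section

variable {k L : Type} [Field k] {p : ℕ} [Fact p.Prime] [CharP k p] [LieRing L] [LieAlgebra k L]
  [FiniteDimensional k L]

omit [CharP k p] in
/-- data attached to an abelian ideal of dimension at least two -/
lemma ideal_data {f : L → L} (hf : Rst p k f) (χ : Dual k L)
    (hcen : ∀ c : L, (∀ y : L, ⁅c, y⁆ = 0) → c = 0) (M : LieIdeal k L)
    (hM : ∀ x ∈ M, ∀ y ∈ M, ⁅x, y⁆ = 0) (h2 : 2 ≤ finrank k M)
    (hnd : ∀ m ∈ M, (∀ y : L, χ ⁅y, m⁆ = 0) → m = 0) :
    (∀ m ∈ M, f m = 0) ∧ (∃ z0 ∈ M, χ z0 = 1) ∧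
      ∃ K : Submodule k L, (∀ m, m ∈ K ↔ m ∈ M ∧ χ m = 0) ∧ 1 ≤ finrank k K := by
  have hfM : ∀ m ∈ M, f m = 0 := by
    intro m hm
    apply hcen
    intro y
    rw [hf.ad]
    obtain ⟨q, hq⟩ : ∃ q, p = q + 2 := ⟨p - 2, by have := (Fact.out : p.Prime).two_le; omega⟩
    rw [hq, Function.iterate_add_apply]
    have h1 : (fun w => ⁅m, w⁆)^[2] y = 0 := hM m hm _ (lie_mem_left k L M m y hm)
    rw [h1]
    exact Function.iterate_fixed (lie_zero m) q
  have hz : ∃ z1 ∈ M, χ z1 ≠ 0 := by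
    by_contra hcon
    push Not at hcon
    have : ∀ m ∈ M, m = 0 := fun m hm => hnd m hm (fun y => hcon _ (lie_mem_right k L M y m hm))
    have hbot : (M : Submodule k L) = ⊥ := by
      rw [Submodule.eq_bot_iff]
      exact this
    have : finrank k M = 0 := by
      change finrank k (M : Submodule k L) = 0
      rw [hbot, finrank_bot]
    omega
  obtain ⟨z1, hz1, hχ1⟩ := hz
  refine ⟨hfM, ⟨(χ z1)⁻¹ • z1, M.smul_mem _ hz1, ?_⟩, (M : Submodule k L) ⊓ LinearMap.ker χ, ?_, ?_⟩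
  · rw [map_smul, smul_eq_mul, inv_mul_cancel₀ hχ1]
  · intro m
    simp
  · by_contra hcon
    push Not at hcon
    have h0 : finrank k ((M : Submodule k L) ⊓ LinearMap.ker χ : Submodule k L) = 0 := by omega
    have h1 := Submodule.finrank_sup_add_finrank_inf_eq (M : Submodule k L) (LinearMap.ker χ)
    have h3 := LinearMap.finrank_range_add_finrank_ker χ
    have h4 : finrank k (LinearMap.range χ) ≤ 1 := by
      have := Submodule.finrank_le (LinearMap.range χ)
      simpa using this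
    have h5 := Submodule.finrank_le ((M : Submodule k L) ⊔ LinearMap.ker χ)
    have h6 : finrank k (M : Submodule k L) = finrank k M := rfl
    omega

/-- the structure theorem: `L` even dimensional with small abelian ideals is `0` or two-dimensional -/
lemma structure_two [IsAlgClosed k] (h3 : Sol3 k L) {f : L → L} (hf : Rst p k f) (hab : AbOne k L)
    (hcen : ∀ c : L, (∀ y : L, ⁅c, y⁆ = 0) → c = 0) (χ : Dual k L)
    (hnd : ∀ M : LieIdeal k L, (∀ x ∈ M, ∀ y ∈ M, ⁅x, y⁆ = 0) →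
      ∀ m ∈ M, (∀ y : L, χ ⁅y, m⁆ = 0) → m = 0)
    (hT : ∀ (z : L) (H : LieIdeal k L), Cfg f χ z H → NoTor f χ z H)
    (heven : Even (finrank k L)) :
    finrank k L = 0 ∨ ∃ z T : L, χ z = 1 ∧ f z = 0 ∧ ⁅T, z⁆ = z ∧
      ∀ x : L, ∃ a b : k, x = a • T + b • z := by
  by_cases hno : ∀ M : LieIdeal k L, (∀ x ∈ M, ∀ y ∈ M, ⁅x, y⁆ = 0) → ∀ x ∈ M, x = 0
  · rcases odd_of_no_abelian h3 hno with h | h
    · exact Or.inl h
    · exact absurd heven (Nat.not_even_iff_odd.mpr h)
  · push Not at hno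
    obtain ⟨M, hM, z1, hz1, hz10⟩ := hno
    obtain ⟨z, H, hc⟩ := exists_cfg hf hab hcen χ hnd M hM z1 hz1 hz10
    rcases L0_or_odd h3 hc (fun A hAz hAA => core hf hab hc (hT z H hc) A hAz hAA) with h | h
    · obtain ⟨T, hTz, hs⟩ := two_dim hab hc h
      exact Or.inr ⟨z, T, hc.χz, hc.fz, hTz, hs⟩
    · exact absurd heven (Nat.not_even_iff_odd.mpr h)

theorem big_of_nondeg [IsAlgClosed k] : ∀ (n : ℕ) (L : Type) [LieRing L] [LieAlgebra k L]
    [FiniteDimensional k L] (_ : Sol3 k L) (f : L → L) (χ : Dual k L),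
    finrank k L = n → Frz p k f → Nondeg χ → Big p f χ := by
  intro n
  induction n using Nat.strong_induction_on with
  | _ n ih =>
  intro L _ _ _ h3 f χ hn hfz hχ
  have hf := rst_of_frz hfz
  have hcen : ∀ c : L, (∀ y : L, ⁅c, y⁆ = 0) → c = 0 := by
    intro c hc
    apply hχ
    intro y
    rw [hc, map_zero]
  have hnd : ∀ m : L, (∀ y : L, χ ⁅y, m⁆ = 0) → m = 0 := by
    intro m hm
    apply hχ
    intro y
    rw [← lie_skew, map_neg, hm, neg_zero]
  by_cases hab : AbOne k L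
  · rcases structure_two h3 hf hab hcen χ (fun M _ m _ hy => hnd m hy)
      (fun z H hc => noTor_of_nondeg hf hχ hc) (even_of_nondeg hχ) with h0 | ⟨z, T, hχz, hfz0, hTz, hs⟩
    · intro V _ _ _ ρ _ hirr
      rw [h0, pow_zero]
      have := hirr.1
      have : 0 < finrank k V := finrank_pos
      nlinarith
    · exact base_big hχz hfz0 hTz hs
  · unfold AbOne at hab
    push Not at hab
    obtain ⟨M, hM, hM2⟩ := hab
    have hnd' : ∀ m ∈ M, (∀ y : L, χ ⁅y, m⁆ = 0) → m = 0 := fun m _ => hnd m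
    obtain ⟨hfM, ⟨z0, hz0, hχ0⟩, K, hK, hK1⟩ := ideal_data hf χ hcen M hM hM2 hnd'
    obtain ⟨L', _, _, f', χ', D, hf', hfin', hsol', hdim, -, hN, -⟩ :=
      red h3 hfz χ M hM hfM hnd' K hK
    intro V _ _ _ ρ hρ hirr
    have hlt : finrank k L' < n := by omega
    have hbig := ih _ hlt L' hsol' f' χ' rfl hf' (hN hχ)
    obtain ⟨W, ρ', hW0, hWK, hρ', hirr', -⟩ := redRep ρ hρ hirr.1 K
      (fun x hx y hy => hM x ((hK x).1 hx).1 y ((hK y).1 hy).1)
      (fun m hm => hfM m ((hK m).1 hm).1) (fun m hm => ((hK m).1 hm).2) D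
    have h1 := hbig W ρ' hρ' hirr'
    let V0 : Submodule k V :=
      { carrier := {v | ∀ m ∈ K, ρ m v = 0}
        add_mem' := by
          intro a b ha hb m hm
          rw [map_add, ha m hm, hb m hm, add_zero]
        zero_mem' := by
          intro m _
          rw [map_zero]
        smul_mem' := by
          intro c a ha m hm
          rw [map_smul, ha m hm, smul_zero] }
    have h2 := low ρ hρ M hM hfM z0 hz0 hχ0 hnd' K hK V0 (fun v => Iff.rfl)
    have h3' : finrank k W ≤ finrank k V0 := Submodule.finrank_mono hWK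
    have h4 : p ^ finrank k K * finrank k W ≤ finrank k V :=
      (Nat.mul_le_mul_left _ h3').trans h2
    calc p ^ finrank k L = (p ^ finrank k K) ^ 2 * p ^ finrank k L' := by
          rw [← hdim, pow_add, ← pow_mul, mul_comm 2 (finrank k K), mul_comm]
      _ ≤ (p ^ finrank k K) ^ 2 * finrank k W ^ 2 := Nat.mul_le_mul_left _ h1
      _ = (p ^ finrank k K * finrank k W) ^ 2 := by rw [mul_pow]
      _ ≤ finrank k V ^ 2 := Nat.pow_le_pow_left h4 2

theorem nondeg_of_irr [IsAlgClosed k] : ∀ (n : ℕ) (L : Type) [LieRing L] [LieAlgebra k L]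
    [FiniteDimensional k L] (_ : Sol3 k L) (f : L → L) (χ : Dual k L)
    (V : Type) [AddCommGroup V] [Module k V] [FiniteDimensional k V] (ρ : L →ₗ[k] End k V),
    finrank k L = n → Frz p k f → Rep p f χ ρ → Irr ρ → p ^ finrank k L ≤ finrank k V ^ 2 →
    Nondeg χ := by
  intro n
  induction n using Nat.strong_induction_on with
  | _ n ih =>
  intro L _ _ _ h3 f χ V _ _ _ ρ hn hfz hρ hirr hd
  have hf := rst_of_frz hfz
  have hcen : ∀ c : L, (∀ y : L, ⁅c, y⁆ = 0) → c = 0 := center_zero ρ hρ hirr hd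
  have hnd : ∀ M : LieIdeal k L, (∀ x ∈ M, ∀ y ∈ M, ⁅x, y⁆ = 0) →
      ∀ m ∈ M, (∀ y : L, χ ⁅y, m⁆ = 0) → m = 0 := fun M hM m hm hy => G2 hf ρ hρ hirr hd M hM m hm hy
  by_cases hab : AbOne k L
  · rcases structure_two h3 hf hab hcen χ hnd
      (fun z H hc => noTor_of_irr hf ρ hρ hirr hd hc) (even_of_irr ρ hρ hirr hd) with
      h0 | ⟨z, T, hχz, hfz0, hTz, hs⟩
    · intro x _
      have := finrank_zero_iff.mp h0
      exact Subsingleton.elim _ _
    · exact base_nondeg hχz hTz hs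
  · unfold AbOne at hab
    push Not at hab
    obtain ⟨M, hM, hM2⟩ := hab
    have hnd' := hnd M hM
    obtain ⟨hfM, ⟨z0, hz0, hχ0⟩, K, hK, hK1⟩ := ideal_data hf χ hcen M hM hM2 hnd'
    obtain ⟨L', _, _, f', χ', D, hf', hfin', hsol', hdim, hdim1, -, hN⟩ :=
      red h3 hfz χ M hM hfM hnd' K hK
    apply hN
    have hlt : finrank k L' < n := by omega
    obtain ⟨W, ρ', hW0, hWK, hρ', hirr', hact⟩ := redRep ρ hρ hirr.1 K
      (fun x hx y hy => hM x ((hK x).1 hx).1 y ((hK y).1 hy).1)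
      (fun m hm => hfM m ((hK m).1 hm).1) (fun m hm => ((hK m).1 hm).2) D
    have hst : ∀ x ∈ D.L1.toSubmodule, ∀ w ∈ W, ρ x w ∈ W := by
      intro x hx w hw
      have := hact ⟨x, hx⟩ ⟨w, hw⟩
      rw [← this]
      exact Subtype.property _
    have h1 := gen_irr ρ hρ hirr D.L1.toSubmodule W hW0 hst
    have h2 : finrank k L - finrank k D.L1.toSubmodule = finrank k K := by
      have : finrank k D.L1.toSubmodule = finrank k D.L1 := rfl
      omega
    rw [h2] at h1
    refine ih _ hlt L' hsol' f' χ' W ρ' rfl hf' hρ' hirr' ?_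
    have h3 : p ^ finrank k L ≤ (p ^ finrank k K * finrank k W) ^ 2 :=
      hd.trans (Nat.pow_le_pow_left h1 2)
    rw [← hdim, pow_add, mul_pow, ← pow_mul, mul_comm (finrank k K) 2, mul_comm] at h3
    have hp : 0 < p := (Fact.out : p.Prime).pos
    exact Nat.le_of_mul_le_mul_left h3 (by positivity)

end

/-- Skryabin's equivalence for restricted Lie algebras with a solvable ideal of codimension at most three -/
theorem main (k : Type) [Field k] [IsAlgClosed k] (p : ℕ) [Fact p.Prime] [CharP k p] (L : Type)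
    [LieRing L] [LieAlgebra k L] [FiniteDimensional k L] (h3 : Sol3 k L) (f : L → L)
    (h : Frz p k f) (χ : Dual k L) : IsSimpleRing (UU p f χ) ↔ Nondeg χ := by
  constructor
  · intro hs
    obtain ⟨V, _, _, _, ρ, hρ, hirr, hd⟩ := good_of_simple h χ hs
    exact nondeg_of_irr _ L h3 f χ V ρ rfl h hρ hirr hd
  · intro hχ
    exact simple_of_big h χ (big_of_nondeg _ L h3 f χ rfl h hχ)

end Pool.Agent.SkG
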