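import Pool.Agent.Lib.SkG.Defs

/-!
# Module Span (general p): ordered monomials with exponents `< p` span the algebra generated by `θ(L)`

Proof.  `G = 1 ⊔ θ(L)`, `X x j` the span of the monomials of weight at most `j`.
(★) `x_i E(x, ε) ∈ X (|ε| + 1) + G^{|ε|}` for families `x` with `x_i ∈ G`, `[x_i, x_j] ∈ G`, `x_i^p ∈ G`, by induction on `n`.
Then `G^j ≤ X j` by induction on `j`.
-/

namespace Pool.Agent.SkG

open Module Pool.Agent.SkS

variable {k L : Type} [Field k] {p : ℕ} [Fact p.Prime] [LieRing L] [LieAlgebra k L]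

/-- the weight of an exponent vector -/
private def wt {p n : ℕ} (ε : Fin n → Fin p) : ℕ := ∑ i, (ε i : ℕ)

/-- the span of the monomials of weight at most `j` -/
private def X (p : ℕ) {k A : Type} [Field k] [Ring A] [Algebra k A] {n : ℕ} (x : Fin n → A) (j : ℕ) :
    Submodule k A := Submodule.span k {a | ∃ ε : Fin n → Fin p, wt ε ≤ j ∧ E x ε = a}

private lemma E_succ {A : Type} [Ring A] {p n : ℕ} (x : Fin (n + 1) → A) (ε : Fin (n + 1) → Fin p) :
    E x ε = x 0 ^ (ε 0 : ℕ) * E (fun i => x i.succ) (fun i => ε i.succ) := by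
  unfold E
  rw [List.ofFn_succ, List.prod_cons]

private lemma wt_succ {p n : ℕ} (ε : Fin (n + 1) → Fin p) :
    wt ε = (ε 0 : ℕ) + wt (fun i => ε i.succ) := by
  unfold wt
  rw [Fin.sum_univ_succ]

private lemma X_mono {k A : Type} [Field k] [Ring A] [Algebra k A] {p n : ℕ} (x : Fin n → A)
    {i j : ℕ} (h : i ≤ j) : (X p x i : Submodule k A) ≤ X p x j :=
  Submodule.span_mono (fun _ ⟨ε, h1, h2⟩ => ⟨ε, h1.trans h, h2⟩)

private lemma one_mem_pow {k A : Type} [Field k] [Ring A] [Algebra k A] {G : Submodule k A}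
    (h1 : (1 : A) ∈ G) (m : ℕ) : (1 : A) ∈ G ^ m := by
  induction m with
  | zero =>
    rw [pow_zero]
    exact Submodule.one_le.mp le_rfl
  | succ m ih =>
    rw [pow_succ]
    have := Submodule.mul_mem_mul ih h1
    rwa [one_mul] at this

private lemma G_mono {k A : Type} [Field k] [Ring A] [Algebra k A] {G : Submodule k A}
    (h1 : (1 : A) ∈ G) {i j : ℕ} (h : i ≤ j) : G ^ i ≤ G ^ j := by
  obtain ⟨m, rfl⟩ := Nat.exists_eq_add_of_le h
  rw [pow_add]
  intro a ha
  have := Submodule.mul_mem_mul ha (one_mem_pow h1 m)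
  rwa [mul_one] at this

private lemma head_X {k A : Type} [Field k] [Ring A] [Algebra k A] {p n : ℕ} (x : Fin (n + 1) → A)
    (j : ℕ) (m : Fin p) (a : A) (ha : a ∈ (X p (fun i => x i.succ) j : Submodule k A)) :
    x 0 ^ (m : ℕ) * a ∈ (X p x (m + j) : Submodule k A) := by
  have h : (X p (fun i => x i.succ) j : Submodule k A) ≤
      (X p x (m + j) : Submodule k A).comap (LinearMap.mulLeft k (x 0 ^ (m : ℕ))) := by
    conv_lhs => unfold X
    rw [Submodule.span_le]
    rintro _ ⟨ε, h1, rfl⟩
    change x 0 ^ (m : ℕ) * _ ∈ X p x (m + j)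
    refine Submodule.subset_span ⟨Fin.cons m ε, ?_, ?_⟩
    · rw [wt_succ]
      simp only [Fin.cons_zero, Fin.cons_succ]
      have h3 : wt (fun i => ε i) = wt ε := rfl
      omega
    · rw [E_succ]
      simp
  exact h ha

private lemma E_mem_pow {k A : Type} [Field k] [Ring A] [Algebra k A] {p : ℕ} {G : Submodule k A}
    (h1 : (1 : A) ∈ G) : ∀ (n : ℕ) (x : Fin n → A), (∀ i, x i ∈ G) → ∀ (ε : Fin n → Fin p),
      E x ε ∈ G ^ (wt ε) := by
  intro n
  induction n with
  | zero =>
    intro x _ ε
    have : E x ε = 1 := by simp [E]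
    rw [this]
    exact one_mem_pow h1 _
  | succ n ih =>
    intro x hx ε
    rw [E_succ, wt_succ, pow_add]
    refine Submodule.mul_mem_mul ?_ (ih _ (fun i => hx i.succ) _)
    exact Submodule.pow_mem_pow _ (hx 0) _

private lemma comm_pow {k A : Type} [Field k] [Ring A] [Algebra k A] {G : Submodule k A}
    (y w : A) (hw : w ∈ G) (hyw : y * w - w * y ∈ G) (m : ℕ) :
    y * w ^ m - w ^ m * y ∈ G ^ m := by
  induction m with
  | zero =>
    rw [pow_zero w, mul_one, one_mul, sub_self]
    exact Submodule.zero_mem _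
  | succ m ih =>
    have h : y * w ^ (m + 1) - w ^ (m + 1) * y = (y * w ^ m - w ^ m * y) * w + w ^ m * (y * w - w * y) := by
      rw [pow_succ]
      noncomm_ring
    rw [h, pow_succ]
    exact Submodule.add_mem _ (Submodule.mul_mem_mul ih hw)
      (Submodule.mul_mem_mul (Submodule.pow_mem_pow _ hw m) hyw)

private lemma key {k A : Type} [Field k] [Ring A] [Algebra k A] {p : ℕ} (hp : 2 ≤ p)
    (G : Submodule k A) (h1 : (1 : A) ∈ G) :
    ∀ (n : ℕ) (x : Fin n → A), (∀ i, x i ∈ G) → (∀ i j, x i * x j - x j * x i ∈ G) →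
      (∀ i, x i ^ p ∈ G) → ∀ (ε : Fin n → Fin p) (i : Fin n),
        x i * E x ε ∈ X p x (wt ε + 1) ⊔ G ^ (wt ε) := by
  intro n
  induction n with
  | zero =>
    intro x _ _ _ ε i
    exact i.elim0
  | succ n ih =>
    intro x hx hcomm hsq ε i
    set ε' : Fin n → Fin p := fun i => ε i.succ with hε'
    have hE : E (fun i => x i.succ) ε' ∈ G ^ (wt ε') := E_mem_pow h1 n _ (fun i => hx i.succ) ε'
    rw [E_succ, wt_succ, ← hε']
    refine Fin.cases ?_ (fun i' => ?_) i
    · rw [← mul_assoc, ← pow_succ']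
      by_cases h0 : (ε 0 : ℕ) + 1 < p
      · apply Submodule.mem_sup_left
        have := head_X (k := k) x (wt ε') ⟨(ε 0 : ℕ) + 1, h0⟩ _ (Submodule.subset_span ⟨ε', le_rfl, rfl⟩)
        change x 0 ^ ((ε 0 : ℕ) + 1) * _ ∈ X p x ((ε 0 : ℕ) + 1 + wt ε') at this
        rwa [show (ε 0 : ℕ) + wt ε' + 1 = (ε 0 : ℕ) + 1 + wt ε' by omega]
      · have h2 : (ε 0 : ℕ) + 1 = p := by
          have := (ε 0).isLt
          omega
        apply Submodule.mem_sup_right
        rw [h2]
        refine G_mono h1 (i := 1 + wt ε') (by omega) ?_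
        rw [pow_add, pow_one]
        exact Submodule.mul_mem_mul (hsq 0) hE
    · have h2 : x i'.succ * (x 0 ^ (ε 0 : ℕ) * E (fun i => x i.succ) ε') =
            x 0 ^ (ε 0 : ℕ) * (x i'.succ * E (fun i => x i.succ) ε') +
            (x i'.succ * x 0 ^ (ε 0 : ℕ) - x 0 ^ (ε 0 : ℕ) * x i'.succ) *
              E (fun i => x i.succ) ε' := by
          noncomm_ring
      rw [h2]
      apply Submodule.add_mem
      · have := ih (fun i => x i.succ) (fun i => hx i.succ) (fun i j => hcomm i.succ j.succ)
          (fun i => hsq i.succ) ε' i'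
        obtain ⟨a, ha, b, hb, hab⟩ := Submodule.mem_sup.mp this
        rw [← hab, mul_add]
        apply Submodule.add_mem
        · apply Submodule.mem_sup_left
          have := head_X x _ (ε 0) a ha
          rwa [← add_assoc] at this
        · apply Submodule.mem_sup_right
          rw [pow_add]
          exact Submodule.mul_mem_mul (Submodule.pow_mem_pow _ (hx 0) _) hb
      · apply Submodule.mem_sup_right
        rw [pow_add]
        exact Submodule.mul_mem_mul (comm_pow _ _ (hx 0) (hcomm _ _) _) hE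

theorem span_E {A : Type} [Ring A] [Algebra k A] {f : L → L} {χ : Dual k L} (θ : L →ₗ[k] A)
    (hθ : Rep p f χ θ) {n : ℕ} (b : Fin n → L) (hb : Submodule.span k (Set.range b) = ⊤) :
    Subalgebra.toSubmodule (Algebra.adjoin k (Set.range θ)) ≤
      Submodule.span k (Set.range (E (fun i => θ (b i)) : (Fin n → Fin p) → A)) := by
  set x : Fin n → A := fun i => θ (b i) with hx
  set G : Submodule k A := 1 ⊔ LinearMap.range θ with hG
  have h1 : (1 : A) ∈ G := Submodule.mem_sup_left (Submodule.one_le.mp le_rfl)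
  have hθG : ∀ y, θ y ∈ G := fun y => Submodule.mem_sup_right ⟨y, rfl⟩
  have hxG : ∀ i, x i ∈ G := fun i => hθG _
  have hcomm : ∀ i j, x i * x j - x j * x i ∈ G := by
    intro i j
    rw [← hθ.lie]
    exact hθG _
  have hp2 : 2 ≤ p := (Fact.out : p.Prime).two_le
  have hsq : ∀ i, x i ^ p ∈ G := by
    intro i
    rw [hx]
    simp only
    rw [hθ.pow, Algebra.algebraMap_eq_smul_one]
    exact G.add_mem (hθG _) (G.smul_mem _ h1)
  have hpow : ∀ j, G ^ j ≤ X p x j := by
    intro j
    induction j with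
    | zero =>
      rw [pow_zero, Submodule.one_le]
      refine Submodule.subset_span ⟨fun _ => ⟨0, by omega⟩, ?_, ?_⟩
      · simp [wt]
      · simp [E]
    | succ j ih =>
      rw [pow_succ', Submodule.mul_le]
      intro g hg u hu
      have hu' := ih hu
      -- reduce to monomials
      have hred : (X p x j : Submodule k A) ≤ (X p x (j + 1)).comap (LinearMap.mulLeft k g) := by
        conv_lhs => unfold X
        rw [Submodule.span_le]
        rintro _ ⟨ε, h3, rfl⟩
        change g * E x ε ∈ X p x (j + 1)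
        have hG2 : G ≤ (X p x (j + 1)).comap (LinearMap.mulRight k (E x ε)) := by
          rw [hG]
          apply sup_le
          · rw [Submodule.one_le]
            change 1 * E x ε ∈ X p x (j + 1)
            rw [one_mul]
            exact Submodule.subset_span ⟨ε, h3.trans (Nat.le_succ j), rfl⟩
          · rw [LinearMap.range_eq_map, ← hb, Submodule.map_span, Submodule.span_le]
            rintro _ ⟨_, ⟨i, rfl⟩, rfl⟩
            change x i * E x ε ∈ X p x (j + 1)
            have h4 := key hp2 G h1 n x hxG hcomm hsq ε i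
            have h5 : X p x (wt ε + 1) ⊔ G ^ (wt ε) ≤ X p x (j + 1) := by
              apply sup_le
              · exact X_mono x (by omega)
              · exact (G_mono h1 h3).trans (ih.trans (X_mono x (Nat.le_succ j)))
            exact h5 h4
        exact hG2 hg
      exact hred hu'
  have hX : ∀ j, (X p x j : Submodule k A) ≤ Submodule.span k (Set.range (E x : (Fin n → Fin p) → A)) := by
    intro j
    unfold X
    apply Submodule.span_mono
    rintro _ ⟨ε, _, rfl⟩
    exact ⟨ε, rfl⟩
  intro a ha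
  have hex : ∃ j, a ∈ G ^ j := by
    rw [Subalgebra.mem_toSubmodule] at ha
    induction ha using Algebra.adjoin_induction with
    | mem a ha =>
      obtain ⟨y, rfl⟩ := ha
      refine ⟨1, ?_⟩
      rw [pow_one]
      exact hθG y
    | algebraMap c =>
      refine ⟨0, ?_⟩
      rw [pow_zero, Algebra.algebraMap_eq_smul_one]
      exact Submodule.smul_mem _ _ (Submodule.one_le.mp le_rfl)
    | add a b _ _ ha hb =>
      obtain ⟨i, hi⟩ := ha
      obtain ⟨j, hj⟩ := hb
      exact ⟨max i j, Submodule.add_mem _ (G_mono h1 (le_max_left i j) hi)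
        (G_mono h1 (le_max_right i j) hj)⟩
    | mul a b _ _ ha hb =>
      obtain ⟨i, hi⟩ := ha
      obtain ⟨j, hj⟩ := hb
      refine ⟨i + j, ?_⟩
      rw [pow_add]
      exact Submodule.mul_mem_mul hi hj
  obtain ⟨j, hj⟩ := hex
  exact hX j (hpow j hj)

end Pool.Agent.SkG
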